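import Pool.Agent.U160.LZ.Main

set_option autoImplicit false

namespace Pool.Agent.U160.LZ

open MeasureTheory ProbabilityTheory Finset Filter Topology Pool.Agent.U160.GC
open Pool.Agent.U160.VP (KInd kind_of_iInd)

/-- the deviation from the mean -/
noncomputable def dev (δ t : ℝ) (w : ℂ) (θ : ℕ → ℝ) : ℝ := ff δ t w θ - ∑ n ∈ range (NN t), (w * mt δ t n).re

theorem dev_eq {δ : ℝ} (h0 : 0 ≤ δ) (t : ℝ) (w : ℂ) (θ : ℕ → ℝ) :
    dev δ t w θ = ff δ t w θ - ∫ θ', ff δ t w θ' ∂(prodLaw unif) := by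
  unfold dev
  rw [ff_mean h0]

theorem term_le {δ : ℝ} (h0 : 0 ≤ δ) (t : ℝ) {w : ℂ} (hw : ‖w‖ = 1) (n : ℕ) (θ : ℕ → ℝ) :
    |(w * tm δ t n θ).re| ≤ 1 := by
  refine (Complex.abs_re_le_norm _).trans ?_
  rw [norm_mul, hw, one_mul]
  exact tm_norm h0 t n θ

theorem term_meas (δ t : ℝ) (w : ℂ) (n : ℕ) : Measurable (fun θ => (w * tm δ t n θ).re) :=
  Complex.measurable_re.comp ((tm_meas δ t n).const_mul w)

theorem mom {δ : ℝ} (h0 : 0 < δ) (h1 : δ ≤ 1) : ∃ C : ℝ, 0 < C ∧ ∀ q : ℕ, ∀ (Ω : Type) [MeasurableSpace Ω]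
    (P : Measure Ω) [IsProbabilityMeasure P] (X : ℕ → Ω → ℝ), (∀ n, Measurable (X n)) → KInd (2 * q) P X unif →
    ∀ t : ℝ, 2 ≤ t → ∀ w : ℂ, ‖w‖ = 1 → ∫ ω, (dev δ t w (fun n => X n ω)) ^ (2 * q) ∂P ≤
      4 * (2 * q).factorial * (C * Real.log t) ^ q := by
  obtain ⟨C, hC, h⟩ := ff_diff h0 h1
  refine ⟨C, hC, ?_⟩
  intro q Ω _ P _ X hX hind t ht w hw
  have hP : IsProbabilityMeasure (prodLaw unif) := by unfold prodLaw; infer_instance
  obtain ⟨c, hc, hc2, hb⟩ := h t ht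
  have hlog : 0 < Real.log t := Real.log_pos (by linarith)
  have hind' : iIndepFun (fun (n : ℕ) (ω : ℕ → ℝ) => ω n) (prodLaw unif) :=
    iIndepFun_infinitePi (X := fun _ x => x) (fun _ => measurable_id)
  have hlaw' : ∀ n, (prodLaw unif).map (fun ω : ℕ → ℝ => ω n) = unif := fun n =>
    Measure.infinitePi_map_eval (fun _ => unif) n
  have hX' : ∀ n : ℕ, Measurable (fun ω : ℕ → ℝ => ω n) := fun n => measurable_pi_apply n
  have hk' : KInd (2 * q) (prodLaw unif) (fun n ω => ω n) unif :=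
    kind_of_iInd (prodLaw unif) _ _ hX' hind' hlaw'
  have h1 := mcd_moment unif (NN t) (ff δ t w) c (ff_meas δ t w) (ff_dep δ t w) hc (hb w hw)
    (C * Real.log t) (by positivity) hc2 q
  refine le_trans (le_of_eq ?_) h1
  have h2 := transfer_gen P (prodLaw unif) X (fun n ω => ω n) unif hX hX' hind hk' (range (NN t))
    (fun n => {n + 1}) (fun n θ => (w * tm δ t n θ).re) (term_meas δ t w) 1 (fun n θ => term_le h0.le t hw n θ)
    (by
      intro n x y hxy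
      rw [tm_dep δ t n x y (hxy _ (mem_singleton_self _))])
    (by
      intro n _ m hm
      rw [mem_singleton] at hm
      omega)
    (d := 1) (q := 2 * q) (fun n _ => by simp) (by omega) (∑ n ∈ range (NN t), (w * mt δ t n).re)
  have h3 : ∀ θ : ℕ → ℝ, ff δ t w θ - ∫ θ', ff δ t w θ' ∂(prodLaw unif) = dev δ t w θ := fun θ =>
    (dev_eq h0.le t w θ).symm
  simp_rw [h3]
  exact h2

theorem dev_meas (δ t : ℝ) (w : ℂ) : Measurable (dev δ t w) := (ff_meas δ t w).sub_const _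

theorem dev_bdd {δ : ℝ} (h0 : 0 ≤ δ) (t : ℝ) {w : ℂ} (hw : ‖w‖ = 1) (θ : ℕ → ℝ) :
    |dev δ t w θ| ≤ (NN t : ℝ) + |∑ n ∈ range (NN t), (w * mt δ t n).re| := by
  unfold dev
  refine (abs_sub _ _).trans ?_
  gcongr
  unfold ff
  calc _ ≤ ∑ n ∈ range (NN t), |(w * tm δ t n θ).re| := abs_sum_le_sum_abs _ _
    _ ≤ ∑ _n ∈ range (NN t), (1 : ℝ) := sum_le_sum fun n _ => term_le h0 t hw n θ
    _ = _ := by simp

theorem tail {δ : ℝ} (h0 : 0 < δ) (h1 : δ ≤ 1) (q : ℕ) (τ : ℝ) (hτ : 0 < τ) : ∃ C : ℝ, 0 < C ∧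
    ∀ (Ω : Type) [MeasurableSpace Ω] (P : Measure Ω) [IsProbabilityMeasure P] (X : ℕ → Ω → ℝ),
    (∀ n, Measurable (X n)) → KInd (2 * q) P X unif → ∀ t ε : ℝ, 2 ≤ t → ∀ w : ℂ, ‖w‖ = 1 →
    P.real {ω | t ^ ε ≤ |dev δ t w (fun n => X n ω)|} ≤ C * t ^ (q * τ - 2 * q * ε) := by
  obtain ⟨C, hC, h⟩ := mom h0 h1
  refine ⟨4 * (2 * q).factorial * (C * (1 / τ)) ^ q, by positivity, ?_⟩
  intro Ω _ P _ X hX hind t ε ht w hw
  have ht0 : 0 < t := by linarith
  have hm := h q Ω P X hX hind t ht w hw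
  set Y : Ω → ℝ := fun ω => dev δ t w (fun n => X n ω) with hY
  have hYm : Measurable Y := (dev_meas δ t w).comp (measurable_pi_iff.2 hX)
  have hint : Integrable (fun ω => (Y ω) ^ (2 * q)) P := by
    apply Integrable.of_bound (hYm.pow_const (2 * q)).aestronglyMeasurable
      (((NN t : ℝ) + |∑ n ∈ range (NN t), (w * mt δ t n).re|) ^ (2 * q))
    refine Filter.Eventually.of_forall fun ω => ?_
    rw [norm_pow]
    exact pow_le_pow_left₀ (norm_nonneg _) (dev_bdd h0.le t hw _) _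
  have hmark := mul_meas_ge_le_integral_of_nonneg (μ := P) (f := fun ω => (Y ω) ^ (2 * q))
    (Filter.Eventually.of_forall fun ω => (even_two_mul q).pow_nonneg _) hint ((t ^ ε) ^ (2 * q))
  have hsub : P.real {ω | t ^ ε ≤ |Y ω|} ≤ P.real {ω | (t ^ ε) ^ (2 * q) ≤ (Y ω) ^ (2 * q)} := by
    refine measureReal_mono (fun ω hω => ?_) (measure_ne_top _ _)
    simp only [Set.mem_ofPred_eq] at hω ⊢
    rw [← (even_two_mul q).pow_abs (Y ω)]
    exact pow_le_pow_left₀ (by positivity) hω _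
  refine hsub.trans ?_
  have h2 := hmark.trans hm
  have hlog0 : 0 ≤ Real.log t := Real.log_nonneg (by linarith)
  have hlog : Real.log t ≤ (1 / τ) * t ^ τ := by
    have h3 := Real.log_le_rpow_div ht0.le hτ
    have h5 : t ^ τ / τ = 1 / τ * t ^ τ := by ring
    linarith
  have h3 : (C * Real.log t) ^ q ≤ (C * (1 / τ)) ^ q * t ^ (q * τ) := by
    calc (C * Real.log t) ^ q ≤ (C * ((1 / τ) * t ^ τ)) ^ q := by
          apply pow_le_pow_left₀ (by positivity)
          exact mul_le_mul_of_nonneg_left hlog (by positivity)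
      _ = (C * (1 / τ)) ^ q * (t ^ τ) ^ q := by
          rw [← mul_pow]; congr 1; ring
      _ = _ := by
          congr 1
          rw [← Real.rpow_natCast (t ^ τ), ← Real.rpow_mul ht0.le]; congr 1; ring
  have h4 : (t ^ ε) ^ (2 * q) = t ^ (2 * q * ε) := by
    rw [← Real.rpow_natCast, ← Real.rpow_mul ht0.le]; congr 1; push_cast; ring
  rw [h4] at h2 ⊢
  have h5 : 0 < t ^ (2 * (q : ℝ) * ε) := by positivity
  have h6 : t ^ (2 * (q : ℝ) * ε) * P.real {ω | t ^ (2 * (q : ℝ) * ε) ≤ (Y ω) ^ (2 * q)} ≤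
      t ^ (2 * (q : ℝ) * ε) * (4 * (2 * q).factorial * (C * (1 / τ)) ^ q * t ^ (q * τ - 2 * q * ε)) := by
    refine h2.trans ?_
    calc 4 * ((2 * q).factorial : ℝ) * (C * Real.log t) ^ q
        ≤ 4 * ((2 * q).factorial : ℝ) * ((C * (1 / τ)) ^ q * t ^ (q * τ)) := by gcongr
      _ = 4 * ((2 * q).factorial : ℝ) * (C * (1 / τ)) ^ q * (t ^ (2 * (q : ℝ) * ε) * t ^ (q * τ - 2 * q * ε)) := by
          rw [← Real.rpow_add ht0]
          have : 2 * (q : ℝ) * ε + (q * τ - 2 * q * ε) = q * τ := by ring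
          rw [this]; ring
      _ = _ := by ring
  exact le_of_mul_le_mul_left h6 h5

/-- the grid -/
noncomputable def gr (j : ℕ) : ℝ := ((j + 8 : ℕ) : ℝ) ^ (1 / 3 : ℝ)

theorem gr_cube (j : ℕ) : gr j ^ 3 = (j : ℝ) + 8 := by
  unfold gr
  rw [cube_root _ (by positivity)]
  push_cast; ring

theorem gr_ge (j : ℕ) : 2 ≤ gr j := by
  have h1 := gr_cube j
  have h2 : 0 ≤ gr j := by unfold gr; positivity
  by_contra hcon
  push Not at hcon
  have : gr j ^ 3 < 2 ^ 3 := pow_lt_pow_left₀ hcon h2 (by norm_num)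
  rw [h1] at this
  have := Nat.cast_nonneg (α := ℝ) j
  linarith

theorem gr_rpow (j : ℕ) (s : ℝ) : gr j ^ s = ((j + 8 : ℕ) : ℝ) ^ (s / 3) := by
  unfold gr
  rw [← Real.rpow_mul (by positivity)]
  congr 1
  ring

theorem gr_mono {i j : ℕ} (h : i ≤ j) : gr i ≤ gr j := by
  unfold gr
  exact Real.rpow_le_rpow (by positivity) (by exact_mod_cast Nat.add_le_add_right h 8) (by norm_num)

/-- from the grid to all `t` -/
theorem grid_all (θ : ℕ → ℝ) (L : ℝ → ℝ) (hL1 : ∀ t, 2 ≤ t → 1 ≤ L t)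
    (hLm : ∀ t t', 2 ≤ t → t ≤ t' → L t ≤ L t') (C1 : ℝ) (hC1 : 0 ≤ C1)
    (h : ∀ᶠ j : ℕ in atTop, ‖Z θ (pp (gr j))‖ ≤ C1 * L (gr j)) :
    ∃ C T : ℝ, 2 ≤ T ∧ ∀ t : ℝ, T ≤ t → ‖Z θ (pp t)‖ ≤ C * L t := by
  obtain ⟨K, hK, hZL⟩ := t_ZL
  obtain ⟨j0, hj0⟩ := eventually_atTop.1 h
  refine ⟨C1 + K, gr j0, gr_ge j0, fun t ht => ?_⟩
  have ht2 : 2 ≤ t := (gr_ge j0).trans ht
  set i : ℕ := ⌊t ^ 3⌋₊ with hi
  have hi8 : 8 ≤ i := by
    apply Nat.le_floor
    have : (2 : ℝ) ^ 3 ≤ t ^ 3 := pow_le_pow_left₀ (by norm_num) ht2 3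
    push_cast; linarith
  set j : ℕ := i - 8 with hj
  have hij : (i : ℝ) = (j : ℝ) + 8 := by
    have : i = j + 8 := by omega
    rw [this]; push_cast; ring
  have h3 : gr j ^ 3 = i := by rw [gr_cube, hij]
  have hg2 := gr_ge j
  have h4 : gr j ≤ t := by
    have h5 : gr j ^ 3 ≤ t ^ 3 := by rw [h3]; exact Nat.floor_le (by positivity)
    exact le_of_pow_le_pow_left₀ (by norm_num) (by linarith) h5
  have h5 : t ^ 3 < gr j ^ 3 + 1 := by rw [h3]; exact Nat.lt_floor_add_one _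
  have hj0' : j0 ≤ j := by
    have h6 : gr j0 ^ 3 ≤ t ^ 3 := pow_le_pow_left₀ (by linarith [gr_ge j0]) ht 3
    rw [gr_cube] at h6
    have h7 : ((j0 + 8 : ℕ) : ℝ) ≤ t ^ 3 := by push_cast; linarith
    have h8 : j0 + 8 ≤ i := Nat.le_floor h7
    omega
  have h6 : (t - gr j) * gr j ^ 2 ≤ 1 := by
    have h7 : (t - gr j) * (t ^ 2 + t * gr j + gr j ^ 2) ≤ 1 := by nlinarith
    have h8 : gr j ^ 2 ≤ t ^ 2 + t * gr j + gr j ^ 2 := by nlinarith
    exact (mul_le_mul_of_nonneg_left h8 (by linarith)).trans h7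
  have h7 : t ≤ gr j + 1 := by nlinarith
  have h8 := hZL θ (gr j) t (by linarith) h4 h7
  have h9 := hj0 j hj0'
  have h10 : ‖Z θ (pp t)‖ ≤ ‖Z θ (pp (gr j))‖ + ‖Z θ (pp t) - Z θ (pp (gr j))‖ := by
    have := norm_add_le (Z θ (pp (gr j))) (Z θ (pp t) - Z θ (pp (gr j)))
    rwa [add_sub_cancel] at this
  have h11 : K * gr j ^ 2 * (t - gr j) ≤ K := by
    have : K * gr j ^ 2 * (t - gr j) = K * ((t - gr j) * gr j ^ 2) := by ring
    rw [this]
    exact mul_le_of_le_one_right hK.le h6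
  have h12 : C1 * L (gr j) ≤ C1 * L t := mul_le_mul_of_nonneg_left (hLm _ _ hg2 h4) hC1
  have h13 : K ≤ K * L t := le_mul_of_one_le_right hK.le (hL1 t ht2)
  calc _ ≤ _ := h10
    _ ≤ C1 * L t + K * L t := by linarith
    _ = _ := by ring

/-- Lindelöf for `2q`-wise independent perturbations -/
theorem lind_kind {δ : ℝ} (h0 : 0 < δ) (h1 : δ ≤ 1) (q : ℕ) (ε : ℝ) (hε : 0 < ε) (hq : 3 < 2 * q * ε) (Ω : Type)
    [MeasurableSpace Ω] (P : Measure Ω) [IsProbabilityMeasure P] (X : ℕ → Ω → ℝ) (hX : ∀ n, Measurable (X n))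
    (hind : KInd (2 * q) P X unif) :
    ∀ᵐ ω ∂P, ∃ C T : ℝ, 2 ≤ T ∧ ∀ t : ℝ, T ≤ t → ‖Z (sc δ (fun n => X n ω)) (pp t)‖ ≤ C * t ^ ε := by
  have hq0 : (0 : ℝ) < q := by
    by_contra hcon
    have : (q : ℝ) ≤ 0 := not_lt.1 hcon
    nlinarith
  set τ : ℝ := (2 * q * ε - 3) / (2 * q) with hτ
  have hτ0 : 0 < τ := by rw [hτ]; apply div_pos <;> linarith
  obtain ⟨C, hC, hT⟩ := tail h0 h1 q τ hτ0
  obtain ⟨C', hC', hZ⟩ := Z_decomp h0 h1
  set B : ℂ → ℕ → Set Ω := fun w j => {ω | gr j ^ ε ≤ |dev δ (gr j) w (fun n => X n ω)|} with hB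
  have hBj : ∀ w : ℂ, ‖w‖ = 1 → ∀ j : ℕ, P.real (B w j) ≤ C * ((j + 8 : ℕ) : ℝ) ^ ((q * τ - 2 * q * ε) / 3) := by
    intro w hw j
    refine (hT Ω P X hX hind (gr j) ε (gr_ge j) w hw).trans (le_of_eq ?_)
    rw [gr_rpow]
  have hqt : (q : ℝ) * τ = (2 * q * ε - 3) / 2 := by rw [hτ]; field_simp
  have hsum : Summable (fun j : ℕ => C * ((j + 8 : ℕ) : ℝ) ^ ((q * τ - 2 * q * ε) / 3)) := by
    apply Summable.mul_left
    exact (summable_nat_add_iff 8).2 (Real.summable_nat_rpow.2 (by rw [hqt]; linarith))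
  have hne : ∀ w : ℂ, ‖w‖ = 1 → ∑' j, P (B w j) ≠ ⊤ := by
    intro w hw
    refine ne_top_of_le_ne_top hsum.tsum_ofReal_ne_top (ENNReal.tsum_le_tsum fun j => ?_)
    rw [show P (B w j) = ENNReal.ofReal (P.real (B w j)) by rw [ofReal_measureReal]]
    exact ENNReal.ofReal_le_ofReal (hBj w hw j)
  filter_upwards [ae_eventually_notMem (hne 1 (by simp)), ae_eventually_notMem (hne (-Complex.I) (by simp))]
    with ω hω1 hω2
  refine grid_all _ (fun t => t ^ ε) ?_ ?_ (2 + C') (by positivity) ?_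
  · intro t ht
    exact Real.one_le_rpow (by linarith) hε.le
  · intro t t' ht h
    exact Real.rpow_le_rpow (by linarith) h hε.le
  · filter_upwards [hω1, hω2] with j hj1 hj2
    have e1 : |dev δ (gr j) 1 (fun n => X n ω)| < gr j ^ ε := by
      by_contra hcon
      exact hj1 (not_lt.1 hcon)
    have e2 : |dev δ (gr j) (-Complex.I) (fun n => X n ω)| < gr j ^ ε := by
      by_contra hcon
      exact hj2 (not_lt.1 hcon)
    have e3 := hZ (fun n => X n ω) (gr j) (gr_ge j)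
    have e4 := norm_le_ff δ (gr j) (fun n => X n ω)
    have e5 : 1 ≤ gr j ^ ε := Real.one_le_rpow (by linarith [gr_ge j]) hε.le
    have e6 : C' ≤ C' * gr j ^ ε := le_mul_of_one_le_right hC'.le e5
    unfold dev at e1 e2
    calc _ ≤ _ := e3
      _ ≤ 2 * gr j ^ ε + C' * gr j ^ ε := by linarith
      _ = _ := by ring

/-- Lindelöf for independent perturbations -/
theorem lind_iid {δ : ℝ} (h0 : 0 < δ) (h1 : δ ≤ 1) : ∀ᵐ θ ∂(prodLaw unif), ∃ C T : ℝ, 2 ≤ T ∧ ∀ t : ℝ, T ≤ t →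
    ‖Z (sc δ θ) (pp t)‖ ≤ C * (2 * Real.log t) := by
  obtain ⟨C, hC, h⟩ := ff_diff h0 h1
  obtain ⟨C', hC', hZ⟩ := Z_decomp h0 h1
  have hP : IsProbabilityMeasure (prodLaw unif) := by unfold prodLaw; infer_instance
  set K : ℝ := Real.sqrt (8 * C) with hK
  have hK0 : 0 < K := Real.sqrt_pos.2 (by positivity)
  have hK2 : K ^ 2 = 8 * C := Real.sq_sqrt (by positivity)
  set B : ℂ → ℕ → Set (ℕ → ℝ) := fun w j => {θ | K * Real.log (gr j) ≤ |dev δ (gr j) w θ|} with hB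
  have hBj : ∀ w : ℂ, ‖w‖ = 1 → ∀ j : ℕ, (prodLaw unif).real (B w j) ≤ 2 * ((j + 8 : ℕ) : ℝ) ^ (-(4 / 3) : ℝ) := by
    intro w hw j
    set t := gr j with ht
    have ht2 : 2 ≤ t := gr_ge j
    have ht0 : 0 < t := by linarith
    have hlog : 0 < Real.log t := Real.log_pos (by linarith)
    obtain ⟨c, hc, hc2, hb⟩ := h t ht2
    have h1 := mcd_tail unif (NN t) (ff δ t w) c (ff_meas δ t w) (ff_dep δ t w) hc (hb w hw)
      (C * Real.log t) (by positivity) hc2 (K * Real.log t) (by positivity)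
    have h2 : B w j = {θ | K * Real.log t ≤ |ff δ t w θ - ∫ θ', ff δ t w θ' ∂(prodLaw unif)|} := by
      ext θ
      simp only [hB, Set.mem_ofPred_eq, ← ht]
      rw [dev_eq h0.le]
    rw [h2]
    refine h1.trans ?_
    have h2 : (K * Real.log t) ^ 2 / (2 * (C * Real.log t)) = 4 * Real.log t := by
      rw [mul_pow, hK2]
      field_simp
      ring
    rw [h2]
    have h4 : Real.exp (-(4 * Real.log t)) = t ^ (-4 : ℝ) := by
      rw [Real.rpow_def_of_pos ht0]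
      congr 1
      ring
    have h5 : t ^ (-4 : ℝ) = ((j + 8 : ℕ) : ℝ) ^ (-(4 / 3) : ℝ) := by
      rw [ht, gr_rpow]; congr 1; norm_num
    rw [h4, h5]
  have hsum : Summable (fun j : ℕ => 2 * ((j + 8 : ℕ) : ℝ) ^ (-(4 / 3) : ℝ)) := by
    apply Summable.mul_left
    exact (summable_nat_add_iff 8).2 (Real.summable_nat_rpow.2 (by norm_num))
  have hne : ∀ w : ℂ, ‖w‖ = 1 → ∑' j, (prodLaw unif) (B w j) ≠ ⊤ := by
    intro w hw
    refine ne_top_of_le_ne_top hsum.tsum_ofReal_ne_top (ENNReal.tsum_le_tsum fun j => ?_)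
    rw [show (prodLaw unif) (B w j) = ENNReal.ofReal ((prodLaw unif).real (B w j)) by rw [ofReal_measureReal]]
    exact ENNReal.ofReal_le_ofReal (hBj w hw j)
  filter_upwards [ae_eventually_notMem (hne 1 (by simp)), ae_eventually_notMem (hne (-Complex.I) (by simp))]
    with θ hω1 hω2
  have hl2 : ∀ t : ℝ, 2 ≤ t → 1 ≤ 2 * Real.log t := by
    intro t ht
    have h3 := Real.log_le_log (by norm_num) ht
    have := Real.log_two_gt_d9
    linarith
  refine grid_all _ (fun t => 2 * Real.log t) hl2 ?_ (K + C') (by positivity) ?_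
  · intro t t' ht h
    have := Real.log_le_log (by linarith) h
    linarith
  · filter_upwards [hω1, hω2] with j hj1 hj2
    have e1 : |dev δ (gr j) 1 θ| < K * Real.log (gr j) := by
      by_contra hcon
      exact hj1 (not_lt.1 hcon)
    have e2 : |dev δ (gr j) (-Complex.I) θ| < K * Real.log (gr j) := by
      by_contra hcon
      exact hj2 (not_lt.1 hcon)
    have e3 := hZ θ (gr j) (gr_ge j)
    have e4 := norm_le_ff δ (gr j) θ
    have e5 := hl2 (gr j) (gr_ge j)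
    have e6 : C' ≤ C' * (2 * Real.log (gr j)) := le_mul_of_one_le_right hC'.le e5
    unfold dev at e1 e2
    calc _ ≤ _ := e3
      _ ≤ K * (2 * Real.log (gr j)) + C' * (2 * Real.log (gr j)) := by linarith
      _ = _ := by ring

/-- conjugation -/
theorem Z_conj (θ : ℕ → ℝ) (s : ℂ) : Z θ ((starRingEnd ℂ) s) = (starRingEnd ℂ) (Z θ s) := by
  have h1 : ∀ (v : ℝ), 0 ≤ v → (v : ℂ) ^ (-(starRingEnd ℂ) s) = (starRingEnd ℂ) ((v : ℂ) ^ (-s)) := by
    intro v hv
    have h2 : (v : ℂ).arg ≠ Real.pi := by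
      rw [Complex.arg_ofReal_of_nonneg hv]; exact Real.pi_ne_zero.symm
    rw [← map_neg, Complex.cpow_conj _ _ h2, Complex.conj_ofReal]
  have hY : ∀ n, Y θ ((starRingEnd ℂ) s) n = (starRingEnd ℂ) (Y θ s n) := by
    intro n
    unfold Y
    rw [map_sub]
    congr 1
    · apply h1
      unfold yy
      have := (clip_mem (θ (n + 1))).1
      have := Nat.cast_nonneg (α := ℝ) n
      linarith
    · rw [intervalIntegral.integral_of_le (by linarith), intervalIntegral.integral_of_le (by linarith),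
        ← integral_conj]
      refine setIntegral_congr_fun measurableSet_Ioc fun v hv => ?_
      exact h1 v (by linarith [hv.1, Nat.cast_nonneg (α := ℝ) n])
  unfold Z
  rw [map_add, Complex.conj_tsum]
  congr 1
  · simp
  · exact tsum_congr hY

/-- all real `t` -/
theorem all_t (θ : ℕ → ℝ) (L : ℝ → ℝ) {c : ℝ} (hc : 0 < c) (hL0 : ∀ t, 0 ≤ t → c ≤ L t) {C T : ℝ} (hT : 2 ≤ T)
    (h : ∀ t : ℝ, T ≤ t → ‖Z θ (pp t)‖ ≤ C * L t) : ∃ C' : ℝ, ∀ t : ℝ, ‖Z θ (pp t)‖ ≤ C' * L |t| := by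
  have hcont : Continuous (fun t : ℝ => Z θ (pp t)) := by
    have h1 := (t_ZA θ).2.1.continuousOn
    have h2 : Continuous pp := by
      unfold pp
      have : (fun t : ℝ => (⟨1 / 2, t⟩ : ℂ)) = fun t : ℝ => ((1 / 2 : ℝ) : ℂ) + t * Complex.I := by
        ext t
        apply Complex.ext <;> simp
      rw [this]
      fun_prop
    refine h1.comp_continuous h2 fun t => ?_
    constructor
    · norm_num [pp]
    · intro hcon
      have := congrArg Complex.re hcon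
      norm_num [pp] at this
  obtain ⟨M, hM⟩ := (isCompact_Icc (a := (0 : ℝ)) (b := T)).exists_bound_of_continuousOn hcont.continuousOn
  have hpos : ∀ t : ℝ, 0 ≤ t → ‖Z θ (pp t)‖ ≤ (|C| + |M| / c) * L t := by
    intro t ht
    have hL := hL0 t ht
    have hL' : 0 < L t := by linarith
    rcases le_total T t with h1 | h1
    · calc _ ≤ C * L t := h t h1
        _ ≤ (|C| + |M| / c) * L t := by
          apply mul_le_mul_of_nonneg_right _ hL'.le
          have := le_abs_self C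
          have : 0 ≤ |M| / c := by positivity
          linarith
    · have h2 := hM t ⟨ht, h1⟩
      calc _ ≤ M := h2
        _ ≤ |M| := le_abs_self _
        _ = |M| / c * c := by field_simp
        _ ≤ |M| / c * L t := by gcongr
        _ ≤ _ := by
          apply mul_le_mul_of_nonneg_right _ hL'.le
          linarith [abs_nonneg C]
  refine ⟨|C| + |M| / c, fun t => ?_⟩
  rcases le_total 0 t with h1 | h1
  · rw [abs_of_nonneg h1]; exact hpos t h1
  · have h2 := hpos (-t) (by linarith)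
    have h3 : pp t = (starRingEnd ℂ) (pp (-t)) := by
      apply Complex.ext <;> simp [pp]
    rw [h3, Z_conj, RCLike.norm_conj, abs_of_nonpos h1]
    exact h2

end Pool.Agent.U160.LZ
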