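import Pool.Agent.U160.LZ.Main2
import Pool.Agent.U160.LZ.Fin

set_option autoImplicit false

namespace Pool.Agent.U160.LZ.Seq

open MeasureTheory ProbabilityTheory Finset Filter Topology Pool.Agent.U160.GC Pool.Agent.U160.LZ
open Pool.Agent.U160.VP (KInd kind_of_iInd)

/-- the deviation from the mean -/
noncomputable def dev (D : ℕ → ℝ) (t : ℝ) (w : ℂ) (θ : ℕ → ℝ) : ℝ := ff D t w θ - ∑ n ∈ range (NN t), (w * mt D t n).re

theorem dev_eq {D : ℕ → ℝ} (h0 : ∀ n, 0 ≤ D n) (t : ℝ) (w : ℂ) (θ : ℕ → ℝ) :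
    dev D t w θ = ff D t w θ - ∫ θ', ff D t w θ' ∂(prodLaw unif) := by
  unfold dev
  rw [ff_mean h0]

theorem term_le {D : ℕ → ℝ} (h0 : ∀ n, 0 ≤ D n) (t : ℝ) {w : ℂ} (hw : ‖w‖ = 1) (n : ℕ) (θ : ℕ → ℝ) :
    |(w * tm D t n θ).re| ≤ 1 := by
  refine (Complex.abs_re_le_norm _).trans ?_
  rw [norm_mul, hw, one_mul]
  exact tm_norm h0 t n θ

theorem term_meas (D : ℕ → ℝ) (t : ℝ) (w : ℂ) (n : ℕ) : Measurable (fun θ => (w * tm D t n θ).re) :=
  Complex.measurable_re.comp ((tm_meas D t n).const_mul w)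

theorem mom {D : ℕ → ℝ} (h0 : ∀ n, 0 ≤ D n) (h1 : ∀ n, D n ≤ 1) : ∃ C : ℝ, 0 < C ∧ ∀ q : ℕ, ∀ (Ω : Type) [MeasurableSpace Ω]
    (P : Measure Ω) [IsProbabilityMeasure P] (X : ℕ → Ω → ℝ), (∀ n, Measurable (X n)) → KInd (2 * q) P X unif →
    ∀ t : ℝ, 2 ≤ t → ∀ w : ℂ, ‖w‖ = 1 → ∫ ω, (dev D t w (fun n => X n ω)) ^ (2 * q) ∂P ≤
      4 * (2 * q).factorial * (C * Real.log t) ^ q := by
  obtain ⟨C, hC, h⟩ := ff_diff h0 h1
  refine ⟨C, hC, ?_⟩
  intro q Ω _ P _ X hX hind t ht w hw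
  have hP : IsProbabilityMeasure (prodLaw unif) := by unfold prodLaw; infer_instance
  obtain ⟨c, hc, hc2, hb⟩ := h t ht
  have hlog : 0 < Real.log t := Real.log_pos (by linarith)
  have hind' : iIndepFun (fun (n : ℕ) (ω : ℕ → ℝ) => ω n) (prodLaw unif) :=
    iIndepFun_infinitePi (X := fun _ x => x) (fun _ => measurable_id)
  have hlaw' : ∀ n, (prodLaw unif).map (fun ω : ℕ → ℝ => ω n) = unif := fun n =>
    Measure.infinitePi_map_eval (fun _ => unif) n
  have hX' : ∀ n : ℕ, Measurable (fun ω : ℕ → ℝ => ω n) := fun n => measurable_pi_apply n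
  have hk' : KInd (2 * q) (prodLaw unif) (fun n ω => ω n) unif :=
    kind_of_iInd (prodLaw unif) _ _ hX' hind' hlaw'
  have h1 := mcd_moment unif (NN t) (ff D t w) c (ff_meas D t w) (ff_dep D t w) hc (hb w hw)
    (C * Real.log t) (by positivity) hc2 q
  refine le_trans (le_of_eq ?_) h1
  have h2 := transfer_gen P (prodLaw unif) X (fun n ω => ω n) unif hX hX' hind hk' (range (NN t))
    (fun n => {n + 1}) (fun n θ => (w * tm D t n θ).re) (term_meas D t w) 1 (fun n θ => term_le h0 t hw n θ)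
    (by
      intro n x y hxy
      rw [tm_dep D t n x y (hxy _ (mem_singleton_self _))])
    (by
      intro n _ m hm
      rw [mem_singleton] at hm
      omega)
    (d := 1) (q := 2 * q) (fun n _ => by simp) (by omega) (∑ n ∈ range (NN t), (w * mt D t n).re)
  have h3 : ∀ θ : ℕ → ℝ, ff D t w θ - ∫ θ', ff D t w θ' ∂(prodLaw unif) = dev D t w θ := fun θ =>
    (dev_eq h0 t w θ).symm
  simp_rw [h3]
  exact h2

theorem dev_meas (D : ℕ → ℝ) (t : ℝ) (w : ℂ) : Measurable (dev D t w) := (ff_meas D t w).sub_const _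

theorem dev_bdd {D : ℕ → ℝ} (h0 : ∀ n, 0 ≤ D n) (t : ℝ) {w : ℂ} (hw : ‖w‖ = 1) (θ : ℕ → ℝ) :
    |dev D t w θ| ≤ (NN t : ℝ) + |∑ n ∈ range (NN t), (w * mt D t n).re| := by
  unfold dev
  refine (abs_sub _ _).trans ?_
  gcongr
  unfold ff
  calc _ ≤ ∑ n ∈ range (NN t), |(w * tm D t n θ).re| := abs_sum_le_sum_abs _ _
    _ ≤ ∑ _n ∈ range (NN t), (1 : ℝ) := sum_le_sum fun n _ => term_le h0 t hw n θ
    _ = _ := by simp

theorem tail {D : ℕ → ℝ} (h0 : ∀ n, 0 ≤ D n) (h1 : ∀ n, D n ≤ 1) (q : ℕ) (τ : ℝ) (hτ : 0 < τ) : ∃ C : ℝ, 0 < C ∧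
    ∀ (Ω : Type) [MeasurableSpace Ω] (P : Measure Ω) [IsProbabilityMeasure P] (X : ℕ → Ω → ℝ),
    (∀ n, Measurable (X n)) → KInd (2 * q) P X unif → ∀ t ε : ℝ, 2 ≤ t → ∀ w : ℂ, ‖w‖ = 1 →
    P.real {ω | t ^ ε ≤ |dev D t w (fun n => X n ω)|} ≤ C * t ^ (q * τ - 2 * q * ε) := by
  obtain ⟨C, hC, h⟩ := mom h0 h1
  refine ⟨4 * (2 * q).factorial * (C * (1 / τ)) ^ q, by positivity, ?_⟩
  intro Ω _ P _ X hX hind t ε ht w hw
  have ht0 : 0 < t := by linarith
  have hm := h q Ω P X hX hind t ht w hw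
  set Y : Ω → ℝ := fun ω => dev D t w (fun n => X n ω) with hY
  have hYm : Measurable Y := (dev_meas D t w).comp (measurable_pi_iff.2 hX)
  have hint : Integrable (fun ω => (Y ω) ^ (2 * q)) P := by
    apply Integrable.of_bound (hYm.pow_const (2 * q)).aestronglyMeasurable
      (((NN t : ℝ) + |∑ n ∈ range (NN t), (w * mt D t n).re|) ^ (2 * q))
    refine Filter.Eventually.of_forall fun ω => ?_
    rw [norm_pow]
    exact pow_le_pow_left₀ (norm_nonneg _) (dev_bdd h0 t hw _) _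
  have hmark := mul_meas_ge_le_integral_of_nonneg (μ := P) (f := fun ω => (Y ω) ^ (2 * q))
    (Filter.Eventually.of_forall fun ω => (even_two_mul q).pow_nonneg _) hint ((t ^ ε) ^ (2 * q))
  have hsub : P.real {ω | t ^ ε ≤ |Y ω|} ≤ P.real {ω | (t ^ ε) ^ (2 * q) ≤ (Y ω) ^ (2 * q)} := by
    refine measureReal_mono (fun ω hω => ?_) (measure_ne_top _ _)
    simp only [Set.mem_ofPred_eq] at hω ⊢
    rw [← (even_two_mul q).pow_abs (Y ω)]
    exact pow_le_pow_left₀ (by positivity) hω _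
  refine hsub.trans ?_
  have h2 := hmark.trans hm
  have hlog0 : 0 ≤ Real.log t := Real.log_nonneg (by linarith)
  have hlog : Real.log t ≤ (1 / τ) * t ^ τ := by
    have h3 := Real.log_le_rpow_div ht0.le hτ
    have h5 : t ^ τ / τ = 1 / τ * t ^ τ := by ring
    linarith
  have h3 : (C * Real.log t) ^ q ≤ (C * (1 / τ)) ^ q * t ^ (q * τ) := by
    calc (C * Real.log t) ^ q ≤ (C * ((1 / τ) * t ^ τ)) ^ q := by
          apply pow_le_pow_left₀ (by positivity)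
          exact mul_le_mul_of_nonneg_left hlog (by positivity)
      _ = (C * (1 / τ)) ^ q * (t ^ τ) ^ q := by
          rw [← mul_pow]; congr 1; ring
      _ = _ := by
          congr 1
          rw [← Real.rpow_natCast (t ^ τ), ← Real.rpow_mul ht0.le]; congr 1; ring
  have h4 : (t ^ ε) ^ (2 * q) = t ^ (2 * q * ε) := by
    rw [← Real.rpow_natCast, ← Real.rpow_mul ht0.le]; congr 1; push_cast; ring
  rw [h4] at h2 ⊢
  have h5 : 0 < t ^ (2 * (q : ℝ) * ε) := by positivity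
  have h6 : t ^ (2 * (q : ℝ) * ε) * P.real {ω | t ^ (2 * (q : ℝ) * ε) ≤ (Y ω) ^ (2 * q)} ≤
      t ^ (2 * (q : ℝ) * ε) * (4 * (2 * q).factorial * (C * (1 / τ)) ^ q * t ^ (q * τ - 2 * q * ε)) := by
    refine h2.trans ?_
    calc 4 * ((2 * q).factorial : ℝ) * (C * Real.log t) ^ q
        ≤ 4 * ((2 * q).factorial : ℝ) * ((C * (1 / τ)) ^ q * t ^ (q * τ)) := by gcongr
      _ = 4 * ((2 * q).factorial : ℝ) * (C * (1 / τ)) ^ q * (t ^ (2 * (q : ℝ) * ε) * t ^ (q * τ - 2 * q * ε)) := by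
          rw [← Real.rpow_add ht0]
          have : 2 * (q : ℝ) * ε + (q * τ - 2 * q * ε) = q * τ := by ring
          rw [this]; ring
      _ = _ := by ring
  exact le_of_mul_le_mul_left h6 h5

/-- Lindelöf for `2q`-wise independent perturbations -/
theorem lind_kind {D : ℕ → ℝ} (h0 : ∀ n, 0 ≤ D n) (h1 : ∀ n, D n ≤ 1) (κ : ℝ) (hκ : 0 ≤ κ) (CM : ℝ) (hCM : 0 ≤ CM)
    (hM : ∀ t, 2 ≤ t → ‖∑ n ∈ range (NN t), (mt D t n - ∫ v in ((n : ℝ) + 1)..((n : ℝ) + 2), (v : ℂ) ^ (-(pp t)))‖ ≤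
      CM * (t ^ κ * Real.log t)) (q : ℕ) (ε : ℝ) (hε : 0 < ε) (hq : 3 < 2 * q * ε) (Ω : Type)
    [MeasurableSpace Ω] (P : Measure Ω) [IsProbabilityMeasure P] (X : ℕ → Ω → ℝ) (hX : ∀ n, Measurable (X n))
    (hind : KInd (2 * q) P X unif) :
    ∀ᵐ ω ∂P, ∃ C T : ℝ, 2 ≤ T ∧ ∀ t : ℝ, T ≤ t → ‖Z (sc D (fun n => X n ω)) (pp t)‖ ≤ C * t ^ (κ + ε) := by
  have hq0 : (0 : ℝ) < q := by
    by_contra hcon
    have : (q : ℝ) ≤ 0 := not_lt.1 hcon
    nlinarith
  set τ : ℝ := (2 * q * ε - 3) / (2 * q) with hτ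
  have hτ0 : 0 < τ := by rw [hτ]; apply div_pos <;> linarith
  obtain ⟨C, hC, hT⟩ := tail h0 h1 q τ hτ0
  obtain ⟨C', hC', hZ⟩ := Z_decomp h0 h1
  set B : ℂ → ℕ → Set Ω := fun w j => {ω | gr j ^ ε ≤ |dev D (gr j) w (fun n => X n ω)|} with hB
  have hBj : ∀ w : ℂ, ‖w‖ = 1 → ∀ j : ℕ, P.real (B w j) ≤ C * ((j + 8 : ℕ) : ℝ) ^ ((q * τ - 2 * q * ε) / 3) := by
    intro w hw j
    refine (hT Ω P X hX hind (gr j) ε (gr_ge j) w hw).trans (le_of_eq ?_)
    rw [gr_rpow]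
  have hqt : (q : ℝ) * τ = (2 * q * ε - 3) / 2 := by rw [hτ]; field_simp
  have hsum : Summable (fun j : ℕ => C * ((j + 8 : ℕ) : ℝ) ^ ((q * τ - 2 * q * ε) / 3)) := by
    apply Summable.mul_left
    exact (summable_nat_add_iff 8).2 (Real.summable_nat_rpow.2 (by rw [hqt]; linarith))
  have hne : ∀ w : ℂ, ‖w‖ = 1 → ∑' j, P (B w j) ≠ ⊤ := by
    intro w hw
    refine ne_top_of_le_ne_top hsum.tsum_ofReal_ne_top (ENNReal.tsum_le_tsum fun j => ?_)
    rw [show P (B w j) = ENNReal.ofReal (P.real (B w j)) by rw [ofReal_measureReal]]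
    exact ENNReal.ofReal_le_ofReal (hBj w hw j)
  filter_upwards [ae_eventually_notMem (hne 1 (by simp)), ae_eventually_notMem (hne (-Complex.I) (by simp))]
    with ω hω1 hω2
  refine grid_all _ (fun t => t ^ (κ + ε)) ?_ ?_ (2 + C' + CM / ε) (by positivity) ?_
  · intro t ht
    exact Real.one_le_rpow (by linarith) (by linarith)
  · intro t t' ht h
    exact Real.rpow_le_rpow (by linarith) h (by linarith)
  · filter_upwards [hω1, hω2] with j hj1 hj2
    have e1 : |dev D (gr j) 1 (fun n => X n ω)| < gr j ^ ε := by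
      by_contra hcon
      exact hj1 (not_lt.1 hcon)
    have e2 : |dev D (gr j) (-Complex.I) (fun n => X n ω)| < gr j ^ ε := by
      by_contra hcon
      exact hj2 (not_lt.1 hcon)
    have e3 := hZ (fun t => CM * (t ^ κ * Real.log t)) hM (fun n => X n ω) (gr j) (gr_ge j)
    have g2 := gr_ge j
    have g0 : 0 < gr j := by linarith
    have e4 := norm_le_ff D (gr j) (fun n => X n ω)
    have e5 : 1 ≤ gr j ^ ε := Real.one_le_rpow (by linarith [gr_ge j]) hε.le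
    have k1 : gr j ^ ε ≤ gr j ^ (κ + ε) := Real.rpow_le_rpow_of_exponent_le (by linarith) (by linarith)
    have e6 : C' ≤ C' * gr j ^ (κ + ε) := le_mul_of_one_le_right hC'.le (e5.trans k1)
    have k2 : CM * (gr j ^ κ * Real.log (gr j)) ≤ CM / ε * gr j ^ (κ + ε) := by
      have k3 := Real.log_le_rpow_div g0.le hε
      have k4 : 0 ≤ gr j ^ κ := Real.rpow_nonneg g0.le _
      calc CM * (gr j ^ κ * Real.log (gr j)) ≤ CM * (gr j ^ κ * (gr j ^ ε / ε)) := by gcongr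
        _ = _ := by rw [Real.rpow_add g0]; ring
    unfold dev at e1 e2
    calc _ ≤ _ := e3
      _ ≤ 2 * gr j ^ (κ + ε) + C' * gr j ^ (κ + ε) + CM / ε * gr j ^ (κ + ε) := by linarith
      _ = _ := by ring

/-- Lindelöf for independent perturbations -/
theorem lind_iid {D : ℕ → ℝ} (h0 : ∀ n, 0 ≤ D n) (h1 : ∀ n, D n ≤ 1) (κ : ℝ) (hκ : 0 ≤ κ) (CM : ℝ) (hCM : 0 ≤ CM)
    (hM : ∀ t, 2 ≤ t → ‖∑ n ∈ range (NN t), (mt D t n - ∫ v in ((n : ℝ) + 1)..((n : ℝ) + 2), (v : ℂ) ^ (-(pp t)))‖ ≤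
      CM * (t ^ κ * Real.log t)) : ∀ᵐ θ ∂(prodLaw unif), ∃ C T : ℝ, 2 ≤ T ∧ ∀ t : ℝ, T ≤ t →
    ‖Z (sc D θ) (pp t)‖ ≤ C * (t ^ κ * (2 * Real.log t)) := by
  obtain ⟨C, hC, h⟩ := ff_diff h0 h1
  obtain ⟨C', hC', hZ⟩ := Z_decomp h0 h1
  have hP : IsProbabilityMeasure (prodLaw unif) := by unfold prodLaw; infer_instance
  set K : ℝ := Real.sqrt (8 * C) with hK
  have hK0 : 0 < K := Real.sqrt_pos.2 (by positivity)
  have hK2 : K ^ 2 = 8 * C := Real.sq_sqrt (by positivity)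
  set B : ℂ → ℕ → Set (ℕ → ℝ) := fun w j => {θ | K * Real.log (gr j) ≤ |dev D (gr j) w θ|} with hB
  have hBj : ∀ w : ℂ, ‖w‖ = 1 → ∀ j : ℕ, (prodLaw unif).real (B w j) ≤ 2 * ((j + 8 : ℕ) : ℝ) ^ (-(4 / 3) : ℝ) := by
    intro w hw j
    set t := gr j with ht
    have ht2 : 2 ≤ t := gr_ge j
    have ht0 : 0 < t := by linarith
    have hlog : 0 < Real.log t := Real.log_pos (by linarith)
    obtain ⟨c, hc, hc2, hb⟩ := h t ht2
    have h1 := mcd_tail unif (NN t) (ff D t w) c (ff_meas D t w) (ff_dep D t w) hc (hb w hw)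
      (C * Real.log t) (by positivity) hc2 (K * Real.log t) (by positivity)
    have h2 : B w j = {θ | K * Real.log t ≤ |ff D t w θ - ∫ θ', ff D t w θ' ∂(prodLaw unif)|} := by
      ext θ
      simp only [hB, Set.mem_ofPred_eq, ← ht]
      rw [dev_eq h0]
    rw [h2]
    refine h1.trans ?_
    have h2 : (K * Real.log t) ^ 2 / (2 * (C * Real.log t)) = 4 * Real.log t := by
      rw [mul_pow, hK2]
      field_simp
      ring
    rw [h2]
    have h4 : Real.exp (-(4 * Real.log t)) = t ^ (-4 : ℝ) := by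
      rw [Real.rpow_def_of_pos ht0]
      congr 1
      ring
    have h5 : t ^ (-4 : ℝ) = ((j + 8 : ℕ) : ℝ) ^ (-(4 / 3) : ℝ) := by
      rw [ht, gr_rpow]; congr 1; norm_num
    rw [h4, h5]
  have hsum : Summable (fun j : ℕ => 2 * ((j + 8 : ℕ) : ℝ) ^ (-(4 / 3) : ℝ)) := by
    apply Summable.mul_left
    exact (summable_nat_add_iff 8).2 (Real.summable_nat_rpow.2 (by norm_num))
  have hne : ∀ w : ℂ, ‖w‖ = 1 → ∑' j, (prodLaw unif) (B w j) ≠ ⊤ := by
    intro w hw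
    refine ne_top_of_le_ne_top hsum.tsum_ofReal_ne_top (ENNReal.tsum_le_tsum fun j => ?_)
    rw [show (prodLaw unif) (B w j) = ENNReal.ofReal ((prodLaw unif).real (B w j)) by rw [ofReal_measureReal]]
    exact ENNReal.ofReal_le_ofReal (hBj w hw j)
  filter_upwards [ae_eventually_notMem (hne 1 (by simp)), ae_eventually_notMem (hne (-Complex.I) (by simp))]
    with θ hω1 hω2
  have hl2 : ∀ t : ℝ, 2 ≤ t → 1 ≤ 2 * Real.log t := by
    intro t ht
    have h3 := Real.log_le_log (by norm_num) ht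
    have := Real.log_two_gt_d9
    linarith
  refine grid_all _ (fun t => t ^ κ * (2 * Real.log t)) ?_ ?_ (K + C' + CM) (by positivity) ?_
  · intro t ht
    exact one_le_mul_of_one_le_of_one_le (Real.one_le_rpow (by linarith) hκ) (hl2 t ht)
  · intro t t' ht h
    have := Real.log_le_log (by linarith) h
    have k1 : t ^ κ ≤ t' ^ κ := Real.rpow_le_rpow (by linarith) h hκ
    have k2 := hl2 t ht
    exact mul_le_mul k1 (by linarith) (by linarith) (Real.rpow_nonneg (by linarith) _)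
  · filter_upwards [hω1, hω2] with j hj1 hj2
    have e1 : |dev D (gr j) 1 θ| < K * Real.log (gr j) := by
      by_contra hcon
      exact hj1 (not_lt.1 hcon)
    have e2 : |dev D (gr j) (-Complex.I) θ| < K * Real.log (gr j) := by
      by_contra hcon
      exact hj2 (not_lt.1 hcon)
    have e3 := hZ (fun t => CM * (t ^ κ * Real.log t)) hM θ (gr j) (gr_ge j)
    have g2 := gr_ge j
    have e4 := norm_le_ff D (gr j) θ
    have e5 := hl2 (gr j) (gr_ge j)
    have k0 : 1 ≤ gr j ^ κ := Real.one_le_rpow (by linarith) hκ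
    have k1 : 2 * Real.log (gr j) ≤ gr j ^ κ * (2 * Real.log (gr j)) := le_mul_of_one_le_left (by linarith) k0
    have e6 : C' ≤ C' * (gr j ^ κ * (2 * Real.log (gr j))) := le_mul_of_one_le_right hC'.le (e5.trans k1)
    have e7 : K * (2 * Real.log (gr j)) ≤ K * (gr j ^ κ * (2 * Real.log (gr j))) :=
      mul_le_mul_of_nonneg_left k1 hK0.le
    have e8 : CM * (gr j ^ κ * Real.log (gr j)) ≤ CM * (gr j ^ κ * (2 * Real.log (gr j))) := by
      apply mul_le_mul_of_nonneg_left _ hCM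
      apply mul_le_mul_of_nonneg_left _ (by linarith)
      linarith
    unfold dev at e1 e2
    calc _ ≤ _ := e3
      _ ≤ K * (gr j ^ κ * (2 * Real.log (gr j))) + C' * (gr j ^ κ * (2 * Real.log (gr j))) +
          CM * (gr j ^ κ * (2 * Real.log (gr j))) := by linarith
      _ = _ := by ring

end Pool.Agent.U160.LZ.Seq
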