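import Pool.Agent.U160.LZ.MB2

set_option autoImplicit false

namespace Pool.Agent.U160.LZ

open MeasureTheory ProbabilityTheory Finset Pool.Agent.U160.GC

namespace MB2

/-- one block -/
theorem blk3 (δ η t d : ℝ) (hδ : 0 < δ) (hη : 0 ≤ η) (ht : 2 ≤ t) (hd0 : 0 < d) (hd1 : d ≤ 1) (x y : ℕ)
    (hlow : δ * ((x : ℝ) + 1) ^ (-η) ≤ d) (hδ1 : δ ≤ 1) (hxy : x ≤ y) (hy : y ≤ 2 * x + 1) (hyt : (y : ℝ) ≤ 2 * t ^ 2) :
    ‖∑ n ∈ Ico x y, ∫ u in (0 : ℝ)..1, (((n : ℝ) + 1 + d * u : ℝ) : ℂ) ^ (-(pp t))‖ ≤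
      48000 / δ * t ^ (η / (2 * (1 + η))) := by
  have ht0 : 0 < t := by linarith
  set κ : ℝ := η / (2 * (1 + η)) with hκ
  have hκ0 : 0 ≤ κ := by positivity
  have hκ1 : (1 + η) * κ = η / 2 := by rw [hκ]; field_simp
  obtain ⟨X, hX⟩ : ∃ X : ℝ, X = (x : ℝ) + 1 := ⟨_, rfl⟩
  have hX1 : 1 ≤ X := by rw [hX]; linarith [Nat.cast_nonneg (α := ℝ) x]
  have hX0 : 0 < X := by linarith
  rw [← hX] at hlow
  have hXη0 : 0 < X ^ (-η) := Real.rpow_pos_of_pos hX0 _
  have htκ : 1 ≤ t ^ κ := Real.one_le_rpow (by linarith) hκ0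
  have hδi : 1 ≤ 1 / δ := by rw [le_div_iff₀ hδ]; linarith
  have hbig : ∀ B : ℝ, 0 ≤ B → B ≤ 48000 * t ^ κ → B ≤ 48000 / δ * t ^ κ := by
    intro B hB0 hB
    calc B ≤ 1 * (48000 * t ^ κ) := by linarith
      _ ≤ 1 / δ * (48000 * t ^ κ) := mul_le_mul_of_nonneg_right hδi (by positivity)
      _ = _ := by ring
  rcases Nat.eq_zero_or_pos x with hx0 | hx1
  · -- the first block
    subst hx0
    apply (avg d t hd0.le hd1 0 y 1 ?_).trans (hbig 1 (by norm_num) (by linarith))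
    intro a ha0 ha1
    refine (norm_sum_le _ _).trans ?_
    have hterm : ∀ n ∈ Ico 0 y, ‖(((n : ℝ) + 1 + a : ℝ) : ℂ) ^ (-(pp t))‖ ≤ 1 := by
      intro n _
      rw [Complex.norm_cpow_eq_rpow_re_of_pos (by positivity)]
      apply Real.rpow_le_one_of_one_le_of_nonpos
      · linarith [Nat.cast_nonneg (α := ℝ) n]
      · simp [pp]
    refine (sum_le_sum hterm).trans ?_
    simp only [sum_const, Nat.card_Ico, nsmul_eq_mul, mul_one]
    have : y ≤ 1 := by omega
    exact_mod_cast (by omega : y - 0 ≤ 1)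
  have hyX : (y : ℝ) ≤ 2 * X := by
    have : (y : ℝ) ≤ 2 * (x : ℝ) + 1 := by exact_mod_cast hy
    rw [hX]; linarith
  have hst : 0 < √t := Real.sqrt_pos.2 ht0
  have hsX : 0 < √X := Real.sqrt_pos.2 hX0
  have hst' : √t = t ^ (1 / 2 : ℝ) := Real.sqrt_eq_rpow t
  have hsX' : √X = X ^ (1 / 2 : ℝ) := Real.sqrt_eq_rpow X
  rcases le_or_gt t (2 * X) with hB | hC
  · rcases le_or_gt (t - 1) (x : ℝ) with h1 | h1
    · exact (avg d t hd0.le hd1 x y 6000 fun a h0 h1' => far a t h0 h1' ht x y h1 hxy hyt).trans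
        (hbig 6000 (by norm_num) (by linarith))
    · refine (avg d t hd0.le hd1 x y _ fun a h0 h1' => direct a t h0 h1' x y hx1 (by linarith) hy).trans
        (hbig _ (by positivity) ?_)
      rw [← hX]
      have h2 : √t / √X ≤ 2 := by
        rw [div_le_iff₀ hsX]
        rw [Real.sqrt_le_left (by positivity), mul_pow, Real.sq_sqrt hX0.le]
        linarith
      linarith
  · rcases le_or_gt (X ^ (1 + η)) t with h1 | h1
    · have h2 := anti d t hd0 hd1 ht x y hxy (by linarith)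
      refine h2.trans ?_
      have h3 : √(y : ℝ) ≤ 2 * √X := by
        rw [Real.sqrt_le_left (by positivity), mul_pow, Real.sq_sqrt hX0.le]
        linarith
      have h4 : X ^ η * √X ≤ t ^ κ * √t := by
        rw [hst', hsX', ← Real.rpow_add hX0, ← Real.rpow_add ht0]
        have h5 : (X ^ (1 + η)) ^ (κ + 1 / 2) ≤ t ^ (κ + 1 / 2) :=
          Real.rpow_le_rpow (by positivity) h1 (by positivity)
        rw [← Real.rpow_mul hX0.le] at h5
        have h6 : (1 + η) * (κ + 1 / 2) = η + 1 / 2 := by rw [mul_add, hκ1]; ring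
        rwa [h6] at h5
      have h7 : d⁻¹ ≤ 1 / δ * X ^ η := by
        have h9 : d⁻¹ ≤ (δ * X ^ (-η))⁻¹ := inv_anti₀ (by positivity) hlow
        rw [mul_inv, Real.rpow_neg hX0.le, inv_inv] at h9
        rw [one_div]
        exact h9
      have h8 : X ^ η * (√X / √t) ≤ t ^ κ := by
        rw [← mul_div_assoc, div_le_iff₀ hst]
        exact h4
      calc d⁻¹ * (24000 * (√(y : ℝ) / √t)) ≤ 1 / δ * X ^ η * (24000 * ((2 * √X) / √t)) := by gcongr
        _ = 48000 / δ * (X ^ η * (√X / √t)) := by ring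
        _ ≤ _ := by gcongr
    · refine (avg d t hd0.le hd1 x y _ fun a h0 h1' => direct a t h0 h1' x y hx1 (by linarith) hy).trans
        (hbig _ (by positivity) ?_)
      rw [← hX]
      have h2 : √t / √X ≤ t ^ κ := by
        rw [div_le_iff₀ hsX, hst', hsX']
        have h5 : t ^ (1 / 2 - κ) ≤ (X ^ (1 + η)) ^ (1 / 2 - κ) := by
          apply Real.rpow_le_rpow ht0.le h1.le
          have : κ ≤ 1 / 2 := by
            rw [hκ, div_le_iff₀ (by positivity)]; linarith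
          linarith
        rw [← Real.rpow_mul hX0.le] at h5
        have h6 : (1 + η) * (1 / 2 - κ) = 1 / 2 := by rw [mul_sub, hκ1]; ring
        rw [h6] at h5
        calc t ^ (1 / 2 : ℝ) = t ^ κ * t ^ (1 / 2 - κ) := by rw [← Real.rpow_add ht0]; congr 1; ring
          _ ≤ _ := by gcongr
      linarith

end MB2

open MB2 in
theorem t_MB3 (D : ℕ → ℝ) (hD : ∀ n, 0 < D n ∧ D n ≤ 1) (hDc : ∀ n, 1 ≤ n → D n = D (2 ^ Nat.log 2 n))
    (δ η : ℝ) (hδ : 0 < δ) (hη : 0 ≤ η) (hlow : ∀ n : ℕ, 1 ≤ n → δ * (n : ℝ) ^ (-η) ≤ D n) : ∃ C : ℝ, 0 < C ∧ ∀ (t : ℝ) (N : ℕ), 2 ≤ t →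
    (N : ℝ) ≤ t ^ 2 + 1 →
    ‖∑ n ∈ range N, ((∫ u in (0 : ℝ)..1, (((n : ℝ) + 1 + D (n + 1) * u : ℝ) : ℂ) ^ (-(pp t))) -
      ∫ v in ((n : ℝ) + 1)..((n : ℝ) + 2), (v : ℂ) ^ (-(pp t)))‖ ≤ C * (t ^ (η / (2 * (1 + η))) * Real.log t) := by
  have hδ1 : δ ≤ 1 := by
    have := hlow 1 le_rfl
    rw [Nat.cast_one, Real.one_rpow, mul_one] at this
    exact this.trans (hD 1).2
  refine ⟨48000 / δ * 6 + 5, by positivity, ?_⟩
  intro t N ht hN2
  have ht0 : 0 < t := by linarith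
  have hlog2 : 0.69 < Real.log 2 := by have := Real.log_two_gt_d9; linarith
  have hlogt : Real.log 2 ≤ Real.log t := Real.log_le_log (by norm_num) ht
  have htκ : 1 ≤ t ^ (η / (2 * (1 + η))) := Real.one_le_rpow (by linarith) (by positivity)
  set K : ℕ := Nat.log 2 N + 1 with hK
  set b : ℕ → ℕ := fun k => min N (2 ^ k - 1) with hb
  have hbm : ∀ k, b k ≤ b (k + 1) := by
    intro k
    have : 2 ^ k ≤ 2 ^ (k + 1) := Nat.pow_le_pow_right (by norm_num) (by omega)
    simp only [hb]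
    omega
  have hb0 : b 0 = 0 := by simp [hb]
  have hbK : b K = N := by
    have : N < 2 ^ (Nat.log 2 N + 1) := Nat.lt_pow_succ_log_self (by norm_num) N
    simp only [hb, hK]
    omega
  have hKlog : (K : ℝ) ≤ 6 * Real.log t := by
    rcases Nat.eq_zero_or_pos N with h0 | h0
    · rw [hK, h0]; norm_num; linarith
    · have h1 : 2 ^ Nat.log 2 N ≤ N := Nat.pow_log_le_self 2 (by omega)
      have h2 : (2 : ℝ) ^ Nat.log 2 N ≤ t ^ 3 := by
        have : ((2 ^ Nat.log 2 N : ℕ) : ℝ) ≤ (N : ℝ) := by exact_mod_cast h1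
        push_cast at this
        nlinarith
      have h3 := Real.log_le_log (by positivity) h2
      rw [Real.log_pow, Real.log_pow] at h3
      push_cast at h3
      rw [hK]
      push_cast
      nlinarith
  have hmean : ‖∑ n ∈ range N, ∫ u in (0 : ℝ)..1, (((n : ℝ) + 1 + D (n + 1) * u : ℝ) : ℂ) ^ (-(pp t))‖ ≤
      K * (48000 / δ * t ^ (η / (2 * (1 + η)))) := by
    have e := telescope (fun n => ∫ u in (0 : ℝ)..1, (((n : ℝ) + 1 + D (n + 1) * u : ℝ) : ℂ) ^ (-(pp t))) b hbm hb0 K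
    rw [hbK] at e
    rw [e]
    refine (norm_sum_le _ _).trans ?_
    have hone : ∀ k ∈ range K, ‖∑ n ∈ Ico (b k) (b (k + 1)),
        ∫ u in (0 : ℝ)..1, (((n : ℝ) + 1 + D (n + 1) * u : ℝ) : ℂ) ^ (-(pp t))‖ ≤
        48000 / δ * t ^ (η / (2 * (1 + η))) := by
      intro k _
      rcases le_or_gt N (2 ^ k - 1) with h1 | h1
      · have h2 : b k = N := by simp only [hb]; omega
        have h3 : b (k + 1) ≤ N := by simp only [hb]; omega
        rw [Ico_eq_empty_of_le (by omega)]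
        simp only [sum_empty, norm_zero]
        positivity
      · have h2 : b k = 2 ^ k - 1 := by simp only [hb]; omega
        have hp : 1 ≤ 2 ^ k := Nat.one_le_two_pow
        have hp2 : 2 ^ (k + 1) = 2 * 2 ^ k := by rw [pow_succ]; ring
        have h3 : b (k + 1) ≤ 2 * b k + 1 := by
          rw [h2]; simp only [hb]; omega
        have h4 : b (k + 1) ≤ N := by simp only [hb]; omega
        have h5 : ((b (k + 1) : ℕ) : ℝ) ≤ 2 * t ^ 2 := by
          have : ((b (k + 1) : ℕ) : ℝ) ≤ N := by exact_mod_cast h4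
          nlinarith
        have hbk : b k + 1 = 2 ^ k := by rw [h2]; omega
        have hl := hlow (2 ^ k) hp
        have hcast : (((2 ^ k : ℕ) : ℝ)) = ((b k : ℕ) : ℝ) + 1 := by rw [← hbk]; push_cast; ring
        rw [hcast] at hl
        have h6 := blk3 δ η t (D (2 ^ k)) hδ hη ht (hD _).1 (hD _).2 (b k) (b (k + 1)) hl hδ1 (hbm k) h3 h5
        refine le_trans (le_of_eq ?_) h6
        congr 1
        refine sum_congr rfl fun n hn => ?_
        have h7 : Nat.log 2 (n + 1) = k := by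
          rw [mem_Ico, h2] at hn
          have h8 : b (k + 1) ≤ 2 ^ (k + 1) - 1 := by simp only [hb]; omega
          apply Nat.log_eq_of_pow_le_of_lt_pow
          · omega
          · omega
        rw [hDc (n + 1) (by omega), h7]
    refine (sum_le_sum hone).trans (le_of_eq ?_)
    simp
  have hints := ints t N ht hN2
  rw [sum_sub_distrib]
  refine (norm_sub_le _ _).trans ?_
  have h9 : K * (48000 / δ * t ^ (η / (2 * (1 + η)))) ≤
      48000 / δ * 6 * (t ^ (η / (2 * (1 + η))) * Real.log t) := by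
    calc (K : ℝ) * (48000 / δ * t ^ (η / (2 * (1 + η)))) ≤ (6 * Real.log t) * (48000 / δ * t ^ (η / (2 * (1 + η)))) :=
          mul_le_mul_of_nonneg_right hKlog (by positivity)
      _ = _ := by ring
  have h10 : 3 ≤ 5 * (t ^ (η / (2 * (1 + η))) * Real.log t) := by nlinarith
  calc _ ≤ _ := add_le_add (hmean.trans h9) (hints.trans h10)
    _ = _ := by ring

end Pool.Agent.U160.LZ
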