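import Pool.Agent.U160.LZ.Ident

set_option autoImplicit false

namespace Pool.Agent.U160.LZ.Stab

open MeasureTheory Finset Filter Topology Pool.Agent.U160.GC Pool.Agent.U160.LZ

theorem der (t : ℝ) {x : ℝ} (hx : 0 < x) :
    HasDerivAt (fun y : ℝ => (y : ℂ) ^ (-(pp t))) (-(pp t) * (x : ℂ) ^ (-(pp t) - 1) * 1) x := by
  have h : HasDerivAt (fun y : ℂ => y ^ (-(pp t))) (-(pp t) * (x : ℂ) ^ (-(pp t) - 1) * 1) (x : ℂ) :=
    (hasDerivAt_id (x : ℂ)).cpow_const (Complex.ofReal_mem_slitPlane.2 hx)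
  exact h.comp_ofReal

theorem pp_norm (t : ℝ) : ‖pp t‖ ≤ 1 + |t| := by
  have h := Complex.norm_le_abs_re_add_abs_im (pp t)
  have h1 : |(pp t).re| = 1 / 2 := by
    have : (pp t).re = 1 / 2 := rfl
    rw [this]; norm_num
  have h2 : |(pp t).im| = |t| := rfl
  linarith

theorem diff_le (t u v : ℝ) (hu : 1 ≤ u) (huv : u ≤ v) :
    ‖(v : ℂ) ^ (-(pp t)) - (u : ℂ) ^ (-(pp t))‖ ≤ (1 + |t|) * u ^ (-(3 / 2) : ℝ) * (v - u) := by
  have hder : ∀ x ∈ Set.Icc u v, HasDerivWithinAt (fun y : ℝ => (y : ℂ) ^ (-(pp t)))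
      (-(pp t) * (x : ℂ) ^ (-(pp t) - 1) * 1) (Set.Icc u v) x := fun x hx =>
    (der t (by linarith [hx.1])).hasDerivWithinAt
  have hb : ∀ x ∈ Set.Icc u v, ‖-(pp t) * (x : ℂ) ^ (-(pp t) - 1) * 1‖ ≤ (1 + |t|) * u ^ (-(3 / 2) : ℝ) := by
    intro x hx
    have hx0 : 0 < x := by linarith [hx.1]
    rw [mul_one, norm_mul, norm_neg, Complex.norm_cpow_eq_rpow_re_of_pos hx0]
    have e : (-(pp t) - 1).re = -(3 / 2) := by simp [pp]; norm_num
    rw [e]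
    apply mul_le_mul (pp_norm t) _ (by positivity) (by positivity)
    exact Real.rpow_le_rpow_of_nonpos (by linarith) hx.1 (by norm_num)
  have h := Convex.norm_image_sub_le_of_norm_hasDerivWithin_le hder hb (convex_Icc u v)
    (Set.left_mem_Icc.2 huv) (Set.right_mem_Icc.2 huv)
  rwa [Real.norm_of_nonneg (by linarith)] at h

theorem triv_le (t u v : ℝ) (hu : 1 ≤ u) (huv : u ≤ v) :
    ‖(v : ℂ) ^ (-(pp t)) - (u : ℂ) ^ (-(pp t))‖ ≤ 2 * u ^ (-(1 / 2) : ℝ) := by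
  have e : (-(pp t)).re = -(1 / 2) := by simp [pp]
  have h1 : ‖(v : ℂ) ^ (-(pp t))‖ ≤ u ^ (-(1 / 2) : ℝ) := by
    rw [Complex.norm_cpow_eq_rpow_re_of_pos (by linarith), e]
    exact Real.rpow_le_rpow_of_nonpos (by linarith) huv (by norm_num)
  have h2 : ‖(u : ℂ) ^ (-(pp t))‖ = u ^ (-(1 / 2) : ℝ) := by
    rw [Complex.norm_cpow_eq_rpow_re_of_pos (by linarith), e]
  refine (norm_sub_le _ _).trans ?_
  linarith

/-- the distance from the Riemann zeta function -/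
theorem stab (η : ℝ) (hη : 0 ≤ η) (lam : ℝ) (hl : 1 / (2 * (1 + η)) < lam) (hl1 : lam ≤ 1) :
    ∃ C : ℝ, ∀ θ : ℕ → ℝ, (∀ n, 1 ≤ n → 0 ≤ θ n ∧ θ n ≤ (n : ℝ) ^ (-η)) → ∀ t : ℝ,
      ‖Z θ (pp t) - Z 0 (pp t)‖ ≤ C * (1 + |t|) ^ lam := by
  have hl0 : 0 < lam := lt_trans (by positivity) hl
  set p : ℝ := 1 / 2 + lam * (1 + η) with hp
  have hp1 : 1 < p := by
    rw [div_lt_iff₀ (by positivity)] at hl
    rw [hp]; nlinarith
  have hsum : Summable (fun n : ℕ => ((n : ℝ) + 1) ^ (-p)) := by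
    have h := (summable_nat_add_iff 1).2 (Real.summable_nat_rpow.2 (show -p < -1 by linarith))
    refine h.congr fun n => ?_
    push_cast; rfl
  refine ⟨2 * ∑' n : ℕ, ((n : ℝ) + 1) ^ (-p), fun θ hθ t => ?_⟩
  have hs1 : Summable (Y θ (pp t)) := (t_ZA θ).1 (pp t) (by norm_num [pp])
  have hs0 : Summable (Y 0 (pp t)) := (t_ZA 0).1 (pp t) (by norm_num [pp])
  have e1 : Z θ (pp t) - Z 0 (pp t) = ∑' n : ℕ, (Y θ (pp t) n - Y 0 (pp t) n) := by
    rw [hs1.tsum_sub hs0]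
    unfold Z
    ring
  rw [e1]
  have hterm : ∀ n : ℕ, ‖Y θ (pp t) n - Y 0 (pp t) n‖ ≤ (2 * (1 + |t|) ^ lam) * ((n : ℝ) + 1) ^ (-p) := by
    intro n
    obtain ⟨u, hu⟩ : ∃ u : ℝ, u = (n : ℝ) + 1 := ⟨_, rfl⟩
    have hu1 : 1 ≤ u := by rw [hu]; linarith [Nat.cast_nonneg (α := ℝ) n]
    have hu0 : 0 < u := by linarith
    have h1 := hθ (n + 1) (by omega)
    have h1' : θ (n + 1) ≤ u ^ (-η) := by
      have := h1.2
      rw [hu]
      push_cast at this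
      exact this
    have hle1 : u ^ (-η) ≤ 1 := Real.rpow_le_one_of_one_le_of_nonpos hu1 (by linarith)
    have hyy : yy θ n = u + θ (n + 1) := by
      unfold yy
      rw [clip_id h1.1 (h1'.trans hle1), hu]
    have hyy0 : yy 0 n = u := by
      unfold yy
      rw [show clip ((0 : ℕ → ℝ) (n + 1)) = 0 by simp [clip], hu, add_zero]
    have e2 : Y θ (pp t) n - Y 0 (pp t) n = ((u + θ (n + 1) : ℝ) : ℂ) ^ (-(pp t)) - (u : ℂ) ^ (-(pp t)) := by
      unfold Y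
      rw [hyy, hyy0]
      ring
    rw [e2, ← hu]
    set A : ℝ := ‖((u + θ (n + 1) : ℝ) : ℂ) ^ (-(pp t)) - (u : ℂ) ^ (-(pp t))‖ with hA
    have hA0 : 0 ≤ A := norm_nonneg _
    have ht0 : 0 < 1 + |t| := by positivity
    have a1 : A ≤ 2 * u ^ (-(1 / 2) : ℝ) := triv_le t u _ hu1 (by linarith [h1.1])
    have a2 : A ≤ (1 + |t|) * u ^ (-(3 / 2) - η) := by
      have h3 := diff_le t u (u + θ (n + 1)) hu1 (by linarith [h1.1])
      rw [add_sub_cancel_left] at h3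
      calc A ≤ (1 + |t|) * u ^ (-(3 / 2) : ℝ) * θ (n + 1) := h3
        _ ≤ (1 + |t|) * u ^ (-(3 / 2) : ℝ) * u ^ (-η) := mul_le_mul_of_nonneg_left h1' (by positivity)
        _ = _ := by rw [mul_assoc, ← Real.rpow_add hu0, ← sub_eq_add_neg]
    have h4 : A = A ^ (1 - lam) * A ^ lam := by
      rw [← Real.rpow_add_of_nonneg hA0 (by linarith) hl0.le, sub_add_cancel, Real.rpow_one]
    rw [h4]
    have b1 : A ^ (1 - lam) ≤ 2 * u ^ (-(1 / 2) * (1 - lam)) := by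
      calc A ^ (1 - lam) ≤ (2 * u ^ (-(1 / 2) : ℝ)) ^ (1 - lam) := Real.rpow_le_rpow hA0 a1 (by linarith)
        _ = 2 ^ (1 - lam) * u ^ (-(1 / 2) * (1 - lam)) := by
          rw [Real.mul_rpow (by norm_num) (by positivity), ← Real.rpow_mul hu0.le]
        _ ≤ 2 * u ^ (-(1 / 2) * (1 - lam)) := by
          apply mul_le_mul_of_nonneg_right _ (by positivity)
          calc (2 : ℝ) ^ (1 - lam) ≤ 2 ^ (1 : ℝ) := Real.rpow_le_rpow_of_exponent_le (by norm_num) (by linarith)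
            _ = 2 := Real.rpow_one 2
    have b2 : A ^ lam ≤ (1 + |t|) ^ lam * u ^ ((-(3 / 2) - η) * lam) := by
      calc A ^ lam ≤ ((1 + |t|) * u ^ (-(3 / 2) - η)) ^ lam := Real.rpow_le_rpow hA0 a2 hl0.le
        _ = _ := by rw [Real.mul_rpow ht0.le (by positivity), ← Real.rpow_mul hu0.le]
    calc A ^ (1 - lam) * A ^ lam ≤ (2 * u ^ (-(1 / 2) * (1 - lam))) * ((1 + |t|) ^ lam * u ^ ((-(3 / 2) - η) * lam)) :=
          mul_le_mul b1 b2 (by positivity) (by positivity)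
      _ = 2 * (1 + |t|) ^ lam * (u ^ (-(1 / 2) * (1 - lam)) * u ^ ((-(3 / 2) - η) * lam)) := by ring
      _ = 2 * (1 + |t|) ^ lam * u ^ (-p) := by
          rw [← Real.rpow_add hu0]
          congr 2
          rw [hp]; ring
  refine (tsum_of_norm_bounded (hsum.hasSum.mul_left (2 * (1 + |t|) ^ lam)) hterm).trans (le_of_eq ?_)
  ring

end Pool.Agent.U160.LZ.Stab
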