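import Pool.Agent.U160.LZ.Fin

set_option autoImplicit false

namespace Pool.Agent.U160.LZ

open MeasureTheory Finset Filter Topology Pool.Agent.U160.GC

theorem half_preconn : IsPreconnected {s : ℂ | 0 < s.re ∧ s ≠ 1} := by
  have h1 : {s : ℂ | 0 < s.re ∧ s ≠ 1} = (fun z : ℂ => (1 + Complex.exp z) / (1 - Complex.exp z)) '' {z : ℂ | z.re < 0} := by
    ext s
    simp only [Set.mem_ofPred_eq, Set.mem_image]
    constructor
    · rintro ⟨h0, h1⟩
      have hs1 : s + 1 ≠ 0 := by
        intro h
        have := congrArg Complex.re h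
        simp at this
        linarith
      have hw : (s - 1) / (s + 1) ≠ 0 := div_ne_zero (sub_ne_zero.2 h1) hs1
      refine ⟨Complex.log ((s - 1) / (s + 1)), ?_, ?_⟩
      · rw [Complex.log_re]
        apply Real.log_neg (norm_pos_iff.2 hw)
        rw [norm_div, div_lt_one (norm_pos_iff.2 hs1)]
        have h2 : Complex.normSq (s - 1) < Complex.normSq (s + 1) := by
          simp only [Complex.normSq_apply, Complex.sub_re, Complex.sub_im, Complex.add_re, Complex.add_im,
            Complex.one_re, Complex.one_im]
          nlinarith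
        rw [Complex.normSq_eq_norm_sq, Complex.normSq_eq_norm_sq] at h2
        exact lt_of_pow_lt_pow_left₀ 2 (norm_nonneg _) h2
      · rw [Complex.exp_log hw]
        have h3 : 1 - (s - 1) / (s + 1) = 2 / (s + 1) := by field_simp; ring
        have h4 : 1 + (s - 1) / (s + 1) = 2 * s / (s + 1) := by field_simp; ring
        rw [h3, h4]
        field_simp
    · rintro ⟨z, hz, rfl⟩
      have he : ‖Complex.exp z‖ < 1 := by
        rw [Complex.norm_exp, ← Real.exp_zero]; exact Real.exp_lt_exp.2 hz
      have hne : (1 : ℂ) - Complex.exp z ≠ 0 := by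
        intro h
        have : Complex.exp z = 1 := (sub_eq_zero.1 h).symm
        rw [this] at he
        simp at he
      constructor
      · have h2 : ((1 + Complex.exp z) / (1 - Complex.exp z)).re =
            (1 - ‖Complex.exp z‖ ^ 2) / Complex.normSq (1 - Complex.exp z) := by
          rw [Complex.div_re, ← Complex.normSq_eq_norm_sq (Complex.exp z), ← add_div]
          congr 1
          simp only [Complex.normSq_apply, Complex.sub_re, Complex.sub_im, Complex.add_re, Complex.add_im,
            Complex.one_re, Complex.one_im]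
          ring
        rw [h2]
        apply div_pos _ (Complex.normSq_pos.2 hne)
        nlinarith [norm_nonneg (Complex.exp z)]
      · intro h
        rw [div_eq_one_iff_eq hne] at h
        have h2 : 2 * Complex.exp z = 0 := by linear_combination h
        simp at h2
  rw [h1]
  apply IsPreconnected.image
  · exact (convex_halfSpace_re_lt 0).isPreconnected
  · apply ContinuousOn.div
    · fun_prop
    · fun_prop
    · intro z hz
      have he : ‖Complex.exp z‖ < 1 := by
        rw [Complex.norm_exp, ← Real.exp_zero]; exact Real.exp_lt_exp.2 hz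
      intro h
      have : Complex.exp z = 1 := (sub_eq_zero.1 h).symm
      rw [this] at he
      simp at he

/-- the case `θ = 0` -/
theorem Z_zero (s : ℂ) (h0 : 0 < s.re) (h1 : s ≠ 1) : Z 0 s = riemannZeta s := by
  have hopen : IsOpen {s : ℂ | 0 < s.re ∧ s ≠ 1} :=
    (isOpen_lt continuous_const Complex.continuous_re).inter isOpen_ne
  have ha : AnalyticOnNhd ℂ riemannZeta {s : ℂ | 0 < s.re ∧ s ≠ 1} := by
    apply DifferentiableOn.analyticOnNhd _ hopen
    intro z hz
    exact (differentiableAt_riemannZeta hz.2).differentiableWithinAt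
  have h2 : (2 : ℂ) ∈ {s : ℂ | 0 < s.re ∧ s ≠ 1} := by
    constructor <;> norm_num
  have hEq : Z 0 =ᶠ[𝓝 2] riemannZeta := by
    have h3 : {s : ℂ | 1 < s.re} ∈ 𝓝 (2 : ℂ) :=
      (isOpen_lt continuous_const Complex.continuous_re).mem_nhds (by norm_num)
    filter_upwards [h3] with z hz
    rw [((t_ZA 0).2.2 z hz).2, zeta_eq_tsum_one_div_nat_add_one_cpow hz]
    refine tsum_congr fun n => ?_
    have h4 : (yy 0 n : ℂ) = (n : ℂ) + 1 := by
      unfold yy
      rw [show clip ((0 : ℕ → ℝ) (n + 1)) = 0 by simp [clip]]
      push_cast; ring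
    rw [h4, Complex.cpow_neg, one_div]
  exact (t_ZA 0).2.1.eqOn_of_preconnected_of_eventuallyEq ha half_preconn h2 hEq ⟨h0, h1⟩

end Pool.Agent.U160.LZ
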