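import Pool.Agent.U160.LZ.Stm
import Pool.Agent.H469R2.NK.KL

/-!
Project LZ, package VD: exponential sums (Kusmin-Landau and the second derivative test for `t log u`).
-/

set_option autoImplicit false

namespace Pool.Agent.U160.LZ

namespace VD

open Finset
open Pool.Agent.H469R2.NK (e norm_e e_add e_nat conj_e norm_sum_neg kusmin_landau_anti kusmin_landau_mono)

theorem e_add_nat (x : ℝ) (n : ℕ) : e (x + n) = e x := by
  rw [e_add, e_nat, mul_one]

/-- Kusmin-Landau on the set of indices with increment in `[n + D, n + 1 - D]` -/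
theorem kl_set (x : ℕ → ℝ) (hmono : ∀ i j, i ≤ j → x (i + 1) - x i ≤ x (j + 1) - x j)
    (n : ℕ) (D : ℝ) (hD : 0 < D) (N : ℕ) (J : Finset ℕ)
    (hJ : ∀ j, j ∈ J ↔ j < N ∧ (n : ℝ) + D ≤ x (j + 1) - x j ∧ x (j + 1) - x j ≤ n + 1 - D) :
    ‖∑ j ∈ J, e (x j)‖ ≤ 2 / D := by
  rcases J.eq_empty_or_nonempty with h0 | hne
  · subst h0
    simp only [sum_empty, norm_zero]
    positivity
  · set a := J.min' hne with ha
    set b := J.max' hne with hb
    have haJ : a ∈ J := J.min'_mem hne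
    have hbJ : b ∈ J := J.max'_mem hne
    have hab : a ≤ b := J.min'_le _ hbJ
    have hIco : J = Ico a (b + 1) := by
      ext j
      rw [Finset.mem_Ico]
      constructor
      · intro hj
        exact ⟨J.min'_le _ hj, Nat.lt_succ_of_le (J.le_max' _ hj)⟩
      · rintro ⟨h1, h2⟩
        have h2' : j ≤ b := by omega
        have h3 := (hJ a).1 haJ
        have h4 := (hJ b).1 hbJ
        rw [hJ]
        refine ⟨by omega, ?_, ?_⟩
        · exact h3.2.1.trans (hmono a j h1)
        · exact (hmono j b h2').trans h4.2.2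
    rw [hIco, Finset.sum_Ico_eq_sum_range]
    have hmem : ∀ t, t < b + 1 - a → (n : ℝ) + D ≤ x (a + t + 1) - x (a + t) ∧
        x (a + t + 1) - x (a + t) ≤ n + 1 - D := by
      intro t ht
      have : a + t ∈ J := by
        rw [hIco, Finset.mem_Ico]
        omega
      exact ((hJ _).1 this).2
    have hkl := kusmin_landau_mono
      (fun t => x (a + t) - (n : ℝ) * t) (b + 1 - a) hD
      (by
        intro t ht
        have := (hmem t ht).1
        have e1 : a + (t + 1) = a + t + 1 := by ring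
        simp only [e1]
        push_cast
        linarith)
      (by
        intro t ht
        have := (hmem t ht).2
        have e1 : a + (t + 1) = a + t + 1 := by ring
        simp only [e1]
        push_cast
        linarith)
      (by
        intro t ht
        have := hmono (a + t) (a + (t + 1)) (by omega)
        have e1 : a + (t + 1) = a + t + 1 := by ring
        have e2 : a + (t + 2) = a + t + 1 + 1 := by ring
        simp only [e1] at this
        simp only [e1, e2]
        push_cast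
        linarith)
    have heq : ∑ k ∈ range (b + 1 - a), e (x (a + k)) =
        ∑ k ∈ range (b + 1 - a), e (x (a + k) - (n : ℝ) * k) := by
      refine Finset.sum_congr rfl (fun k _ => ?_)
      rw [← e_add_nat (x (a + k) - (n : ℝ) * k) (n * k)]
      congr 1
      push_cast
      ring
    rw [heq]
    exact hkl

/-- counting lemma -/
theorem cnt (φ : ℕ → ℝ) (S : Finset ℕ) (c D δ : ℝ) (hD : 0 ≤ D) (hδ : 0 < δ)
    (hS : ∀ i ∈ S, |φ i - c| < D)
    (hinc : ∀ i ∈ S, ∀ j ∈ S, i ≤ j → δ * ((j : ℝ) - i) ≤ φ j - φ i) :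
    (S.card : ℝ) ≤ 1 + 2 * D / δ := by
  rcases S.eq_empty_or_nonempty with h0 | hne
  · subst h0
    simp only [card_empty, Nat.cast_zero]
    positivity
  · set a := S.min' hne with ha
    set b := S.max' hne with hb
    have haJ : a ∈ S := S.min'_mem hne
    have hbJ : b ∈ S := S.max'_mem hne
    have hab : a ≤ b := S.min'_le _ hbJ
    have hsub : S ⊆ Icc a b := by
      intro j hj
      rw [Finset.mem_Icc]
      exact ⟨S.min'_le _ hj, S.le_max' _ hj⟩
    have hcard := Finset.card_le_card hsub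
    rw [Nat.card_Icc] at hcard
    have h1 := hinc a haJ b hbJ hab
    have h2 := hS a haJ
    have h3 := hS b hbJ
    rw [abs_lt] at h2 h3
    have h4 : δ * ((b : ℝ) - a) ≤ 2 * D := by linarith [h2.1, h2.2, h3.1, h3.2]
    have h5 : (b : ℝ) - a ≤ 2 * D / δ := by
      rw [le_div_iff₀ hδ]
      linarith
    have h6 : (S.card : ℝ) ≤ (b : ℝ) - a + 1 := by
      have h7 : S.card + a ≤ b + 1 := by omega
      have h8 : (S.card : ℝ) + a ≤ b + 1 := by exact_mod_cast h7
      linarith
    linarith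

theorem log_step (y : ℝ) (hy : 0 < y) : 1 / (y + 1) ≤ Real.log (y + 1) - Real.log y ∧
    Real.log (y + 1) - Real.log y ≤ 1 / y := by
  have h1 : Real.log (y + 1) - Real.log y = Real.log ((y + 1) / y) := by
    rw [Real.log_div (by positivity) (by positivity)]
  constructor
  · rw [h1]
    have h2 := Real.one_sub_inv_le_log_of_pos (show 0 < (y + 1) / y by positivity)
    refine le_trans (le_of_eq ?_) h2
    field_simp
    ring
  · rw [h1]
    have h2 := Real.log_le_sub_one_of_pos (show 0 < (y + 1) / y by positivity)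
    refine le_trans h2 (le_of_eq ?_)
    field_simp
    ring

theorem log_step2 (y : ℝ) (hy : 0 < y) :
    1 / (y + 1) ^ 2 ≤ (Real.log (y + 1) - Real.log y) - (Real.log (y + 1 + 1) - Real.log (y + 1)) := by
  have h1 : (Real.log (y + 1) - Real.log y) - (Real.log (y + 1 + 1) - Real.log (y + 1)) =
      Real.log ((y + 1) ^ 2 / (y * (y + 1 + 1))) := by
    rw [Real.log_div (by positivity) (by positivity), Real.log_mul (by positivity) (by positivity),
      Real.log_pow]
    push_cast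
    ring
  rw [h1]
  have h2 := Real.one_sub_inv_le_log_of_pos (show 0 < (y + 1) ^ 2 / (y * (y + 1 + 1)) by positivity)
  refine le_trans (le_of_eq ?_) h2
  field_simp
  ring

/-- the phase factor -/
noncomputable def ph (t u : ℝ) : ℂ := e (-(t / (2 * Real.pi) * Real.log u))

theorem norm_ph (t u : ℝ) : ‖ph t u‖ = 1 := norm_e _

theorem cpow_eq (u σ t : ℝ) (hu : 0 < u) : ((u : ℝ) : ℂ) ^ (⟨σ, -t⟩ : ℂ) = ((u ^ σ : ℝ) : ℂ) * ph t u := by
  rw [Complex.cpow_def_of_ne_zero (by exact_mod_cast hu.ne'), ← Complex.ofReal_log hu.le,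
    Real.rpow_def_of_pos hu, Complex.ofReal_exp]
  unfold ph e
  rw [← Complex.exp_add]
  congr 1
  have hpi := Real.pi_pos.ne'
  have h1 : 2 * Real.pi * -(t / (2 * Real.pi) * Real.log u) = -(t * Real.log u) := by
    field_simp
  rw [h1]
  apply Complex.ext
  · simp
  · simp
    ring

theorem block (a t : ℝ) (ha0 : 0 ≤ a) (ha1 : a ≤ 1) (N L : ℕ) (hN : 1 ≤ N) (hNt : (N : ℝ) ≤ t)
    (hL : L ≤ N + 1) : ‖∑ j ∈ range L, ph t ((N : ℝ) + j + 1 + a)‖ ≤ 400 * √t := by
  classical
  have hpi := Real.pi_pos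
  have hpi3 := Real.pi_gt_three
  have hpi4 := Real.pi_lt_d2
  have hN' : (1 : ℝ) ≤ N := by exact_mod_cast hN
  have hN0 : (0 : ℝ) < N := by linarith
  have ht1 : 1 ≤ t := hN'.trans hNt
  have ht0 : 0 < t := by linarith
  obtain ⟨s, hs⟩ : ∃ s : ℝ, s = √t := ⟨_, rfl⟩
  have hs0 : 0 < s := by rw [hs]; exact Real.sqrt_pos.2 ht0
  have hs2 : s ^ 2 = t := by rw [hs]; exact Real.sq_sqrt ht0.le
  have hs1 : 1 ≤ s := by
    rw [hs]
    exact Real.one_le_sqrt.2 ht1
  rw [← hs]
  rcases le_total (N : ℝ) s with hcase | hcase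
  · calc ‖∑ j ∈ range L, ph t ((N : ℝ) + j + 1 + a)‖ ≤ ∑ j ∈ range L, ‖ph t ((N : ℝ) + j + 1 + a)‖ :=
          norm_sum_le _ _
      _ = L := by simp [norm_ph]
      _ ≤ N + 1 := by exact_mod_cast hL
      _ ≤ 400 * s := by linarith
  · obtain ⟨K, hK⟩ : ∃ K : ℕ, K = ⌈t / N⌉₊ := ⟨_, rfl⟩
    have hK1 : t / N ≤ K := by rw [hK]; exact Nat.le_ceil _
    have hK2 : (K : ℝ) < t / N + 1 := by rw [hK]; exact Nat.ceil_lt_add_one (by positivity)
    have htN : 1 ≤ t / N := by rw [le_div_iff₀ hN0]; linarith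
    let u : ℕ → ℝ := fun j => (N : ℝ) + j + 1 + a
    have hu : ∀ j, (N : ℝ) + 1 ≤ u j := by
      intro j
      have : (0 : ℝ) ≤ j := Nat.cast_nonneg j
      show (N : ℝ) + 1 ≤ (N : ℝ) + j + 1 + a
      linarith
    have hu0 : ∀ j, 0 < u j := fun j => by have := hu j; linarith
    have husucc : ∀ j, u (j + 1) = u j + 1 := by
      intro j
      show (N : ℝ) + ((j + 1 : ℕ) : ℝ) + 1 + a = (N : ℝ) + j + 1 + a + 1
      push_cast
      ring
    let x : ℕ → ℝ := fun j => (K : ℝ) * j - t / (2 * Real.pi) * Real.log (u j)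
    let φ : ℕ → ℝ := fun j => x (j + 1) - x j
    obtain ⟨τ, hτ⟩ : ∃ τ : ℝ, τ = t / (2 * Real.pi) := ⟨_, rfl⟩
    have hτ0 : 0 < τ := by rw [hτ]; positivity
    have hφ : ∀ j, φ j = K - τ * (Real.log (u j + 1) - Real.log (u j)) := by
      intro j
      show ((K : ℝ) * ((j + 1 : ℕ) : ℝ) - t / (2 * Real.pi) * Real.log (u (j + 1))) -
        ((K : ℝ) * j - t / (2 * Real.pi) * Real.log (u j)) = _
      rw [husucc, hτ]
      push_cast
      ring
    have hφ0 : ∀ j, 0 ≤ φ j := by
      intro j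
      rw [hφ]
      have h1 := (log_step (u j) (hu0 j)).2
      have h2 : τ * (Real.log (u j + 1) - Real.log (u j)) ≤ τ * (1 / u j) :=
        mul_le_mul_of_nonneg_left h1 hτ0.le
      have h3 : τ * (1 / u j) ≤ t * (1 / N) := by
        apply mul_le_mul
        · rw [hτ]
          apply div_le_self ht0.le
          linarith
        · apply one_div_le_one_div_of_le hN0
          have := hu j
          linarith
        · have := hu0 j
          positivity
        · exact ht0.le
      have h4 : t * (1 / N) = t / N := by ring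
      linarith
    have hφK : ∀ j, φ j ≤ K := by
      intro j
      rw [hφ]
      have h1 := (log_step (u j) (hu0 j)).1
      have h2 : 0 < 1 / (u j + 1) := by have := hu0 j; positivity
      have h3 : 0 ≤ τ * (Real.log (u j + 1) - Real.log (u j)) := mul_nonneg hτ0.le (by linarith)
      linarith
    have hstep : ∀ j, τ * (1 / (u j + 1) ^ 2) ≤ φ (j + 1) - φ j := by
      intro j
      rw [hφ, hφ, husucc]
      have h1 := mul_le_mul_of_nonneg_left (log_step2 (u j) (hu0 j)) hτ0.le
      linarith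
    have hφmono : ∀ i j, i ≤ j → φ i ≤ φ j := by
      intro i j hij
      apply monotone_nat_of_le_succ _ hij
      intro n
      have h1 := hstep n
      have h2 : 0 ≤ τ * (1 / (u n + 1) ^ 2) := by positivity
      linarith
    obtain ⟨D, hD⟩ : ∃ D : ℝ, D = s / (4 * N) := ⟨_, rfl⟩
    have hD0 : 0 < D := by rw [hD]; positivity
    have hD4 : D ≤ 1 / 4 := by
      rw [hD, div_le_div_iff₀ (by positivity) (by norm_num)]
      linarith
    obtain ⟨δ, hδ⟩ : ∃ δ : ℝ, δ = τ * (1 / (5 * N) ^ 2) := ⟨_, rfl⟩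
    have hδ0 : 0 < δ := by rw [hδ]; positivity
    have hinc : ∀ k i : ℕ, i + k < L → δ * k ≤ φ (i + k) - φ i := by
      intro k
      induction k with
      | zero => intro i _; simp
      | succ k ih =>
        intro i hi
        have h1 := ih i (by omega)
        have h2 := hstep (i + k)
        have h3 : δ ≤ τ * (1 / (u (i + k) + 1) ^ 2) := by
          rw [hδ]
          apply mul_le_mul_of_nonneg_left _ hτ0.le
          have h4 : u (i + k) + 1 ≤ 5 * N := by
            show (N : ℝ) + ((i + k : ℕ) : ℝ) + 1 + a + 1 ≤ 5 * N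
            have h5 : i + k + 1 ≤ N := by omega
            have h6 : ((i + k : ℕ) : ℝ) + 1 ≤ N := by exact_mod_cast h5
            linarith
          have h5 := hu0 (i + k)
          apply one_div_le_one_div_of_le (by positivity)
          exact pow_le_pow_left₀ (by linarith) h4 2
        have h7 : i + (k + 1) = i + k + 1 := by ring
        rw [h7]
        push_cast
        linarith
    have hinc' : ∀ i j : ℕ, i ≤ j → j < L → δ * ((j : ℝ) - i) ≤ φ j - φ i := by
      intro i j hij hj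
      obtain ⟨k, rfl⟩ := Nat.exists_eq_add_of_le hij
      have := hinc k i hj
      push_cast
      have e1 : δ * ((i : ℝ) + k - i) = δ * k := by ring
      rw [e1]
      exact this
    -- change of the phases
    have hsum : ∑ j ∈ range L, ph t ((N : ℝ) + j + 1 + a) = ∑ j ∈ range L, e (x j) := by
      apply Finset.sum_congr rfl
      intro j _
      unfold ph
      rw [← e_add_nat _ (K * j)]
      congr 1
      show _ = (K : ℝ) * j - t / (2 * Real.pi) * Real.log ((N : ℝ) + j + 1 + a)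
      push_cast
      ring
    rw [hsum]
    let fl : ℕ → ℕ := fun j => ⌊φ j⌋₊
    have hfl1 : ∀ j, (fl j : ℝ) ≤ φ j := fun j => Nat.floor_le (hφ0 j)
    have hfl2 : ∀ j, φ j < fl j + 1 := fun j => Nat.lt_floor_add_one _
    have hflK : ∀ j, fl j ≤ K := by
      intro j
      have h1 := (hfl1 j).trans (hφK j)
      exact_mod_cast h1
    have hsplit := Finset.sum_filter_add_sum_filter_not (range L)
      (fun j => (fl j : ℝ) + D ≤ φ j ∧ φ j ≤ fl j + 1 - D) (fun j => e (x j))
    rw [← hsplit]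
    have hgood : ‖∑ j ∈ (range L).filter (fun j => (fl j : ℝ) + D ≤ φ j ∧ φ j ≤ fl j + 1 - D),
        e (x j)‖ ≤ (K + 1) * (2 / D) := by
      rw [← Finset.sum_fiberwise_of_maps_to (s := (range L).filter
        (fun j => (fl j : ℝ) + D ≤ φ j ∧ φ j ≤ fl j + 1 - D)) (t := range (K + 1)) (g := fl)
        (fun j _ => by rw [Finset.mem_range]; have := hflK j; omega)]
      refine (norm_sum_le _ _).trans ?_
      have h1 : ∀ n ∈ range (K + 1), ‖∑ j ∈ ((range L).filter
          (fun j => (fl j : ℝ) + D ≤ φ j ∧ φ j ≤ fl j + 1 - D)).filter (fun j => fl j = n),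
          e (x j)‖ ≤ 2 / D := by
        intro n _
        apply kl_set x (fun i j hij => hφmono i j hij) n D hD0 L
        intro j
        rw [Finset.mem_filter, Finset.mem_filter, Finset.mem_range]
        constructor
        · rintro ⟨⟨h1, h2, h3⟩, h4⟩
          rw [h4] at h2 h3
          exact ⟨h1, h2, h3⟩
        · rintro ⟨h1, h2, h3⟩
          have h2' : (n : ℝ) + D ≤ φ j := h2
          have h3' : φ j ≤ (n : ℝ) + 1 - D := h3
          have h4 : fl j = n := by
            show ⌊φ j⌋₊ = n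
            rw [Nat.floor_eq_iff (hφ0 j)]
            constructor <;> linarith
          refine ⟨⟨h1, ?_, ?_⟩, h4⟩
          · rw [h4]; exact h2'
          · rw [h4]; exact h3'
      refine (Finset.sum_le_sum h1).trans (le_of_eq ?_)
      rw [Finset.sum_const, Finset.card_range, nsmul_eq_mul]
      push_cast
      ring
    have hbad : ‖∑ j ∈ (range L).filter (fun j => ¬ ((fl j : ℝ) + D ≤ φ j ∧ φ j ≤ fl j + 1 - D)),
        e (x j)‖ ≤ (K + 2) * (1 + 2 * D / δ) := by
      refine (norm_sum_le _ _).trans ?_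
      have h1 : ∑ j ∈ (range L).filter (fun j => ¬ ((fl j : ℝ) + D ≤ φ j ∧ φ j ≤ fl j + 1 - D)),
          ‖e (x j)‖ = (((range L).filter
            (fun j => ¬ ((fl j : ℝ) + D ≤ φ j ∧ φ j ≤ fl j + 1 - D))).card : ℝ) := by
        simp [norm_e]
      rw [h1]
      have hsub : (range L).filter (fun j => ¬ ((fl j : ℝ) + D ≤ φ j ∧ φ j ≤ fl j + 1 - D)) ⊆
          (range (K + 2)).biUnion (fun n => (range L).filter (fun j => |φ j - n| < D)) := by
        intro j hj
        rw [Finset.mem_filter, Finset.mem_range] at hj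
        obtain ⟨hj1, hj2⟩ := hj
        rw [Finset.mem_biUnion]
        have g1 := hfl1 j
        have g2 := hfl2 j
        have g3 := hflK j
        by_cases h2 : (fl j : ℝ) + D ≤ φ j
        · have h3 : (fl j : ℝ) + 1 - D < φ j := by
            by_contra hcon
            exact hj2 ⟨h2, not_lt.1 hcon⟩
          refine ⟨fl j + 1, by rw [Finset.mem_range]; omega, ?_⟩
          rw [Finset.mem_filter, Finset.mem_range]
          refine ⟨hj1, ?_⟩
          push_cast
          rw [abs_lt]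
          constructor <;> linarith
        · refine ⟨fl j, by rw [Finset.mem_range]; omega, ?_⟩
          rw [Finset.mem_filter, Finset.mem_range]
          refine ⟨hj1, ?_⟩
          rw [abs_lt]
          constructor <;> linarith
      have h2 := (Finset.card_le_card hsub).trans Finset.card_biUnion_le
      have h3 : (((range L).filter
            (fun j => ¬ ((fl j : ℝ) + D ≤ φ j ∧ φ j ≤ fl j + 1 - D))).card : ℝ) ≤
          ∑ n ∈ range (K + 2), (((range L).filter (fun j => |φ j - n| < D)).card : ℝ) := by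
        exact_mod_cast h2
      refine h3.trans ?_
      have h4 : ∀ n ∈ range (K + 2), (((range L).filter (fun j => |φ j - n| < D)).card : ℝ) ≤
          1 + 2 * D / δ := by
        intro n _
        apply cnt φ _ n D δ hD0.le hδ0
        · intro i hi
          exact (Finset.mem_filter.1 hi).2
        · intro i _ j hj hij
          exact hinc' i j hij (Finset.mem_range.1 (Finset.mem_filter.1 hj).1)
      refine (Finset.sum_le_sum h4).trans (le_of_eq ?_)
      rw [Finset.sum_const, Finset.card_range, nsmul_eq_mul]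
      push_cast
      ring
    refine (norm_add_le _ _).trans ((add_le_add hgood hbad).trans ?_)
    have hK4 : (K : ℝ) + 2 ≤ 4 * (t / N) := by linarith
    have e1 : 2 / D = 8 * N / s := by
      rw [hD]
      field_simp
      ring
    have e2 : 2 * D / δ = 25 * Real.pi * N / s := by
      rw [hD, hδ, hτ, ← hs2]
      field_simp
      ring
    have hA0 : 0 ≤ 8 * (N : ℝ) / s := by positivity
    have hB0 : 0 ≤ 1 + 25 * Real.pi * N / s := by positivity
    rw [e1, e2]
    calc ((K : ℝ) + 1) * (8 * N / s) + (K + 2) * (1 + 25 * Real.pi * N / s)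
        ≤ (4 * (t / N)) * (8 * N / s) + (4 * (t / N)) * (1 + 25 * Real.pi * N / s) := by
          apply add_le_add
          · exact mul_le_mul_of_nonneg_right (by linarith) hA0
          · exact mul_le_mul_of_nonneg_right hK4 hB0
      _ = 32 * s + 4 * s * (s / N) + 100 * Real.pi * s := by
          rw [← hs2]
          field_simp
          ring
      _ ≤ 32 * s + 4 * s * 1 + 100 * 3.15 * s := by
          have h1 : s / N ≤ 1 := by rw [div_le_one hN0]; exact hcase
          have h2 : 4 * s * (s / N) ≤ 4 * s * 1 := mul_le_mul_of_nonneg_left h1 (by positivity)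
          have h3 : 100 * Real.pi * s ≤ 100 * 3.15 * s :=
            mul_le_mul_of_nonneg_right (by linarith) hs0.le
          linarith
      _ ≤ 400 * s := by linarith

theorem abel_eq (w : ℕ → ℝ) (f : ℕ → ℂ) (N : ℕ) :
    ∑ n ∈ range N, ((w n : ℝ) : ℂ) * f n = ((w N : ℝ) : ℂ) * ∑ k ∈ range N, f k +
      ∑ n ∈ range N, ((w n - w (n + 1) : ℝ) : ℂ) * ∑ k ∈ range (n + 1), f k := by
  induction N with
  | zero => simp
  | succ N ih =>
    rw [sum_range_succ, ih, sum_range_succ (fun n => ((w n - w (n + 1) : ℝ) : ℂ) * _),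
      sum_range_succ f N]
    push_cast
    ring

theorem abel_inc (w : ℕ → ℝ) (f : ℕ → ℂ) (N : ℕ) (B : ℝ) (hw : ∀ n, w n ≤ w (n + 1)) (hw0 : 0 ≤ w 0)
    (hB : ∀ m ≤ N, ‖∑ k ∈ range m, f k‖ ≤ B) :
    ‖∑ n ∈ range N, ((w n : ℝ) : ℂ) * f n‖ ≤ 2 * w N * B := by
  have hB0 : 0 ≤ B := (norm_nonneg _).trans (hB 0 (Nat.zero_le _))
  have hwN : 0 ≤ w N := by
    have h1 : Monotone w := monotone_nat_of_le_succ hw
    exact hw0.trans (h1 (Nat.zero_le N))
  rw [abel_eq]
  refine (norm_add_le _ _).trans ?_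
  have h1 : ‖((w N : ℝ) : ℂ) * ∑ k ∈ range N, f k‖ ≤ w N * B := by
    rw [norm_mul, Complex.norm_real, Real.norm_eq_abs, abs_of_nonneg hwN]
    exact mul_le_mul_of_nonneg_left (hB N le_rfl) hwN
  have h2 : ‖∑ n ∈ range N, ((w n - w (n + 1) : ℝ) : ℂ) * ∑ k ∈ range (n + 1), f k‖ ≤
      ∑ n ∈ range N, (w (n + 1) - w n) * B := by
    refine (norm_sum_le _ _).trans (Finset.sum_le_sum fun n hn => ?_)
    have h3 := hw n
    rw [norm_mul, Complex.norm_real, Real.norm_eq_abs, abs_of_nonpos (by linarith), neg_sub]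
    exact mul_le_mul_of_nonneg_left (hB (n + 1) (by rw [Finset.mem_range] at hn; omega)) (by linarith)
  rw [← Finset.sum_mul, Finset.sum_range_sub] at h2
  have h3 : 0 ≤ w 0 * B := mul_nonneg hw0 hB0
  linarith

theorem abel_dec (w : ℕ → ℝ) (f : ℕ → ℂ) (N : ℕ) (B : ℕ → ℝ) (hw : ∀ n, w (n + 1) ≤ w n)
    (hw0 : ∀ n, 0 ≤ w n) (hB : ∀ m ≤ N, ‖∑ k ∈ range m, f k‖ ≤ B m) :
    ‖∑ n ∈ range N, ((w n : ℝ) : ℂ) * f n‖ ≤ w 0 * B 0 + ∑ n ∈ range N, w n * (B (n + 1) - B n) := by
  rw [abel_eq]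
  refine (norm_add_le _ _).trans ?_
  have h1 : ‖((w N : ℝ) : ℂ) * ∑ k ∈ range N, f k‖ ≤ w N * B N := by
    rw [norm_mul, Complex.norm_real, Real.norm_eq_abs, abs_of_nonneg (hw0 N)]
    exact mul_le_mul_of_nonneg_left (hB N le_rfl) (hw0 N)
  have h2 : ‖∑ n ∈ range N, ((w n - w (n + 1) : ℝ) : ℂ) * ∑ k ∈ range (n + 1), f k‖ ≤
      ∑ n ∈ range N, (w n - w (n + 1)) * B (n + 1) := by
    refine (norm_sum_le _ _).trans (Finset.sum_le_sum fun n hn => ?_)
    have h3 := hw n
    rw [norm_mul, Complex.norm_real, Real.norm_eq_abs, abs_of_nonneg (by linarith)]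
    exact mul_le_mul_of_nonneg_left (hB (n + 1) (by rw [Finset.mem_range] at hn; omega)) (by linarith)
  have h3 : ∀ M : ℕ, w M * B M + ∑ n ∈ range M, (w n - w (n + 1)) * B (n + 1) =
      w 0 * B 0 + ∑ n ∈ range M, w n * (B (n + 1) - B n) := by
    intro M
    induction M with
    | zero => simp
    | succ M ih =>
      rw [sum_range_succ, sum_range_succ (fun n => w n * (B (n + 1) - B n))]
      linear_combination ih
  rw [← h3 N]
  exact add_le_add h1 h2

theorem part1 (a t : ℝ) (ha0 : 0 ≤ a) (ha1 : a ≤ 1) (ht : 2 ≤ t) (x : ℕ) : (x : ℝ) ≤ t →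
    ‖∑ n ∈ range x, ((√((n : ℝ) + 1 + a) : ℝ) : ℂ) * ph t ((n : ℝ) + 1 + a)‖ ≤
      6000 * (√(x : ℝ) * √t) := by
  induction x using Nat.strong_induction_on with
  | _ x ih =>
    intro hx
    have hst : 1 ≤ √t := Real.one_le_sqrt.2 (by linarith)
    rcases Nat.lt_or_ge x 2 with h2 | h2
    · interval_cases x
      · simp
      · simp only [sum_range_one]
        rw [norm_mul, norm_ph, mul_one, Complex.norm_real, Real.norm_eq_abs,
          abs_of_nonneg (Real.sqrt_nonneg _)]
        have h3 : √(((0 : ℕ) : ℝ) + 1 + a) ≤ √t := Real.sqrt_le_sqrt (by push_cast; linarith)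
        have h4 : √((1 : ℕ) : ℝ) = 1 := by simp
        rw [h4]
        linarith
    · obtain ⟨N, hN⟩ : ∃ N : ℕ, N = x / 2 := ⟨_, rfl⟩
      obtain ⟨L, hL⟩ : ∃ L : ℕ, L = x - N := ⟨_, rfl⟩
      have hNx : x = N + L := by omega
      have hN1 : 1 ≤ N := by omega
      have hLN : L ≤ N + 1 := by omega
      have hNr : (1 : ℝ) ≤ N := by exact_mod_cast hN1
      have hN2 : (N : ℝ) ≤ x / 2 := by
        have h3 : 2 * N ≤ x := by omega
        have h4 : 2 * (N : ℝ) ≤ x := by exact_mod_cast h3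
        linarith
      have hx0 : (0 : ℝ) ≤ x := Nat.cast_nonneg x
      have hNt : (N : ℝ) ≤ t := by linarith
      have h1 := ih N (by omega) hNt
      have hsplit : ∑ n ∈ range x, ((√((n : ℝ) + 1 + a) : ℝ) : ℂ) * ph t ((n : ℝ) + 1 + a) =
          ∑ n ∈ range N, ((√((n : ℝ) + 1 + a) : ℝ) : ℂ) * ph t ((n : ℝ) + 1 + a) +
          ∑ j ∈ range L, ((√((N : ℝ) + j + 1 + a) : ℝ) : ℂ) * ph t ((N : ℝ) + j + 1 + a) := by
        rw [hNx, Finset.sum_range_add]
        congr 1
        apply Finset.sum_congr rfl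
        intro j _
        push_cast
        rfl
      rw [hsplit]
      have h3 := abel_inc (fun j : ℕ => √((N : ℝ) + j + 1 + a)) (fun j : ℕ => ph t ((N : ℝ) + j + 1 + a)) L
        (400 * √t) (by
          intro n
          apply Real.sqrt_le_sqrt
          push_cast
          linarith) (Real.sqrt_nonneg _) (fun m hm => block a t ha0 ha1 N m hN1 hNt (by omega))
      have h4 : √((N : ℝ) + L + 1 + a) ≤ 3 * √(N : ℝ) := by
        rw [Real.sqrt_le_iff]
        refine ⟨by positivity, ?_⟩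
        rw [mul_pow, Real.sq_sqrt (by linarith)]
        have h5 : (L : ℝ) ≤ N + 1 := by exact_mod_cast hLN
        linarith
      have h5 : √(N : ℝ) ≤ 5 / 7 * √(x : ℝ) := by
        rw [Real.sqrt_le_iff]
        refine ⟨by positivity, ?_⟩
        rw [mul_pow, Real.sq_sqrt hx0]
        linarith
      have h6 : ‖∑ j ∈ range L, ((√((N : ℝ) + j + 1 + a) : ℝ) : ℂ) * ph t ((N : ℝ) + j + 1 + a)‖ ≤
          2400 * (√(N : ℝ) * √t) := by
        refine h3.trans ?_
        have h7 : 2 * √((N : ℝ) + L + 1 + a) * (400 * √t) ≤ 2 * (3 * √(N : ℝ)) * (400 * √t) := by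
          apply mul_le_mul_of_nonneg_right _ (by positivity)
          linarith
        refine h7.trans (le_of_eq ?_)
        ring
      refine (norm_add_le _ _).trans ((add_le_add h1 h6).trans ?_)
      have h8 : √(N : ℝ) * √t ≤ 5 / 7 * √(x : ℝ) * √t := mul_le_mul_of_nonneg_right h5 (by positivity)
      linarith

theorem wt (m : ℝ) (hm : 0 ≤ m) : (√(m + 1))⁻¹ ≤ 2 * (√(m + 1) - √m) := by
  have h1 : 0 < √(m + 1) := Real.sqrt_pos.2 (by linarith)
  have h2 := Real.sq_sqrt (show (0 : ℝ) ≤ m + 1 by linarith)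
  have h3 := Real.sq_sqrt hm
  rw [inv_le_iff_one_le_mul₀ h1]
  nlinarith [sq_nonneg (√(m + 1) - √m)]

theorem part2 (a t : ℝ) (ha0 : 0 ≤ a) (ha1 : a ≤ 1) (ht : 2 ≤ t) (x y : ℕ) (hx : t - 1 ≤ x)
    (hxy : x ≤ y) (hy : (y : ℝ) ≤ 2 * t ^ 2) :
    ‖∑ j ∈ range (y - x), (((√((x : ℝ) + j + 1 + a))⁻¹ : ℝ) : ℂ) * ph t ((x : ℝ) + j + 1 + a)‖ ≤
      6000 := by
  have hpi := Real.pi_pos
  have hpi3 := Real.pi_gt_three
  have hpi4 := Real.pi_lt_d2
  have ht0 : 0 < t := by linarith
  have hx0 : (0 : ℝ) ≤ x := Nat.cast_nonneg x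
  obtain ⟨M, hM⟩ : ∃ M : ℕ, M = y - x := ⟨_, rfl⟩
  have hyM : (y : ℝ) = x + M := by
    have : y = x + M := by omega
    rw [this]
    push_cast
    ring
  rw [← hM]
  have hu0 : ∀ j : ℕ, 0 < (x : ℝ) + j + 1 + a := fun j => by positivity
  have hkl : ∀ z : ℕ, ‖∑ j ∈ range z, ph t ((x : ℝ) + j + 1 + a)‖ ≤
      4 * Real.pi / t * ((x : ℝ) + z + 2) := by
    intro z
    have hz0 : (0 : ℝ) ≤ z := Nat.cast_nonneg z
    have h1 : ∑ j ∈ range z, ph t ((x : ℝ) + j + 1 + a) =
        ∑ j ∈ range z, e (-((fun j : ℕ => t / (2 * Real.pi) * Real.log ((x : ℝ) + j + 1 + a)) j)) := rfl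
    rw [h1, norm_sum_neg]
    have hstep : ∀ n : ℕ, t / (2 * Real.pi) * Real.log ((x : ℝ) + ((n + 1 : ℕ) : ℝ) + 1 + a) -
        t / (2 * Real.pi) * Real.log ((x : ℝ) + n + 1 + a) =
        t / (2 * Real.pi) * (Real.log (((x : ℝ) + n + 1 + a) + 1) - Real.log ((x : ℝ) + n + 1 + a)) := by
      intro n
      have e1 : (x : ℝ) + ((n + 1 : ℕ) : ℝ) + 1 + a = ((x : ℝ) + n + 1 + a) + 1 := by
        push_cast
        ring
      rw [e1]
      ring
    have hτ0 : 0 < t / (2 * Real.pi) := by positivity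
    have h2 := kusmin_landau_anti (fun j : ℕ => t / (2 * Real.pi) * Real.log ((x : ℝ) + j + 1 + a)) z
      (θ := t / (2 * Real.pi) * (1 / ((x : ℝ) + z + 2))) (by positivity) (by
        intro n hn
        rw [hstep]
        apply mul_le_mul_of_nonneg_left _ hτ0.le
        refine le_trans ?_ (log_step _ (hu0 n)).1
        have := hu0 n
        apply one_div_le_one_div_of_le (by linarith)
        have h3 : (n : ℝ) + 1 ≤ z := by exact_mod_cast hn
        linarith) (by
        intro n hn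
        rw [hstep]
        have h3 := mul_le_mul_of_nonneg_left (log_step _ (hu0 n)).2 hτ0.le
        have hn0 : (0 : ℝ) ≤ n := Nat.cast_nonneg n
        have h4 : t / (2 * Real.pi) * (1 / ((x : ℝ) + n + 1 + a)) ≤ 1 / 6 := by
          rw [div_mul_div_comm, mul_one, div_le_div_iff₀ (by have := hu0 n; positivity) (by norm_num)]
          have h5 : t ≤ (x : ℝ) + n + 1 + a := by linarith
          nlinarith [mul_le_mul hpi3.le h5 ht0.le hpi.le]
        have h5 : t / (2 * Real.pi) * (1 / ((x : ℝ) + z + 2)) ≤ 1 / 6 := by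
          rw [div_mul_div_comm, mul_one, div_le_div_iff₀ (by positivity) (by norm_num)]
          have h5 : t ≤ (x : ℝ) + z + 2 := by linarith
          nlinarith [mul_le_mul hpi3.le h5 ht0.le hpi.le]
        linarith) (by
        intro n hn
        have e2 : n + 2 = (n + 1) + 1 := by ring
        simp only [e2]
        rw [hstep, hstep]
        apply mul_le_mul_of_nonneg_left _ hτ0.le
        have h3 := log_step2 _ (hu0 n)
        have e1 : (x : ℝ) + ((n + 1 : ℕ) : ℝ) + 1 + a = ((x : ℝ) + n + 1 + a) + 1 := by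
          push_cast
          ring
        rw [e1]
        have h4 : 0 ≤ 1 / (((x : ℝ) + n + 1 + a) + 1) ^ 2 := by positivity
        linarith)
    refine h2.trans (le_of_eq ?_)
    field_simp
    ring
  have h1 := abel_dec (fun j : ℕ => (√((x : ℝ) + j + 1 + a))⁻¹) (fun j : ℕ => ph t ((x : ℝ) + j + 1 + a)) M
    (fun z : ℕ => 4 * Real.pi / t * ((x : ℝ) + z + 2)) (by
      intro n
      have := hu0 n
      apply inv_anti₀ (Real.sqrt_pos.2 this)
      apply Real.sqrt_le_sqrt
      push_cast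
      linarith) (fun n => by positivity) (fun m _ => hkl m)
  refine h1.trans ?_
  have h2 : ∀ n : ℕ, (√((x : ℝ) + n + 1 + a))⁻¹ ≤ 2 * (√((x : ℝ) + ((n + 1 : ℕ) : ℝ)) - √((x : ℝ) + n)) := by
    intro n
    have hn0 : (0 : ℝ) ≤ n := Nat.cast_nonneg n
    have h3 := wt ((x : ℝ) + n) (by positivity)
    have h4 : (√((x : ℝ) + n + 1 + a))⁻¹ ≤ (√((x : ℝ) + n + 1))⁻¹ := by
      apply inv_anti₀ (Real.sqrt_pos.2 (by linarith))
      apply Real.sqrt_le_sqrt
      linarith
    have e1 : (x : ℝ) + ((n + 1 : ℕ) : ℝ) = (x : ℝ) + n + 1 := by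
      push_cast
      ring
    rw [e1]
    exact h4.trans h3
  have h3 : ∑ n ∈ range M, (√((x : ℝ) + n + 1 + a))⁻¹ ≤ 2 * √((x : ℝ) + M) := by
    refine (Finset.sum_le_sum fun n _ => h2 n).trans ?_
    rw [← Finset.mul_sum, Finset.sum_range_sub (fun n : ℕ => √((x : ℝ) + n))]
    have h4 := Real.sqrt_nonneg ((x : ℝ) + ((0 : ℕ) : ℝ))
    linarith
  have h4 : √((x : ℝ) + M) ≤ 2 * t := by
    rw [← hyM, Real.sqrt_le_iff]
    refine ⟨by positivity, ?_⟩
    nlinarith
  have h5 : (√((x : ℝ) + ((0 : ℕ) : ℝ) + 1 + a))⁻¹ * ((x : ℝ) + 2) ≤ 4 * t := by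
    have h6 : √((x : ℝ) + 1) ≤ 2 * t := by
      rw [Real.sqrt_le_iff]
      refine ⟨by positivity, ?_⟩
      have h7 : (x : ℝ) ≤ y := by exact_mod_cast hxy
      nlinarith
    have h7 : (√((x : ℝ) + ((0 : ℕ) : ℝ) + 1 + a))⁻¹ ≤ (√((x : ℝ) + 1))⁻¹ := by
      apply inv_anti₀ (Real.sqrt_pos.2 (by linarith))
      apply Real.sqrt_le_sqrt
      push_cast
      linarith
    have h8 : 0 < √((x : ℝ) + 1) := Real.sqrt_pos.2 (by linarith)
    have h9 := Real.sq_sqrt (show (0 : ℝ) ≤ (x : ℝ) + 1 by linarith)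
    calc (√((x : ℝ) + ((0 : ℕ) : ℝ) + 1 + a))⁻¹ * ((x : ℝ) + 2)
        ≤ (√((x : ℝ) + 1))⁻¹ * ((x : ℝ) + 2) := mul_le_mul_of_nonneg_right h7 (by linarith)
      _ ≤ (√((x : ℝ) + 1))⁻¹ * (2 * (√((x : ℝ) + 1)) ^ 2) := by
          apply mul_le_mul_of_nonneg_left _ (by positivity)
          rw [h9]
          linarith
      _ = 2 * √((x : ℝ) + 1) := by
          field_simp
      _ ≤ 4 * t := by linarith
  have h6 : ∑ n ∈ range M, (√((x : ℝ) + n + 1 + a))⁻¹ *
      (4 * Real.pi / t * ((x : ℝ) + ((n + 1 : ℕ) : ℝ) + 2) - 4 * Real.pi / t * ((x : ℝ) + n + 2)) =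
      4 * Real.pi / t * ∑ n ∈ range M, (√((x : ℝ) + n + 1 + a))⁻¹ := by
    rw [Finset.mul_sum]
    apply Finset.sum_congr rfl
    intro n _
    push_cast
    ring
  have h7 : (√((x : ℝ) + ((0 : ℕ) : ℝ) + 1 + a))⁻¹ * (4 * Real.pi / t * ((x : ℝ) + ((0 : ℕ) : ℝ) + 2)) =
      4 * Real.pi / t * ((√((x : ℝ) + ((0 : ℕ) : ℝ) + 1 + a))⁻¹ * ((x : ℝ) + 2)) := by
    push_cast
    ring
  show (√((x : ℝ) + ((0 : ℕ) : ℝ) + 1 + a))⁻¹ * (4 * Real.pi / t * ((x : ℝ) + ((0 : ℕ) : ℝ) + 2)) +
    ∑ n ∈ range M, (√((x : ℝ) + n + 1 + a))⁻¹ *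
      (4 * Real.pi / t * ((x : ℝ) + ((n + 1 : ℕ) : ℝ) + 2) - 4 * Real.pi / t * ((x : ℝ) + n + 2)) ≤ 6000
  rw [h6, h7]
  have h8 : 0 < 4 * Real.pi / t := by positivity
  calc 4 * Real.pi / t * ((√((x : ℝ) + ((0 : ℕ) : ℝ) + 1 + a))⁻¹ * ((x : ℝ) + 2)) +
        4 * Real.pi / t * ∑ n ∈ range M, (√((x : ℝ) + n + 1 + a))⁻¹
      ≤ 4 * Real.pi / t * (4 * t) + 4 * Real.pi / t * (4 * t) := by
        apply add_le_add
        · exact mul_le_mul_of_nonneg_left h5 h8.le
        · exact mul_le_mul_of_nonneg_left (h3.trans (by linarith)) h8.le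
    _ = 32 * Real.pi := by
        field_simp
        ring
    _ ≤ 6000 := by linarith

end VD

open VD in
theorem t_VD : S_VD := by
  refine ⟨6000, by norm_num, fun a ha0 ha1 t ht => ⟨fun x hx => ?_, fun x y hx hxy hy => ?_⟩⟩
  · have ht0 : 0 ≤ t := by linarith
    have h1 := part1 a t ha0 ha1 ht x hx
    have h2 : √(x : ℝ) * √t ≤ t := by
      calc √(x : ℝ) * √t ≤ √t * √t :=
            mul_le_mul_of_nonneg_right (Real.sqrt_le_sqrt hx) (Real.sqrt_nonneg _)
        _ = t := Real.mul_self_sqrt ht0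
    have h3 : ∑ n ∈ Finset.range x, (((n : ℝ) + 1 + a : ℝ) : ℂ) ^ (1 - pp t) =
        ∑ n ∈ Finset.range x, ((√((n : ℝ) + 1 + a) : ℝ) : ℂ) * ph t ((n : ℝ) + 1 + a) := by
      apply Finset.sum_congr rfl
      intro n _
      have h4 : (1 : ℂ) - pp t = (⟨1 / 2, -t⟩ : ℂ) := by
        unfold pp
        apply Complex.ext
        · simp
          norm_num
        · simp
      rw [h4, cpow_eq _ _ _ (by positivity), Real.sqrt_eq_rpow]
    rw [h3]
    linarith
  · have h1 := part2 a t ha0 ha1 ht x y hx hxy hy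
    have h3 : ∑ n ∈ Finset.Ico x y, (((n : ℝ) + 1 + a : ℝ) : ℂ) ^ (-(pp t)) =
        ∑ j ∈ Finset.range (y - x), (((√((x : ℝ) + j + 1 + a))⁻¹ : ℝ) : ℂ) *
          ph t ((x : ℝ) + j + 1 + a) := by
      rw [Finset.sum_Ico_eq_sum_range]
      apply Finset.sum_congr rfl
      intro n _
      have h4 : -(pp t) = (⟨-(1 / 2), -t⟩ : ℂ) := by
        unfold pp
        apply Complex.ext
        · simp
        · simp
      have h5 : (((x + n : ℕ) : ℝ) + 1 + a) = (x : ℝ) + n + 1 + a := by
        push_cast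
        ring
      rw [h5, h4, cpow_eq _ _ _ (by positivity), Real.rpow_neg (by positivity), ← Real.sqrt_eq_rpow]
    rw [h3]
    exact h1

end Pool.Agent.U160.LZ
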