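import Pool.Agent.U160.LZ.PkgMB
import Pool.Agent.U160.LZ.PkgVD

set_option autoImplicit false

namespace Pool.Agent.U160.LZ

open MeasureTheory ProbabilityTheory Finset Pool.Agent.U160.GC

namespace MB2

theorem to_ph (a t : ℝ) (ha0 : 0 ≤ a) (x y : ℕ) : ∑ n ∈ Ico x y, (((n : ℝ) + 1 + a : ℝ) : ℂ) ^ (-(pp t)) =
    ∑ j ∈ range (y - x), (((√((x : ℝ) + j + 1 + a))⁻¹ : ℝ) : ℂ) * VD.ph t ((x : ℝ) + j + 1 + a) := by
  rw [Finset.sum_Ico_eq_sum_range]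
  apply Finset.sum_congr rfl
  intro n _
  have h4 : -(pp t) = (⟨-(1 / 2), -t⟩ : ℂ) := by
    unfold pp
    apply Complex.ext
    · simp
    · simp
  have h5 : (((x + n : ℕ) : ℝ) + 1 + a) = (x : ℝ) + n + 1 + a := by
    push_cast
    ring
  rw [h5, h4, VD.cpow_eq _ _ _ (by positivity), Real.rpow_neg (by positivity), ← Real.sqrt_eq_rpow]

/-- direct bound on a block -/
theorem direct (a t : ℝ) (ha0 : 0 ≤ a) (ha1 : a ≤ 1) (x y : ℕ) (hx1 : 1 ≤ x) (hx : (x : ℝ) ≤ t)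
    (hy : y ≤ 2 * x + 1) :
    ‖∑ n ∈ Ico x y, (((n : ℝ) + 1 + a : ℝ) : ℂ) ^ (-(pp t))‖ ≤ 400 * (√t / √((x : ℝ) + 1)) := by
  rw [to_ph a t ha0]
  have h1 := VD.abel_dec (fun j : ℕ => (√((x : ℝ) + j + 1 + a))⁻¹) (fun j : ℕ => VD.ph t ((x : ℝ) + j + 1 + a)) (y - x)
    (fun _ => 400 * √t) (by
      intro n
      have : 0 < (x : ℝ) + n + 1 + a := by positivity
      apply inv_anti₀ (Real.sqrt_pos.2 this)
      apply Real.sqrt_le_sqrt
      push_cast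
      linarith) (fun n => by positivity) (fun m hm => VD.block a t ha0 ha1 x m hx1 hx (by omega))
  refine h1.trans ?_
  simp only [sub_self, mul_zero, sum_const_zero, add_zero]
  have h4 : (√((x : ℝ) + ((0 : ℕ) : ℝ) + 1 + a))⁻¹ ≤ (√((x : ℝ) + 1))⁻¹ := by
    apply inv_anti₀ (Real.sqrt_pos.2 (by positivity))
    apply Real.sqrt_le_sqrt
    push_cast
    linarith
  calc _ ≤ (√((x : ℝ) + 1))⁻¹ * (400 * √t) := mul_le_mul_of_nonneg_right h4 (by positivity)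
    _ = _ := by rw [div_eq_mul_inv]; ring

theorem far (a t : ℝ) (ha0 : 0 ≤ a) (ha1 : a ≤ 1) (ht : 2 ≤ t) (x y : ℕ) (hx : t - 1 ≤ x)
    (hxy : x ≤ y) (hy : (y : ℝ) ≤ 2 * t ^ 2) :
    ‖∑ n ∈ Ico x y, (((n : ℝ) + 1 + a : ℝ) : ℂ) ^ (-(pp t))‖ ≤ 6000 := by
  rw [to_ph a t ha0]
  exact VD.part2 a t ha0 ha1 ht x y hx hxy hy

theorem S_le (a t : ℝ) (ha0 : 0 ≤ a) (ha1 : a ≤ 1) (ht : 2 ≤ t) (x : ℕ) (hx : (x : ℝ) ≤ t) :
    ‖∑ n ∈ range x, (((n : ℝ) + 1 + a : ℝ) : ℂ) ^ (1 - pp t)‖ ≤ 6000 * (√(x : ℝ) * √t) := by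
  have h3 : ∑ n ∈ Finset.range x, (((n : ℝ) + 1 + a : ℝ) : ℂ) ^ (1 - pp t) =
      ∑ n ∈ Finset.range x, ((√((n : ℝ) + 1 + a) : ℝ) : ℂ) * VD.ph t ((n : ℝ) + 1 + a) := by
    apply Finset.sum_congr rfl
    intro n _
    have h4 : (1 : ℂ) - pp t = (⟨1 / 2, -t⟩ : ℂ) := by
      unfold pp
      apply Complex.ext
      · simp
        norm_num
      · simp
    rw [h4, VD.cpow_eq _ _ _ (by positivity), Real.sqrt_eq_rpow]
  rw [h3]
  exact VD.part1 a t ha0 ha1 ht x hx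

theorem norm_one_sub (t : ℝ) (ht : 0 < t) : t ≤ ‖1 - pp t‖ := by
  have hs1 : (1 - pp t).im = -t := by simp [pp]
  have h1 := Complex.abs_im_le_norm (1 - pp t)
  rwa [hs1, abs_neg, abs_of_pos ht] at h1

theorem int_cpow (t a b : ℝ) : ∫ v in a..b, (v : ℂ) ^ (-(pp t)) =
    ((b : ℂ) ^ (1 - pp t) - (a : ℂ) ^ (1 - pp t)) / (1 - pp t) := by
  rw [integral_cpow (Or.inl (by simp [pp]; norm_num)), show -(pp t) + 1 = 1 - pp t by ring]

/-- the antiderivative bound on a block -/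
theorem anti (d t : ℝ) (hd0 : 0 < d) (hd1 : d ≤ 1) (ht : 2 ≤ t) (x y : ℕ) (hxy : x ≤ y) (hy : (y : ℝ) ≤ t) :
    ‖∑ n ∈ Ico x y, ∫ u in (0 : ℝ)..1, (((n : ℝ) + 1 + d * u : ℝ) : ℂ) ^ (-(pp t))‖ ≤
      d⁻¹ * (24000 * (√(y : ℝ) / √t)) := by
  have ht0 : 0 < t := by linarith
  have hnorm := norm_one_sub t ht0
  have hA : ∀ n : ℕ, (∫ u in (0 : ℝ)..1, (((n : ℝ) + 1 + d * u : ℝ) : ℂ) ^ (-(pp t))) =
      (d : ℂ)⁻¹ * (((((n : ℝ) + 1 + d : ℝ) : ℂ) ^ (1 - pp t) -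
        (((n : ℝ) + 1 + 0 : ℝ) : ℂ) ^ (1 - pp t)) / (1 - pp t)) := by
    intro n
    have h1 := intervalIntegral.integral_comp_add_mul (a := 0) (b := 1)
      (fun v : ℝ => (v : ℂ) ^ (-(pp t))) hd0.ne' ((n : ℝ) + 1)
    rw [h1, int_cpow, mul_one, mul_zero, Complex.real_smul, Complex.ofReal_inv]
  have hS : ∀ a : ℝ, 0 ≤ a → a ≤ 1 → ‖∑ n ∈ Ico x y, (((n : ℝ) + 1 + a : ℝ) : ℂ) ^ (1 - pp t)‖ ≤
      12000 * (√(y : ℝ) * √t) := by
    intro a h0 h1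
    rw [sum_Ico_eq_sub _ hxy]
    have e1 := S_le a t h0 h1 ht y hy
    have hxy' : (x : ℝ) ≤ y := by exact_mod_cast hxy
    have e2 := S_le a t h0 h1 ht x (hxy'.trans hy)
    have e3 : √(x : ℝ) * √t ≤ √(y : ℝ) * √t := mul_le_mul_of_nonneg_right (Real.sqrt_le_sqrt hxy') (Real.sqrt_nonneg _)
    refine (norm_sub_le _ _).trans ?_
    linarith
  have e : ∑ n ∈ Ico x y, ∫ u in (0 : ℝ)..1, (((n : ℝ) + 1 + d * u : ℝ) : ℂ) ^ (-(pp t)) =
      (d : ℂ)⁻¹ * ((∑ n ∈ Ico x y, (((n : ℝ) + 1 + d : ℝ) : ℂ) ^ (1 - pp t) -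
        ∑ n ∈ Ico x y, (((n : ℝ) + 1 + 0 : ℝ) : ℂ) ^ (1 - pp t)) / (1 - pp t)) := by
    rw [sum_congr rfl fun n _ => hA n, ← mul_sum, ← sum_div, sum_sub_distrib]
  rw [e, norm_mul, norm_div, norm_inv, Complex.norm_real, Real.norm_of_nonneg hd0.le]
  apply mul_le_mul_of_nonneg_left _ (by positivity)
  rw [div_le_iff₀ (by linarith)]
  have h1 := hS d hd0.le hd1
  have h2 := hS 0 le_rfl zero_le_one
  have h5 : √t * √t = t := Real.mul_self_sqrt ht0.le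
  have hst : 0 < √t := Real.sqrt_pos.2 ht0
  have h6 : √(y : ℝ) * √t = √(y : ℝ) / √t * t := by
    rw [div_mul_eq_mul_div, eq_div_iff hst.ne', mul_assoc, h5]
  calc _ ≤ 12000 * (√(y : ℝ) * √t) + 12000 * (√(y : ℝ) * √t) := (norm_sub_le _ _).trans (add_le_add h1 h2)
    _ = 24000 * (√(y : ℝ) / √t) * t := by rw [h6]; ring
    _ ≤ _ := mul_le_mul_of_nonneg_left hnorm (by positivity)

/-- from every shift to the mean -/
theorem avg (d t : ℝ) (hd0 : 0 ≤ d) (hd1 : d ≤ 1) (x y : ℕ) (B : ℝ)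
    (h : ∀ a : ℝ, 0 ≤ a → a ≤ 1 → ‖∑ n ∈ Ico x y, (((n : ℝ) + 1 + a : ℝ) : ℂ) ^ (-(pp t))‖ ≤ B) :
    ‖∑ n ∈ Ico x y, ∫ u in (0 : ℝ)..1, (((n : ℝ) + 1 + d * u : ℝ) : ℂ) ^ (-(pp t))‖ ≤ B := by
  rw [← intervalIntegral.integral_finsetSum]
  · have h1 : ∀ u ∈ Set.uIoc (0 : ℝ) 1,
        ‖∑ n ∈ Ico x y, (((n : ℝ) + 1 + d * u : ℝ) : ℂ) ^ (-(pp t))‖ ≤ B := by
      intro u hu
      rw [Set.uIoc_of_le zero_le_one] at hu
      refine h (d * u) (mul_nonneg hd0 hu.1.le) ?_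
      nlinarith [hu.1, hu.2]
    have h2 := intervalIntegral.norm_integral_le_of_norm_le_const h1
    simpa using h2
  · intro n _
    refine ContinuousOn.intervalIntegrable ?_
    refine ContinuousOn.cpow_const ?_ ?_
    · fun_prop
    · intro u hu
      rw [Set.uIcc_of_le zero_le_one] at hu
      refine Complex.ofReal_mem_slitPlane.2 ?_
      have : 0 ≤ d * u := mul_nonneg hd0 hu.1
      positivity

/-- one block -/
theorem blk (δ η t : ℝ) (hδ : 0 < δ) (hδ1 : δ ≤ 1) (hη : 0 ≤ η) (ht : 2 ≤ t) (k x y : ℕ) (hx : x + 1 = 2 ^ k)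
    (hxy : x ≤ y) (hy : y ≤ 2 * x + 1) (hyt : (y : ℝ) ≤ 2 * t ^ 2) :
    ‖∑ n ∈ Ico x y, ∫ u in (0 : ℝ)..1, (((n : ℝ) + 1 + (δ * (2 : ℝ) ^ (-(η * (k : ℝ)))) * u : ℝ) : ℂ) ^ (-(pp t))‖ ≤
      48000 / δ * t ^ (η / (2 * (1 + η))) := by
  have ht0 : 0 < t := by linarith
  set κ : ℝ := η / (2 * (1 + η)) with hκ
  have hκ0 : 0 ≤ κ := by positivity
  have hκ1 : (1 + η) * κ = η / 2 := by rw [hκ]; field_simp
  obtain ⟨X, hX⟩ : ∃ X : ℝ, X = (x : ℝ) + 1 := ⟨_, rfl⟩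
  have hX1 : 1 ≤ X := by rw [hX]; linarith [Nat.cast_nonneg (α := ℝ) x]
  have hX0 : 0 < X := by linarith
  have hXk : (2 : ℝ) ^ (k : ℝ) = X := by
    rw [Real.rpow_natCast, hX]
    have : ((x + 1 : ℕ) : ℝ) = ((2 ^ k : ℕ) : ℝ) := by rw [hx]
    push_cast at this
    linarith
  have hdX : (2 : ℝ) ^ (-(η * (k : ℝ))) = X ^ (-η) := by
    rw [← hXk, ← Real.rpow_mul (by norm_num)]
    congr 1
    ring
  rw [hdX]
  set d : ℝ := δ * X ^ (-η) with hd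
  have hXη : X ^ (-η) ≤ 1 := Real.rpow_le_one_of_one_le_of_nonpos hX1 (by linarith)
  have hXη0 : 0 < X ^ (-η) := Real.rpow_pos_of_pos hX0 _
  have hd0 : 0 < d := by positivity
  have hd1 : d ≤ 1 := mul_le_one₀ hδ1 hXη0.le hXη
  have htκ : 1 ≤ t ^ κ := Real.one_le_rpow (by linarith) hκ0
  have hδi : 1 ≤ 1 / δ := by rw [le_div_iff₀ hδ]; linarith
  have hbig : ∀ B : ℝ, 0 ≤ B → B ≤ 48000 * t ^ κ → B ≤ 48000 / δ * t ^ κ := by
    intro B hB0 hB
    calc B ≤ 1 * (48000 * t ^ κ) := by linarith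
      _ ≤ 1 / δ * (48000 * t ^ κ) := mul_le_mul_of_nonneg_right hδi (by positivity)
      _ = _ := by ring
  rcases Nat.eq_zero_or_pos x with hx0 | hx1
  · -- the first block
    subst hx0
    apply (avg d t hd0.le hd1 0 y 1 ?_).trans (hbig 1 (by norm_num) (by linarith))
    intro a ha0 ha1
    refine (norm_sum_le _ _).trans ?_
    have hterm : ∀ n ∈ Ico 0 y, ‖(((n : ℝ) + 1 + a : ℝ) : ℂ) ^ (-(pp t))‖ ≤ 1 := by
      intro n _
      rw [Complex.norm_cpow_eq_rpow_re_of_pos (by positivity)]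
      apply Real.rpow_le_one_of_one_le_of_nonpos
      · linarith [Nat.cast_nonneg (α := ℝ) n]
      · simp [pp]
    refine (sum_le_sum hterm).trans ?_
    simp only [sum_const, Nat.card_Ico, nsmul_eq_mul, mul_one]
    have : y ≤ 1 := by omega
    exact_mod_cast (by omega : y - 0 ≤ 1)
  have hyX : (y : ℝ) ≤ 2 * X := by
    have : (y : ℝ) ≤ 2 * (x : ℝ) + 1 := by exact_mod_cast hy
    rw [hX]; linarith
  have hst : 0 < √t := Real.sqrt_pos.2 ht0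
  have hsX : 0 < √X := Real.sqrt_pos.2 hX0
  have hst' : √t = t ^ (1 / 2 : ℝ) := Real.sqrt_eq_rpow t
  have hsX' : √X = X ^ (1 / 2 : ℝ) := Real.sqrt_eq_rpow X
  rcases le_or_gt t (2 * X) with hB | hC
  · rcases le_or_gt (t - 1) (x : ℝ) with h1 | h1
    · exact (avg d t hd0.le hd1 x y 6000 fun a h0 h1' => far a t h0 h1' ht x y h1 hxy hyt).trans
        (hbig 6000 (by norm_num) (by linarith))
    · refine (avg d t hd0.le hd1 x y _ fun a h0 h1' => direct a t h0 h1' x y hx1 (by linarith) hy).trans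
        (hbig _ (by positivity) ?_)
      rw [← hX]
      have h2 : √t / √X ≤ 2 := by
        rw [div_le_iff₀ hsX]
        rw [Real.sqrt_le_left (by positivity), mul_pow, Real.sq_sqrt hX0.le]
        linarith
      linarith
  · rcases le_or_gt (X ^ (1 + η)) t with h1 | h1
    · have h2 := anti d t hd0 hd1 ht x y hxy (by linarith)
      refine h2.trans ?_
      have h3 : √(y : ℝ) ≤ 2 * √X := by
        rw [Real.sqrt_le_left (by positivity), mul_pow, Real.sq_sqrt hX0.le]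
        linarith
      have h4 : X ^ η * √X ≤ t ^ κ * √t := by
        rw [hst', hsX', ← Real.rpow_add hX0, ← Real.rpow_add ht0]
        have h5 : (X ^ (1 + η)) ^ (κ + 1 / 2) ≤ t ^ (κ + 1 / 2) :=
          Real.rpow_le_rpow (by positivity) h1 (by positivity)
        rw [← Real.rpow_mul hX0.le] at h5
        have h6 : (1 + η) * (κ + 1 / 2) = η + 1 / 2 := by rw [mul_add, hκ1]; ring
        rwa [h6] at h5
      have h7 : d⁻¹ = 1 / δ * X ^ η := by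
        rw [hd, mul_inv, Real.rpow_neg hX0.le, inv_inv, one_div]
      rw [h7]
      have h8 : X ^ η * (√X / √t) ≤ t ^ κ := by
        rw [← mul_div_assoc, div_le_iff₀ hst]
        exact h4
      calc 1 / δ * X ^ η * (24000 * (√(y : ℝ) / √t)) ≤ 1 / δ * X ^ η * (24000 * ((2 * √X) / √t)) := by gcongr
        _ = 48000 / δ * (X ^ η * (√X / √t)) := by ring
        _ ≤ _ := by gcongr
    · refine (avg d t hd0.le hd1 x y _ fun a h0 h1' => direct a t h0 h1' x y hx1 (by linarith) hy).trans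
        (hbig _ (by positivity) ?_)
      rw [← hX]
      have h2 : √t / √X ≤ t ^ κ := by
        rw [div_le_iff₀ hsX, hst', hsX']
        have h5 : t ^ (1 / 2 - κ) ≤ (X ^ (1 + η)) ^ (1 / 2 - κ) := by
          apply Real.rpow_le_rpow ht0.le h1.le
          have : κ ≤ 1 / 2 := by
            rw [hκ, div_le_iff₀ (by positivity)]; linarith
          linarith
        rw [← Real.rpow_mul hX0.le] at h5
        have h6 : (1 + η) * (1 / 2 - κ) = 1 / 2 := by rw [mul_sub, hκ1]; ring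
        rw [h6] at h5
        calc t ^ (1 / 2 : ℝ) = t ^ κ * t ^ (1 / 2 - κ) := by rw [← Real.rpow_add ht0]; congr 1; ring
          _ ≤ _ := by gcongr
      linarith

theorem telescope (f : ℕ → ℂ) (b : ℕ → ℕ) (hb : ∀ k, b k ≤ b (k + 1)) (h0 : b 0 = 0) (K : ℕ) :
    ∑ n ∈ range (b K), f n = ∑ k ∈ range K, ∑ n ∈ Ico (b k) (b (k + 1)), f n := by
  induction K with
  | zero => simp [h0]
  | succ K ih => rw [sum_range_succ, ← ih, sum_range_add_sum_Ico f (hb K)]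

theorem ints (t : ℝ) (N : ℕ) (ht : 2 ≤ t) (hN2 : (N : ℝ) ≤ t ^ 2 + 1) :
    ‖∑ n ∈ range N, ∫ v in ((n : ℝ) + 1)..((n : ℝ) + 2), (v : ℂ) ^ (-(pp t))‖ ≤ 3 := by
  have ht0 : 0 < t := by linarith
  have hnorm := norm_one_sub t ht0
  have hnpos : 0 < ‖1 - pp t‖ := by linarith
  have hs2 : (1 - pp t).re = 1 / 2 := by simp [pp]; norm_num
  have e : ∑ n ∈ range N, ∫ v in ((n : ℝ) + 1)..((n : ℝ) + 2), (v : ℂ) ^ (-(pp t)) =
      ((((N : ℝ) + 1 : ℝ) : ℂ) ^ (1 - pp t) - 1) / (1 - pp t) := by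
    obtain ⟨F, hF⟩ : ∃ F : ℕ → ℂ, ∀ m : ℕ,
        F m = ((((m : ℝ) + 1 : ℝ) : ℂ) ^ (1 - pp t)) / (1 - pp t) := ⟨_, fun _ => rfl⟩
    have e1 : ∀ n ∈ range N, ∫ v in ((n : ℝ) + 1)..((n : ℝ) + 2), (v : ℂ) ^ (-(pp t)) =
        F (n + 1) - F n := by
      intro n _
      rw [int_cpow, hF, hF]
      rw [show (((n + 1 : ℕ) : ℝ) + 1) = (n : ℝ) + 2 by push_cast; ring]
      ring
    rw [sum_congr rfl e1, sum_range_sub F N, hF, hF]
    simp only [Nat.cast_zero, zero_add, Complex.ofReal_one, Complex.one_cpow]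
    ring
  rw [e, norm_div, div_le_iff₀ hnpos]
  have h1 : ‖(((N : ℝ) + 1 : ℝ) : ℂ) ^ (1 - pp t)‖ ≤ t + 1 := by
    rw [Complex.norm_cpow_eq_rpow_re_of_pos (by positivity), hs2, ← Real.sqrt_eq_rpow]
    rw [Real.sqrt_le_left (by linarith)]
    nlinarith
  calc ‖(((N : ℝ) + 1 : ℝ) : ℂ) ^ (1 - pp t) - 1‖ ≤
      ‖(((N : ℝ) + 1 : ℝ) : ℂ) ^ (1 - pp t)‖ + ‖(1 : ℂ)‖ := norm_sub_le _ _
    _ ≤ 3 * ‖1 - pp t‖ := by rw [norm_one]; linarith

end MB2

/-- the sizes, constant on dyadic blocks -/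
noncomputable def dl (δ η : ℝ) (m : ℕ) : ℝ := δ * (2 : ℝ) ^ (-(η * (Nat.log 2 m : ℝ)))

open MB2 in
theorem t_MB2 (δ η : ℝ) (hδ : 0 < δ) (hδ1 : δ ≤ 1) (hη : 0 ≤ η) : ∃ C : ℝ, 0 < C ∧ ∀ (t : ℝ) (N : ℕ), 2 ≤ t →
    (N : ℝ) ≤ t ^ 2 + 1 →
    ‖∑ n ∈ range N, ((∫ u in (0 : ℝ)..1, (((n : ℝ) + 1 + dl δ η (n + 1) * u : ℝ) : ℂ) ^ (-(pp t))) -
      ∫ v in ((n : ℝ) + 1)..((n : ℝ) + 2), (v : ℂ) ^ (-(pp t)))‖ ≤ C * (t ^ (η / (2 * (1 + η))) * Real.log t) := by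
  refine ⟨48000 / δ * 6 + 5, by positivity, ?_⟩
  intro t N ht hN2
  have ht0 : 0 < t := by linarith
  have hlog2 : 0.69 < Real.log 2 := by have := Real.log_two_gt_d9; linarith
  have hlogt : Real.log 2 ≤ Real.log t := Real.log_le_log (by norm_num) ht
  have htκ : 1 ≤ t ^ (η / (2 * (1 + η))) := Real.one_le_rpow (by linarith) (by positivity)
  set K : ℕ := Nat.log 2 N + 1 with hK
  set b : ℕ → ℕ := fun k => min N (2 ^ k - 1) with hb
  have hbm : ∀ k, b k ≤ b (k + 1) := by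
    intro k
    have : 2 ^ k ≤ 2 ^ (k + 1) := Nat.pow_le_pow_right (by norm_num) (by omega)
    simp only [hb]
    omega
  have hb0 : b 0 = 0 := by simp [hb]
  have hbK : b K = N := by
    have : N < 2 ^ (Nat.log 2 N + 1) := Nat.lt_pow_succ_log_self (by norm_num) N
    simp only [hb, hK]
    omega
  have hKlog : (K : ℝ) ≤ 6 * Real.log t := by
    rcases Nat.eq_zero_or_pos N with h0 | h0
    · rw [hK, h0]; norm_num; linarith
    · have h1 : 2 ^ Nat.log 2 N ≤ N := Nat.pow_log_le_self 2 (by omega)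
      have h2 : (2 : ℝ) ^ Nat.log 2 N ≤ t ^ 3 := by
        have : ((2 ^ Nat.log 2 N : ℕ) : ℝ) ≤ (N : ℝ) := by exact_mod_cast h1
        push_cast at this
        nlinarith
      have h3 := Real.log_le_log (by positivity) h2
      rw [Real.log_pow, Real.log_pow] at h3
      push_cast at h3
      rw [hK]
      push_cast
      nlinarith
  have hmean : ‖∑ n ∈ range N, ∫ u in (0 : ℝ)..1, (((n : ℝ) + 1 + dl δ η (n + 1) * u : ℝ) : ℂ) ^ (-(pp t))‖ ≤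
      K * (48000 / δ * t ^ (η / (2 * (1 + η)))) := by
    have e := telescope (fun n => ∫ u in (0 : ℝ)..1, (((n : ℝ) + 1 + dl δ η (n + 1) * u : ℝ) : ℂ) ^ (-(pp t))) b hbm hb0 K
    rw [hbK] at e
    rw [e]
    refine (norm_sum_le _ _).trans ?_
    have hone : ∀ k ∈ range K, ‖∑ n ∈ Ico (b k) (b (k + 1)),
        ∫ u in (0 : ℝ)..1, (((n : ℝ) + 1 + dl δ η (n + 1) * u : ℝ) : ℂ) ^ (-(pp t))‖ ≤
        48000 / δ * t ^ (η / (2 * (1 + η))) := by
      intro k _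
      rcases le_or_gt N (2 ^ k - 1) with h1 | h1
      · have h2 : b k = N := by simp only [hb]; omega
        have h3 : b (k + 1) ≤ N := by simp only [hb]; omega
        rw [Ico_eq_empty_of_le (by omega)]
        simp only [sum_empty, norm_zero]
        positivity
      · have h2 : b k = 2 ^ k - 1 := by simp only [hb]; omega
        have hp : 1 ≤ 2 ^ k := Nat.one_le_two_pow
        have hp2 : 2 ^ (k + 1) = 2 * 2 ^ k := by rw [pow_succ]; ring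
        have h3 : b (k + 1) ≤ 2 * b k + 1 := by
          rw [h2]; simp only [hb]; omega
        have h4 : b (k + 1) ≤ N := by simp only [hb]; omega
        have h5 : ((b (k + 1) : ℕ) : ℝ) ≤ 2 * t ^ 2 := by
          have : ((b (k + 1) : ℕ) : ℝ) ≤ N := by exact_mod_cast h4
          nlinarith
        have h6 := blk δ η t hδ hδ1 hη ht k (b k) (b (k + 1)) (by rw [h2]; omega) (hbm k) h3 h5
        refine le_trans (le_of_eq ?_) h6
        congr 1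
        refine sum_congr rfl fun n hn => ?_
        have h7 : Nat.log 2 (n + 1) = k := by
          rw [mem_Ico, h2] at hn
          have h8 : b (k + 1) ≤ 2 ^ (k + 1) - 1 := by simp only [hb]; omega
          apply Nat.log_eq_of_pow_le_of_lt_pow
          · omega
          · omega
        unfold dl
        rw [h7]
    refine (sum_le_sum hone).trans (le_of_eq ?_)
    simp
  have hints := ints t N ht hN2
  rw [sum_sub_distrib]
  refine (norm_sub_le _ _).trans ?_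
  have h9 : K * (48000 / δ * t ^ (η / (2 * (1 + η)))) ≤
      48000 / δ * 6 * (t ^ (η / (2 * (1 + η))) * Real.log t) := by
    calc (K : ℝ) * (48000 / δ * t ^ (η / (2 * (1 + η)))) ≤ (6 * Real.log t) * (48000 / δ * t ^ (η / (2 * (1 + η)))) :=
          mul_le_mul_of_nonneg_right hKlog (by positivity)
      _ = _ := by ring
  have h10 : 3 ≤ 5 * (t ^ (η / (2 * (1 + η))) * Real.log t) := by nlinarith
  calc _ ≤ _ := add_le_add (hmean.trans h9) (hints.trans h10)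
    _ = _ := by ring

end Pool.Agent.U160.LZ
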