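import Pool.Agent.U160.LZ.Stm

/-!
# Project LZ, package MB: the mean is bounded
-/

set_option autoImplicit false

namespace Pool.Agent.U160.LZ

open MeasureTheory ProbabilityTheory Finset Pool.Agent.U160.GC

/-- package MB -/
theorem t_MB : S_VD → S_MB := by
  rintro ⟨C, hC, h⟩ δ hδ hδ1
  refine ⟨2 * C / δ + C + 3, by positivity, ?_⟩
  intro t N ht hN1 hN2
  obtain ⟨hv1, hv2⟩ : (∀ a : ℝ, 0 ≤ a → a ≤ 1 → ∀ x : ℕ, (x : ℝ) ≤ t →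
      ‖∑ n ∈ range x, (((n : ℝ) + 1 + a : ℝ) : ℂ) ^ (1 - pp t)‖ ≤ C * t) ∧
      (∀ a : ℝ, 0 ≤ a → a ≤ 1 → ∀ x y : ℕ, t - 1 ≤ x → x ≤ y → (y : ℝ) ≤ 2 * t ^ 2 →
        ‖∑ n ∈ Ico x y, (((n : ℝ) + 1 + a : ℝ) : ℂ) ^ (-(pp t))‖ ≤ C) :=
    ⟨fun a h0 h1 => (h a h0 h1 t ht).1, fun a h0 h1 => (h a h0 h1 t ht).2⟩
  have ht0 : 0 < t := by linarith
  have hs1 : (1 - pp t).im = -t := by simp [pp]
  have hs2 : (1 - pp t).re = 1 / 2 := by simp [pp]; norm_num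
  have hnorm : t ≤ ‖1 - pp t‖ := by
    have h1 := Complex.abs_im_le_norm (1 - pp t)
    rwa [hs1, abs_neg, abs_of_pos ht0] at h1
  have hnpos : 0 < ‖1 - pp t‖ := by linarith
  have hcp : ∀ a b : ℝ, ∫ v in a..b, (v : ℂ) ^ (-(pp t)) =
      ((b : ℂ) ^ (1 - pp t) - (a : ℂ) ^ (1 - pp t)) / (1 - pp t) := by
    intro a b
    rw [integral_cpow (Or.inl (by simp [pp]; norm_num)), show -(pp t) + 1 = 1 - pp t by ring]
  -- the integrals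
  have hB : ‖∑ n ∈ range N, ∫ v in ((n : ℝ) + 1)..((n : ℝ) + 2), (v : ℂ) ^ (-(pp t))‖ ≤ 3 := by
    have e : ∑ n ∈ range N, ∫ v in ((n : ℝ) + 1)..((n : ℝ) + 2), (v : ℂ) ^ (-(pp t)) =
        ((((N : ℝ) + 1 : ℝ) : ℂ) ^ (1 - pp t) - 1) / (1 - pp t) := by
      obtain ⟨F, hF⟩ : ∃ F : ℕ → ℂ, ∀ m : ℕ,
          F m = ((((m : ℝ) + 1 : ℝ) : ℂ) ^ (1 - pp t)) / (1 - pp t) := ⟨_, fun _ => rfl⟩
      have e1 : ∀ n ∈ range N, ∫ v in ((n : ℝ) + 1)..((n : ℝ) + 2), (v : ℂ) ^ (-(pp t)) =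
          F (n + 1) - F n := by
        intro n _
        rw [hcp, hF, hF]
        rw [show (((n + 1 : ℕ) : ℝ) + 1) = (n : ℝ) + 2 by push_cast; ring]
        ring
      rw [sum_congr rfl e1, sum_range_sub F N, hF, hF]
      simp only [Nat.cast_zero, zero_add, Complex.ofReal_one, Complex.one_cpow]
      ring
    rw [e, norm_div, div_le_iff₀ hnpos]
    have h1 : ‖(((N : ℝ) + 1 : ℝ) : ℂ) ^ (1 - pp t)‖ ≤ t + 1 := by
      rw [Complex.norm_cpow_eq_rpow_re_of_pos (by positivity), hs2, ← Real.sqrt_eq_rpow]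
      rw [Real.sqrt_le_left (by linarith)]
      nlinarith
    calc ‖(((N : ℝ) + 1 : ℝ) : ℂ) ^ (1 - pp t) - 1‖ ≤
        ‖(((N : ℝ) + 1 : ℝ) : ℂ) ^ (1 - pp t)‖ + ‖(1 : ℂ)‖ := norm_sub_le _ _
      _ ≤ 3 * ‖1 - pp t‖ := by rw [norm_one]; linarith
  -- one mean
  have hA : ∀ n : ℕ, (∫ u in (0 : ℝ)..1, (((n : ℝ) + 1 + δ * u : ℝ) : ℂ) ^ (-(pp t))) =
      (δ : ℂ)⁻¹ * (((((n : ℝ) + 1 + δ : ℝ) : ℂ) ^ (1 - pp t) -
        (((n : ℝ) + 1 + 0 : ℝ) : ℂ) ^ (1 - pp t)) / (1 - pp t)) := by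
    intro n
    have h1 := intervalIntegral.integral_comp_add_mul (a := 0) (b := 1)
      (fun v : ℝ => (v : ℂ) ^ (-(pp t))) hδ.ne' ((n : ℝ) + 1)
    rw [h1, hcp, mul_one, mul_zero, Complex.real_smul, Complex.ofReal_inv]
  set K : ℕ := ⌊t⌋₊ with hK
  have hK1 : (K : ℝ) ≤ t := Nat.floor_le ht0.le
  have hK2 : t - 1 ≤ (K : ℝ) := (Nat.sub_one_lt_floor t).le
  have hKN : K ≤ N := by
    have : (K : ℝ) ≤ (N : ℝ) := by nlinarith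
    exact_mod_cast this
  have hA1 : ‖∑ n ∈ range K, ∫ u in (0 : ℝ)..1, (((n : ℝ) + 1 + δ * u : ℝ) : ℂ) ^ (-(pp t))‖ ≤
      2 * C / δ := by
    have e : ∑ n ∈ range K, ∫ u in (0 : ℝ)..1, (((n : ℝ) + 1 + δ * u : ℝ) : ℂ) ^ (-(pp t)) =
        (δ : ℂ)⁻¹ * ((∑ n ∈ range K, (((n : ℝ) + 1 + δ : ℝ) : ℂ) ^ (1 - pp t) -
          ∑ n ∈ range K, (((n : ℝ) + 1 + 0 : ℝ) : ℂ) ^ (1 - pp t)) / (1 - pp t)) := by
      rw [sum_congr rfl fun n _ => hA n, ← mul_sum, ← sum_div, sum_sub_distrib]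
    rw [e, norm_mul, norm_div, norm_inv, Complex.norm_real, Real.norm_of_nonneg hδ.le]
    have h1 := hv1 δ hδ.le hδ1 K hK1
    have h2 := hv1 0 le_rfl zero_le_one K hK1
    have h3 : ‖∑ n ∈ range K, (((n : ℝ) + 1 + δ : ℝ) : ℂ) ^ (1 - pp t) -
          ∑ n ∈ range K, (((n : ℝ) + 1 + 0 : ℝ) : ℂ) ^ (1 - pp t)‖ ≤ 2 * C * t := by
      refine (norm_sub_le _ _).trans ?_
      linarith
    have h4 : ‖∑ n ∈ range K, (((n : ℝ) + 1 + δ : ℝ) : ℂ) ^ (1 - pp t) -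
          ∑ n ∈ range K, (((n : ℝ) + 1 + 0 : ℝ) : ℂ) ^ (1 - pp t)‖ / ‖1 - pp t‖ ≤ 2 * C := by
      rw [div_le_iff₀ hnpos]
      have : 2 * C * t ≤ 2 * C * ‖1 - pp t‖ := mul_le_mul_of_nonneg_left hnorm (by positivity)
      linarith
    calc δ⁻¹ * (‖∑ n ∈ range K, (((n : ℝ) + 1 + δ : ℝ) : ℂ) ^ (1 - pp t) -
          ∑ n ∈ range K, (((n : ℝ) + 1 + 0 : ℝ) : ℂ) ^ (1 - pp t)‖ / ‖1 - pp t‖) ≤
        δ⁻¹ * (2 * C) := mul_le_mul_of_nonneg_left h4 (by positivity)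
      _ = 2 * C / δ := by field_simp
  have hA2 : ‖∑ n ∈ Ico K N, ∫ u in (0 : ℝ)..1, (((n : ℝ) + 1 + δ * u : ℝ) : ℂ) ^ (-(pp t))‖ ≤
      C := by
    rw [← intervalIntegral.integral_finsetSum]
    · have h1 : ∀ u ∈ Set.uIoc (0 : ℝ) 1,
          ‖∑ n ∈ Ico K N, (((n : ℝ) + 1 + δ * u : ℝ) : ℂ) ^ (-(pp t))‖ ≤ C := by
        intro u hu
        rw [Set.uIoc_of_le zero_le_one] at hu
        refine hv2 (δ * u) (mul_nonneg hδ.le hu.1.le) ?_ K N hK2 hKN (by nlinarith)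
        nlinarith [hu.1, hu.2]
      have h2 := intervalIntegral.norm_integral_le_of_norm_le_const h1
      simpa using h2
    · intro n _
      refine ContinuousOn.intervalIntegrable ?_
      refine ContinuousOn.cpow_const ?_ ?_
      · fun_prop
      · intro u hu
        rw [Set.uIcc_of_le zero_le_one] at hu
        refine Complex.ofReal_mem_slitPlane.2 ?_
        have : 0 ≤ δ * u := mul_nonneg hδ.le hu.1
        positivity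
  rw [sum_sub_distrib, ← sum_range_add_sum_Ico _ hKN]
  refine (norm_sub_le _ _).trans ?_
  have h5 := norm_add_le
    (∑ n ∈ range K, ∫ u in (0 : ℝ)..1, (((n : ℝ) + 1 + δ * u : ℝ) : ℂ) ^ (-(pp t)))
    (∑ n ∈ Ico K N, ∫ u in (0 : ℝ)..1, (((n : ℝ) + 1 + δ * u : ℝ) : ℂ) ^ (-(pp t)))
  linarith

end Pool.Agent.U160.LZ
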