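import Pool.Agent.U160.GC.Stm

set_option autoImplicit false

/-!
# Project LZ: the Lindelöf hypothesis for perturbed zeta functions

`Z θ s = 1/(s-1) + ∑_{n ≥ 1} ((n + θ_n)^(-s) - ∫_n^(n+1) v^(-s) dv)`, the continuation of `∑ (n + θ_n)^(-s)` to
`Re s > 0` (`0 ≤ θ_n ≤ 1`); for `θ = 0` it is the Riemann zeta function.  THEOREM: for every `δ > 0` the Lindelöf
hypothesis `|Z θ (1/2+it)| ≤ C_ε t^ε` holds for `θ_n = δ {P(n)}` and almost every real polynomial `P` of large degree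
(and `≤ C log t` for `θ_n = δ U_n`, `U_n` independent uniform in `[0,1]`).
(The index `n` of the sums below is shifted by one: it is `n + 1` of the text.)
-/

namespace Pool.Agent.U160.LZ

open MeasureTheory ProbabilityTheory Finset Pool.Agent.U160.GC

noncomputable section

/-- the perturbed number `n + 1 + θ(n+1)` (with `θ` truncated to `[0,1]`) -/
def yy (θ : ℕ → ℝ) (n : ℕ) : ℝ := (n : ℝ) + 1 + clip (θ (n + 1))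

/-- the summands -/
def Y (θ : ℕ → ℝ) (s : ℂ) (n : ℕ) : ℂ :=
  (yy θ n : ℂ) ^ (-s) - ∫ v in ((n : ℝ) + 1)..((n : ℝ) + 2), (v : ℂ) ^ (-s)

/-- the perturbed zeta function -/
def Z (θ : ℕ → ℝ) (s : ℂ) : ℂ := 1 / (s - 1) + ∑' n : ℕ, Y θ s n

/-- the point `1/2 + it` -/
def pp (t : ℝ) : ℂ := ⟨1 / 2, t⟩

/-- package ZA: analytic continuation -/
def S_ZA : Prop := ∀ θ : ℕ → ℝ, (∀ s : ℂ, 0 < s.re → Summable (Y θ s)) ∧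
  AnalyticOnNhd ℂ (Z θ) {s : ℂ | 0 < s.re ∧ s ≠ 1} ∧
  (∀ s : ℂ, 1 < s.re → Summable (fun n : ℕ => (yy θ n : ℂ) ^ (-s)) ∧ Z θ s = ∑' n : ℕ, (yy θ n : ℂ) ^ (-s))

/-- package ZL: Lipschitz bound on the critical line -/
def S_ZL : Prop := ∃ C : ℝ, 0 < C ∧ ∀ (θ : ℕ → ℝ) (t t' : ℝ), 1 ≤ t → t ≤ t' → t' ≤ t + 1 →
  ‖Z θ (pp t') - Z θ (pp t)‖ ≤ C * t ^ 2 * (t' - t)

/-- package ZC: oscillations, sums of squares and tails -/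
def S_ZC : Prop := ∃ C : ℝ, 0 < C ∧
  (∀ t : ℝ, 2 ≤ t → ∃ c : ℕ → ℝ, (∀ n, 0 ≤ c n) ∧
    (∀ (n : ℕ) (a b : ℝ), a ∈ Set.Icc ((n : ℝ) + 1) (n + 2) → b ∈ Set.Icc ((n : ℝ) + 1) (n + 2) →
      ‖(a : ℂ) ^ (-(pp t)) - (b : ℂ) ^ (-(pp t))‖ ≤ c n) ∧
    ∀ N : ℕ, ∑ n ∈ range N, c n ^ 2 ≤ C * Real.log t) ∧
  (∀ (θ : ℕ → ℝ) (t : ℝ) (N : ℕ), 1 ≤ t → t ^ 2 ≤ N → ‖∑' n : ℕ, Y θ (pp t) (n + N)‖ ≤ C)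

/-- package VD: exponential sums -/
def S_VD : Prop := ∃ C : ℝ, 0 < C ∧ ∀ a : ℝ, 0 ≤ a → a ≤ 1 → ∀ t : ℝ, 2 ≤ t →
  (∀ x : ℕ, (x : ℝ) ≤ t → ‖∑ n ∈ range x, (((n : ℝ) + 1 + a : ℝ) : ℂ) ^ (1 - pp t)‖ ≤ C * t) ∧
  (∀ x y : ℕ, t - 1 ≤ x → x ≤ y → (y : ℝ) ≤ 2 * t ^ 2 →
    ‖∑ n ∈ Ico x y, (((n : ℝ) + 1 + a : ℝ) : ℂ) ^ (-(pp t))‖ ≤ C)

/-- package MB (from `S_VD`): the mean is bounded -/
def S_MB : Prop := ∀ δ : ℝ, 0 < δ → δ ≤ 1 → ∃ C : ℝ, 0 < C ∧ ∀ (t : ℝ) (N : ℕ), 2 ≤ t → t ^ 2 ≤ N →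
  (N : ℝ) ≤ t ^ 2 + 1 →
  ‖∑ n ∈ range N, ((∫ u in (0 : ℝ)..1, (((n : ℝ) + 1 + δ * u : ℝ) : ℂ) ^ (-(pp t))) -
    ∫ v in ((n : ℝ) + 1)..((n : ℝ) + 2), (v : ℂ) ^ (-(pp t)))‖ ≤ C

end

end Pool.Agent.U160.LZ
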