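import Mathlib
import Pool.Agent.U160.LZ.Stm

set_option autoImplicit false

/-!
# Project LZ, package ZA: analytic continuation of the perturbed zeta function
-/

namespace Pool.Agent.U160.LZ

open MeasureTheory ProbabilityTheory Finset Pool.Agent.U160.GC

noncomputable section

private lemma za_clip_nonneg (x : ℝ) : 0 ≤ clip x := by
  unfold clip; simp

private lemma za_clip_le (x : ℝ) : clip x ≤ 1 := by
  unfold clip; simp

private lemma za_yy_mem (θ : ℕ → ℝ) (n : ℕ) : yy θ n ∈ Set.Icc ((n : ℝ) + 1) (n + 2) := by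
  unfold yy
  constructor
  · linarith [za_clip_nonneg (θ (n + 1))]
  · linarith [za_clip_le (θ (n + 1))]

private lemma za_osc (s : ℂ) (hs : 0 < s.re) (n : ℕ) (a b : ℝ)
    (ha : a ∈ Set.Icc ((n : ℝ) + 1) (n + 2)) (hb : b ∈ Set.Icc ((n : ℝ) + 1) (n + 2)) :
    ‖(a : ℂ) ^ (-s) - (b : ℂ) ^ (-s)‖ ≤ ‖s‖ * ((n : ℝ) + 1) ^ (-s.re - 1) := by
  have hn : (0 : ℝ) < (n : ℝ) + 1 := by positivity
  have hd : ∀ x ∈ Set.Icc ((n : ℝ) + 1) (n + 2),
      HasDerivWithinAt (fun v : ℝ => (v : ℂ) ^ (-s)) ((-s) * (x : ℂ) ^ (-s - 1))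
        (Set.Icc ((n : ℝ) + 1) (n + 2)) x := by
    intro x hx
    have hx0 : 0 < x := lt_of_lt_of_le hn hx.1
    have h1 : HasDerivAt (fun z : ℂ => z ^ (-s)) ((-s) * (x : ℂ) ^ (-s - 1) * 1) (x : ℂ) :=
      (hasDerivAt_id (x : ℂ)).cpow_const (Complex.ofReal_mem_slitPlane.2 hx0)
    rw [mul_one] at h1
    exact h1.comp_ofReal.hasDerivWithinAt
  have hbd : ∀ x ∈ Set.Icc ((n : ℝ) + 1) (n + 2),
      ‖(-s) * (x : ℂ) ^ (-s - 1)‖ ≤ ‖s‖ * ((n : ℝ) + 1) ^ (-s.re - 1) := by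
    intro x hx
    have hx0 : 0 < x := lt_of_lt_of_le hn hx.1
    rw [norm_mul, norm_neg, Complex.norm_cpow_eq_rpow_re_of_pos hx0]
    have : (-s - 1).re = -s.re - 1 := by simp
    rw [this]
    exact mul_le_mul_of_nonneg_left
      (Real.rpow_le_rpow_of_nonpos hn hx.1 (by linarith)) (norm_nonneg _)
  have h := (convex_Icc ((n : ℝ) + 1) (n + 2)).norm_image_sub_le_of_norm_hasDerivWithin_le
    hd hbd hb ha
  refine h.trans ?_
  have h2 : ‖a - b‖ ≤ 1 := by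
    rw [Real.norm_eq_abs, abs_le]
    constructor <;> linarith [ha.1, ha.2, hb.1, hb.2]
  exact mul_le_of_le_one_right (by positivity) h2

private lemma za_int_cont (s : ℂ) (n : ℕ) :
    ContinuousOn (fun v : ℝ => (v : ℂ) ^ (-s)) (Set.uIcc ((n : ℝ) + 1) (n + 2)) := by
  have hn : (0 : ℝ) < (n : ℝ) + 1 := by positivity
  intro x hx
  rw [Set.uIcc_of_le (by linarith)] at hx
  have hx0 : 0 < x := lt_of_lt_of_le hn hx.1
  have h1 : HasDerivAt (fun z : ℂ => z ^ (-s)) ((-s) * (x : ℂ) ^ (-s - 1) * 1) (x : ℂ) :=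
    (hasDerivAt_id (x : ℂ)).cpow_const (Complex.ofReal_mem_slitPlane.2 hx0)
  exact h1.comp_ofReal.continuousAt.continuousWithinAt

private lemma za_Y_norm (θ : ℕ → ℝ) (s : ℂ) (hs : 0 < s.re) (n : ℕ) :
    ‖Y θ s n‖ ≤ ‖s‖ * ((n : ℝ) + 1) ^ (-s.re - 1) := by
  have hn : (0 : ℝ) < (n : ℝ) + 1 := by positivity
  have e : Y θ s n = ∫ v in ((n : ℝ) + 1)..((n : ℝ) + 2),
      ((yy θ n : ℂ) ^ (-s) - (v : ℂ) ^ (-s)) := by
    unfold Y
    rw [intervalIntegral.integral_sub intervalIntegrable_const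
      (za_int_cont s n).intervalIntegrable, intervalIntegral.integral_const]
    have : ((n : ℝ) + 2 - ((n : ℝ) + 1)) = 1 := by ring
    rw [this, one_smul]
  rw [e]
  have h := intervalIntegral.norm_integral_le_of_norm_le_const
    (a := (n : ℝ) + 1) (b := (n : ℝ) + 2) (C := ‖s‖ * ((n : ℝ) + 1) ^ (-s.re - 1))
    (f := fun v : ℝ => ((yy θ n : ℂ) ^ (-s) - (v : ℂ) ^ (-s))) (by
      intro v hv
      rw [Set.uIoc_of_le (by linarith)] at hv
      exact za_osc s hs n _ _ (za_yy_mem θ n) ⟨hv.1.le, hv.2⟩)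
  refine h.trans ?_
  have : |((n : ℝ) + 2 - ((n : ℝ) + 1))| = 1 := by
    rw [show ((n : ℝ) + 2 - ((n : ℝ) + 1)) = 1 by ring]; simp
  rw [this, mul_one]

private lemma za_summable_rpow (p : ℝ) (hp : p < -1) :
    Summable (fun n : ℕ => ((n : ℝ) + 1) ^ p) := by
  have h := (summable_nat_add_iff 1).2 (Real.summable_nat_rpow.2 hp)
  refine h.congr ?_
  intro n
  push_cast
  rfl

private lemma za_Y_summable (θ : ℕ → ℝ) (s : ℂ) (hs : 0 < s.re) : Summable (Y θ s) := by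
  refine Summable.of_norm_bounded
    (g := fun n : ℕ => ‖s‖ * ((n : ℝ) + 1) ^ (-s.re - 1)) ?_ (fun n => za_Y_norm θ s hs n)
  exact (za_summable_rpow _ (by linarith)).mul_left _

private lemma za_int (s : ℂ) (hs : s ≠ 1) (n : ℕ) :
    (∫ v in ((n : ℝ) + 1)..((n : ℝ) + 2), (v : ℂ) ^ (-s)) =
      (((n : ℂ) + 2) ^ (1 - s) - ((n : ℂ) + 1) ^ (1 - s)) / (1 - s) := by
  have hn : (0 : ℝ) < (n : ℝ) + 1 := by positivity
  rw [integral_cpow]
  · push_cast
    rw [show -s + 1 = 1 - s by ring]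
  · right
    constructor
    · intro h
      exact hs (neg_injective h)
    · rw [Set.uIcc_of_le (by linarith)]
      intro h
      linarith [h.1]

private lemma za_Y_diff (θ : ℕ → ℝ) (n : ℕ) :
    DifferentiableOn ℂ (fun s : ℂ => Y θ s n) {s : ℂ | 0 < s.re ∧ s ≠ 1} := by
  have hn : (0 : ℝ) < (n : ℝ) + 1 := by positivity
  have e : ∀ s ∈ {s : ℂ | 0 < s.re ∧ s ≠ 1}, Y θ s n = (yy θ n : ℂ) ^ (-s) -
      (((n : ℂ) + 2) ^ (1 - s) - ((n : ℂ) + 1) ^ (1 - s)) / (1 - s) := by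
    intro s hs
    unfold Y
    rw [za_int s hs.2 n]
  refine DifferentiableOn.congr ?_ e
  have hy : (yy θ n : ℂ) ≠ 0 := by
    have := (za_yy_mem θ n).1
    exact_mod_cast (lt_of_lt_of_le hn this).ne'
  have h1 : ((n : ℂ) + 1) ≠ 0 := by exact_mod_cast Nat.succ_ne_zero n
  have h2 : ((n : ℂ) + 2) ≠ 0 := by exact_mod_cast Nat.succ_ne_zero (n + 1)
  intro s hs
  have h3 : (1 - s) ≠ 0 := sub_ne_zero.2 (Ne.symm hs.2)
  apply DifferentiableAt.differentiableWithinAt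
  apply DifferentiableAt.sub
  · exact DifferentiableAt.const_cpow differentiableAt_id.neg (Or.inl hy)
  · apply DifferentiableAt.div
    · apply DifferentiableAt.sub
      · exact DifferentiableAt.const_cpow (differentiableAt_id.const_sub 1) (Or.inl h2)
      · exact DifferentiableAt.const_cpow (differentiableAt_id.const_sub 1) (Or.inl h1)
    · exact differentiableAt_id.const_sub 1
    · exact h3

private lemma za_analytic (θ : ℕ → ℝ) :
    AnalyticOnNhd ℂ (Z θ) {s : ℂ | 0 < s.re ∧ s ≠ 1} := by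
  have hopen : IsOpen {s : ℂ | 0 < s.re ∧ s ≠ 1} :=
    (isOpen_lt continuous_const Complex.continuous_re).inter isOpen_ne
  apply DifferentiableOn.analyticOnNhd _ hopen
  intro s₀ hs₀
  have hs₀' : 0 < s₀.re := hs₀.1
  have hVo : IsOpen ({s : ℂ | 0 < s.re ∧ s ≠ 1} ∩ ({s : ℂ | s₀.re / 2 < s.re} ∩
      Metric.ball s₀ 1)) :=
    hopen.inter ((isOpen_lt continuous_const Complex.continuous_re).inter Metric.isOpen_ball)
  have hmem : s₀ ∈ ({s : ℂ | 0 < s.re ∧ s ≠ 1} ∩ ({s : ℂ | s₀.re / 2 < s.re} ∩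
      Metric.ball s₀ 1)) := by
    refine ⟨hs₀, ?_, Metric.mem_ball_self one_pos⟩
    show s₀.re / 2 < s₀.re
    linarith
  have hd : DifferentiableOn ℂ (fun w => ∑' n : ℕ, Y θ w n)
      ({s : ℂ | 0 < s.re ∧ s ≠ 1} ∩ ({s : ℂ | s₀.re / 2 < s.re} ∩ Metric.ball s₀ 1)) := by
    refine Complex.differentiableOn_tsum_of_summable_norm
      (u := fun n : ℕ => (‖s₀‖ + 1) * ((n : ℝ) + 1) ^ (-(s₀.re / 2) - 1)) ?_ ?_ hVo ?_
    · exact (za_summable_rpow _ (by linarith)).mul_left _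
    · intro n
      exact (za_Y_diff θ n).mono Set.inter_subset_left
    · intro n w hw
      have hw1 : 0 < w.re := hw.1.1
      have hw2 : s₀.re / 2 < w.re := hw.2.1
      have hw3 : ‖w‖ ≤ ‖s₀‖ + 1 := by
        have h := mem_ball_iff_norm.1 hw.2.2
        calc ‖w‖ = ‖s₀ + (w - s₀)‖ := by ring_nf
          _ ≤ ‖s₀‖ + ‖w - s₀‖ := norm_add_le _ _
          _ ≤ ‖s₀‖ + 1 := by linarith
      refine (za_Y_norm θ w hw1 n).trans ?_
      have h1 : (1 : ℝ) ≤ (n : ℝ) + 1 := by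
        have : (0 : ℝ) ≤ (n : ℝ) := Nat.cast_nonneg n
        linarith
      refine mul_le_mul hw3 (Real.rpow_le_rpow_of_exponent_le h1 (by linarith))
        (by positivity) (by positivity)
  have h1 : DifferentiableAt ℂ (fun w => ∑' n : ℕ, Y θ w n) s₀ :=
    hd.differentiableAt (hVo.mem_nhds hmem)
  have h2 : DifferentiableAt ℂ (fun s : ℂ => 1 / (s - 1)) s₀ :=
    (differentiableAt_const _).div (differentiableAt_id.sub_const 1) (sub_ne_zero.2 hs₀.2)
  exact (h2.add h1).differentiableWithinAt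

private lemma za_tendsto (s : ℂ) (hs : 1 < s.re) :
    Filter.Tendsto (fun N : ℕ => ((N : ℂ) + 1) ^ (1 - s) / (1 - s)) Filter.atTop (nhds 0) := by
  rw [tendsto_zero_iff_norm_tendsto_zero]
  have e : ∀ N : ℕ, ‖((N : ℂ) + 1) ^ (1 - s) / (1 - s)‖ =
      ((N : ℝ) + 1) ^ (-(s.re - 1)) / ‖1 - s‖ := by
    intro N
    have hn : (0 : ℝ) < (N : ℝ) + 1 := by positivity
    have h1 : ((N : ℂ) + 1) = (((N : ℝ) + 1 : ℝ) : ℂ) := by push_cast; rfl
    rw [norm_div, h1, Complex.norm_cpow_eq_rpow_re_of_pos hn]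
    have : (1 - s).re = -(s.re - 1) := by simp
    rw [this]
  simp_rw [e]
  have h0 : Filter.Tendsto (fun N : ℕ => ((N : ℝ) + 1) ^ (-(s.re - 1))) Filter.atTop (nhds 0) := by
    have h1 := tendsto_rpow_neg_atTop (y := s.re - 1) (by linarith)
    have h2 : Filter.Tendsto (fun N : ℕ => (N : ℝ) + 1) Filter.atTop Filter.atTop :=
      Filter.tendsto_atTop_add_const_right _ _ tendsto_natCast_atTop_atTop
    exact h1.comp h2
  have h3 := h0.div_const ‖1 - s‖
  rwa [zero_div] at h3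

private lemma za_right (θ : ℕ → ℝ) (s : ℂ) (hs : 1 < s.re) :
    Summable (fun n : ℕ => (yy θ n : ℂ) ^ (-s)) ∧
      Z θ s = ∑' n : ℕ, (yy θ n : ℂ) ^ (-s) := by
  have hs1 : s ≠ 1 := by
    rintro rfl
    simp at hs
  have hsum : Summable (fun n : ℕ => (yy θ n : ℂ) ^ (-s)) := by
    refine Summable.of_norm_bounded (g := fun n : ℕ => ((n : ℝ) + 1) ^ (-s.re))
      (za_summable_rpow _ (by linarith)) ?_
    intro n
    have hn : (0 : ℝ) < (n : ℝ) + 1 := by positivity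
    have hy := (za_yy_mem θ n).1
    rw [Complex.norm_cpow_eq_rpow_re_of_pos (lt_of_lt_of_le hn hy)]
    rw [Complex.neg_re]
    exact Real.rpow_le_rpow_of_nonpos hn hy (by linarith)
  refine ⟨hsum, ?_⟩
  have hY := za_Y_summable θ s (by linarith)
  have hI : Summable (fun n : ℕ => ∫ v in ((n : ℝ) + 1)..((n : ℝ) + 2), (v : ℂ) ^ (-s)) := by
    refine (hsum.sub hY).congr ?_
    intro n
    unfold Y
    ring
  have hlim := hI.hasSum.tendsto_sum_nat
  have hlim2 : Filter.Tendsto (fun N : ℕ => ∑ n ∈ range N,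
      ∫ v in ((n : ℝ) + 1)..((n : ℝ) + 2), (v : ℂ) ^ (-s)) Filter.atTop
      (nhds (0 - 1 / (1 - s))) := by
    have e : ∀ N : ℕ, ∑ n ∈ range N, (∫ v in ((n : ℝ) + 1)..((n : ℝ) + 2), (v : ℂ) ^ (-s)) =
        ((N : ℂ) + 1) ^ (1 - s) / (1 - s) - 1 / (1 - s) := by
      intro N
      have h := Finset.sum_range_sub (fun n : ℕ => ((n : ℂ) + 1) ^ (1 - s) / (1 - s)) N
      simp only [Nat.cast_zero, zero_add, Complex.one_cpow] at h
      rw [← h]
      refine Finset.sum_congr rfl (fun n _ => ?_)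
      rw [za_int s hs1 n, sub_div]
      push_cast
      rw [show ((n : ℂ) + 1 + 1) = (n : ℂ) + 2 by ring]
    simp_rw [e]
    exact (za_tendsto s hs).sub_const _
  have hI' := tendsto_nhds_unique hlim hlim2
  have e2 : Z θ s = 1 / (s - 1) + ((∑' n : ℕ, (yy θ n : ℂ) ^ (-s)) -
      ∑' n : ℕ, ∫ v in ((n : ℝ) + 1)..((n : ℝ) + 2), (v : ℂ) ^ (-s)) := by
    unfold Z Y
    rw [hsum.tsum_sub hI]
  rw [e2, hI']
  have h4 : s - 1 ≠ 0 := sub_ne_zero.2 hs1
  have h5 : (1 : ℂ) / (1 - s) = -(1 / (s - 1)) := by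
    rw [← neg_sub s 1, one_div, one_div, inv_neg]
  rw [h5]
  ring

theorem t_ZA : S_ZA := fun θ =>
  ⟨fun s hs => za_Y_summable θ s hs, za_analytic θ, fun s hs => za_right θ s hs⟩

end

end Pool.Agent.U160.LZ
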