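import Pool.Agent.U160.LZ.Stm

set_option autoImplicit false

namespace Pool.Agent.U160.LZ

open MeasureTheory ProbabilityTheory Finset Pool.Agent.U160.GC

namespace ZC

lemma pp_re (t : ℝ) : (pp t).re = 1 / 2 := rfl

lemma norm_pp {t : ℝ} (ht : 1 ≤ t) : ‖pp t‖ ≤ 2 * t := by
  have h := Complex.norm_le_abs_re_add_abs_im (pp t)
  have h1 : |(pp t).re| = 1 / 2 := by rw [pp_re]; norm_num
  have h2 : |(pp t).im| = t := by
    show |t| = t
    exact abs_of_nonneg (by linarith)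
  rw [h1, h2] at h
  linarith

lemma norm_pow (t : ℝ) {x : ℝ} (hx : 0 < x) : ‖(x : ℂ) ^ (-(pp t))‖ = x ^ (-(1 / 2) : ℝ) := by
  rw [Complex.norm_cpow_eq_rpow_re_of_pos hx, Complex.neg_re, pp_re]

lemma hasDeriv (t : ℝ) {x : ℝ} (hx : 0 < x) :
    HasDerivAt (fun y : ℝ => (y : ℂ) ^ (-(pp t))) (-(pp t) * (x : ℂ) ^ (-(pp t) - 1) * 1) x := by
  have h : HasDerivAt (fun y : ℂ => y ^ (-(pp t))) (-(pp t) * (x : ℂ) ^ (-(pp t) - 1) * 1) (x : ℂ) :=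
    (hasDerivAt_id (x : ℂ)).cpow_const (Complex.ofReal_mem_slitPlane.2 hx)
  exact h.comp_ofReal

lemma mvt {t : ℝ} (ht : 1 ≤ t) (n : ℕ) {a b : ℝ} (ha : a ∈ Set.Icc ((n : ℝ) + 1) (n + 2))
    (hb : b ∈ Set.Icc ((n : ℝ) + 1) (n + 2)) :
    ‖(a : ℂ) ^ (-(pp t)) - (b : ℂ) ^ (-(pp t))‖ ≤ 2 * t * ((n : ℝ) + 1) ^ (-(3 / 2) : ℝ) := by
  have hn : (0 : ℝ) < (n : ℝ) + 1 := by positivity
  have hder : ∀ x ∈ Set.Icc ((n : ℝ) + 1) (n + 2), HasDerivWithinAt (fun y : ℝ => (y : ℂ) ^ (-(pp t)))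
      (-(pp t) * (x : ℂ) ^ (-(pp t) - 1) * 1) (Set.Icc ((n : ℝ) + 1) (n + 2)) x := by
    intro x hx
    exact (hasDeriv t (lt_of_lt_of_le hn hx.1)).hasDerivWithinAt
  have hbd : ∀ x ∈ Set.Icc ((n : ℝ) + 1) (n + 2), ‖-(pp t) * (x : ℂ) ^ (-(pp t) - 1) * 1‖ ≤
      2 * t * ((n : ℝ) + 1) ^ (-(3 / 2) : ℝ) := by
    intro x hx
    have hx0 : 0 < x := lt_of_lt_of_le hn hx.1
    rw [mul_one, norm_mul, norm_neg, Complex.norm_cpow_eq_rpow_re_of_pos hx0]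
    have h1 : (-(pp t) - 1).re = (-(3 / 2) : ℝ) := by
      rw [Complex.sub_re, Complex.neg_re, pp_re, Complex.one_re]
      norm_num
    rw [h1]
    have h2 : x ^ (-(3 / 2) : ℝ) ≤ ((n : ℝ) + 1) ^ (-(3 / 2) : ℝ) :=
      Real.rpow_le_rpow_of_nonpos hn hx.1 (by norm_num)
    exact mul_le_mul (norm_pp ht) h2 (by positivity) (by linarith)
  have h := (convex_Icc ((n : ℝ) + 1) ((n : ℝ) + 2)).norm_image_sub_le_of_norm_hasDerivWithin_le hder hbd hb ha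
  refine h.trans ?_
  have h3 : ‖a - b‖ ≤ 1 := by
    rw [Real.norm_eq_abs, abs_le]
    constructor <;> linarith [ha.1, ha.2, hb.1, hb.2]
  calc 2 * t * ((n : ℝ) + 1) ^ (-(3 / 2) : ℝ) * ‖a - b‖
      ≤ 2 * t * ((n : ℝ) + 1) ^ (-(3 / 2) : ℝ) * 1 :=
        mul_le_mul_of_nonneg_left h3 (by positivity)
    _ = _ := mul_one _

lemma triv (t : ℝ) (n : ℕ) {a b : ℝ} (ha : a ∈ Set.Icc ((n : ℝ) + 1) (n + 2))
    (hb : b ∈ Set.Icc ((n : ℝ) + 1) (n + 2)) :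
    ‖(a : ℂ) ^ (-(pp t)) - (b : ℂ) ^ (-(pp t))‖ ≤ 2 * ((n : ℝ) + 1) ^ (-(1 / 2) : ℝ) := by
  have hn : (0 : ℝ) < (n : ℝ) + 1 := by positivity
  refine (norm_sub_le _ _).trans ?_
  rw [norm_pow t (lt_of_lt_of_le hn ha.1), norm_pow t (lt_of_lt_of_le hn hb.1)]
  have h1 : a ^ (-(1 / 2) : ℝ) ≤ ((n : ℝ) + 1) ^ (-(1 / 2) : ℝ) :=
    Real.rpow_le_rpow_of_nonpos hn ha.1 (by norm_num)
  have h2 : b ^ (-(1 / 2) : ℝ) ≤ ((n : ℝ) + 1) ^ (-(1 / 2) : ℝ) :=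
    Real.rpow_le_rpow_of_nonpos hn hb.1 (by norm_num)
  linarith

/-- the oscillations -/
noncomputable def cc (t : ℝ) (n : ℕ) : ℝ :=
  min (2 * ((n : ℝ) + 1) ^ (-(1 / 2) : ℝ)) (2 * t * ((n : ℝ) + 1) ^ (-(3 / 2) : ℝ))

lemma cc_nonneg {t : ℝ} (ht : 1 ≤ t) (n : ℕ) : 0 ≤ cc t n := by
  unfold cc
  exact le_min (by positivity) (by positivity)

lemma cc_sq1 {t : ℝ} (ht : 1 ≤ t) (n : ℕ) : cc t n ^ 2 ≤ 4 * ((n : ℝ) + 1)⁻¹ := by
  have hn : (0 : ℝ) < (n : ℝ) + 1 := by positivity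
  have h1 : cc t n ≤ 2 * ((n : ℝ) + 1) ^ (-(1 / 2) : ℝ) := min_le_left _ _
  have h2 : cc t n ^ 2 ≤ (2 * ((n : ℝ) + 1) ^ (-(1 / 2) : ℝ)) ^ 2 := pow_le_pow_left₀ (cc_nonneg ht n) h1 2
  refine h2.trans (le_of_eq ?_)
  rw [mul_pow, ← Real.rpow_natCast (((n : ℝ) + 1) ^ (-(1 / 2) : ℝ)) 2, ← Real.rpow_mul hn.le]
  norm_num
  rw [Real.rpow_neg_one]

lemma cc_sq2 {t : ℝ} (ht : 1 ≤ t) (n : ℕ) : cc t n ^ 2 ≤ 4 * t ^ 2 * (((n : ℝ) + 1) ^ 3)⁻¹ := by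
  have hn : (0 : ℝ) < (n : ℝ) + 1 := by positivity
  have h1 : cc t n ≤ 2 * t * ((n : ℝ) + 1) ^ (-(3 / 2) : ℝ) := min_le_right _ _
  have h2 : cc t n ^ 2 ≤ (2 * t * ((n : ℝ) + 1) ^ (-(3 / 2) : ℝ)) ^ 2 :=
    pow_le_pow_left₀ (cc_nonneg ht n) h1 2
  refine h2.trans (le_of_eq ?_)
  rw [mul_pow, ← Real.rpow_natCast (((n : ℝ) + 1) ^ (-(3 / 2) : ℝ)) 2, ← Real.rpow_mul hn.le]
  have h3 : (-(3 / 2) : ℝ) * ((2 : ℕ) : ℝ) = -((3 : ℕ) : ℝ) := by norm_num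
  rw [h3, Real.rpow_neg hn.le, Real.rpow_natCast]
  ring

lemma sum_cc {t : ℝ} (ht : 2 ≤ t) (N : ℕ) : ∑ n ∈ range N, cc t n ^ 2 ≤ 44 * Real.log t := by
  have ht1 : 1 ≤ t := by linarith
  obtain ⟨T, hT⟩ : ∃ T : ℕ, T = ⌊t⌋₊ := ⟨_, rfl⟩
  have hTt : (T : ℝ) ≤ t := by rw [hT]; exact Nat.floor_le (by linarith)
  have htT : t < T + 1 := by rw [hT]; exact Nat.lt_floor_add_one t
  have hT1 : 1 ≤ T := by rw [hT]; exact Nat.le_floor (by exact_mod_cast ht1)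
  have hT1' : (1 : ℝ) ≤ T := by exact_mod_cast hT1
  have hsub : range N ⊆ range T ∪ Ico T N := by
    intro n hn
    rw [mem_range] at hn
    rw [mem_union, mem_range, mem_Ico]
    by_cases h : n < T
    · exact Or.inl h
    · exact Or.inr ⟨not_lt.1 h, hn⟩
  have hdisj : Disjoint (range T) (Ico T N) := by
    rw [Finset.disjoint_left]
    intro n h1 h2
    rw [mem_range] at h1
    rw [mem_Ico] at h2
    omega
  have hA : ∑ n ∈ range T, cc t n ^ 2 ≤ 4 * (1 + Real.log t) := by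
    calc ∑ n ∈ range T, cc t n ^ 2 ≤ ∑ n ∈ range T, 4 * ((n : ℝ) + 1)⁻¹ :=
          sum_le_sum fun n _ => cc_sq1 ht1 n
      _ = 4 * ∑ n ∈ range T, ((n : ℝ) + 1)⁻¹ := by rw [mul_sum]
      _ ≤ 4 * (1 + Real.log T) := by
          have h := harmonic_le_one_add_log T
          have h2 : ((harmonic T : ℚ) : ℝ) = ∑ n ∈ range T, ((n : ℝ) + 1)⁻¹ := by
            unfold harmonic
            push_cast
            rfl
          rw [h2] at h
          linarith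
      _ ≤ 4 * (1 + Real.log t) := by
          have := Real.log_le_log (by linarith) hTt
          linarith
  have hB : ∀ N : ℕ, ∑ n ∈ Ico T N, (((n : ℝ) + 1) ^ 3)⁻¹ ≤ 1 / (T : ℝ) ^ 2 := by
    intro N
    by_cases hN : T ≤ N
    · have key : ∀ K : ℕ, ∑ n ∈ Ico T (T + K), (((n : ℝ) + 1) ^ 3)⁻¹ ≤ 1 / (T : ℝ) ^ 2 - 1 / ((T : ℝ) + K) ^ 2 := by
        intro K
        induction K with
        | zero => simp
        | succ K ih =>
          rw [← add_assoc, sum_Ico_succ_top (by omega)]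
          have hx : (1 : ℝ) ≤ (T : ℝ) + K := by
            have : (0 : ℝ) ≤ K := Nat.cast_nonneg K
            linarith
          have h1 : (((((T + K : ℕ) : ℝ)) + 1) ^ 3)⁻¹ ≤ 1 / ((T : ℝ) + K) ^ 2 - 1 / ((T : ℝ) + (K + 1 : ℕ)) ^ 2 := by
            push_cast
            obtain ⟨x, hxx⟩ : ∃ x : ℝ, x = (T : ℝ) + K := ⟨_, rfl⟩
            rw [← add_assoc, ← hxx]
            rw [← hxx] at hx
            have hx0 : 0 < x := by linarith
            rw [div_sub_div _ _ (by positivity) (by positivity), inv_eq_one_div, div_le_div_iff₀ (by positivity) (by positivity)]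
            have h2 : 0 ≤ x ^ 2 * (x + 1) ^ 2 := by positivity
            have h3 : 1 * (x + 1) ^ 2 - x ^ 2 * 1 = 2 * x + 1 := by ring
            rw [h3]
            have h4 : x ^ 2 ≤ (2 * x + 1) * (x + 1) := by nlinarith
            calc 1 * (x ^ 2 * (x + 1) ^ 2) = x ^ 2 * (x + 1) ^ 2 := by ring
              _ ≤ ((2 * x + 1) * (x + 1)) * (x + 1) ^ 2 := mul_le_mul_of_nonneg_right h4 (by positivity)
              _ = (2 * x + 1) * (x + 1) ^ 3 := by ring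
          linarith
      obtain ⟨K, rfl⟩ := Nat.exists_eq_add_of_le hN
      refine (key K).trans ?_
      have : 0 ≤ 1 / ((T : ℝ) + K) ^ 2 := by positivity
      linarith
    · rw [Ico_eq_empty (by omega), sum_empty]
      positivity
  have hC : ∑ n ∈ Ico T N, cc t n ^ 2 ≤ 16 := by
    calc ∑ n ∈ Ico T N, cc t n ^ 2 ≤ ∑ n ∈ Ico T N, 4 * t ^ 2 * (((n : ℝ) + 1) ^ 3)⁻¹ :=
          sum_le_sum fun n _ => cc_sq2 ht1 n
      _ = 4 * t ^ 2 * ∑ n ∈ Ico T N, (((n : ℝ) + 1) ^ 3)⁻¹ := by rw [mul_sum]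
      _ ≤ 4 * t ^ 2 * (1 / (T : ℝ) ^ 2) := mul_le_mul_of_nonneg_left (hB N) (by positivity)
      _ ≤ 16 := by
          rw [mul_one_div, div_le_iff₀ (by positivity)]
          have h1 : t ≤ 2 * T := by linarith
          have h2 : t ^ 2 ≤ (2 * T) ^ 2 := pow_le_pow_left₀ (by linarith) h1 2
          nlinarith
  have hlog : (1 : ℝ) / 2 ≤ Real.log t := by
    have h1 := Real.log_two_gt_d9
    have h2 := Real.log_le_log (by norm_num) ht
    linarith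
  calc ∑ n ∈ range N, cc t n ^ 2 ≤ ∑ n ∈ range T ∪ Ico T N, cc t n ^ 2 :=
        sum_le_sum_of_subset_of_nonneg hsub fun _ _ _ => sq_nonneg _
    _ = ∑ n ∈ range T, cc t n ^ 2 + ∑ n ∈ Ico T N, cc t n ^ 2 := sum_union hdisj
    _ ≤ 4 * (1 + Real.log t) + 16 := add_le_add hA hC
    _ ≤ 44 * Real.log t := by linarith

/-- the bound for the tail -/
lemma root_step {m : ℝ} (hm : 1 ≤ m) : m ^ (-(3 / 2) : ℝ) ≤ 4 * (1 / Real.sqrt m - 1 / Real.sqrt (m + 1)) := by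
  have hm0 : 0 < m := by linarith
  obtain ⟨a, ha⟩ : ∃ a : ℝ, a = Real.sqrt m := ⟨_, rfl⟩
  obtain ⟨b, hb⟩ : ∃ b : ℝ, b = Real.sqrt (m + 1) := ⟨_, rfl⟩
  have ha0 : 0 < a := by rw [ha]; exact Real.sqrt_pos.2 hm0
  have hb0 : 0 < b := by rw [hb]; exact Real.sqrt_pos.2 (by linarith)
  have ha2 : a ^ 2 = m := by rw [ha]; exact Real.sq_sqrt hm0.le
  have hb2 : b ^ 2 = m + 1 := by rw [hb]; exact Real.sq_sqrt (by linarith)
  have hab : a ≤ b := by rw [ha, hb]; exact Real.sqrt_le_sqrt (by linarith)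
  have h1 : m ^ (-(3 / 2) : ℝ) = 1 / a ^ 3 := by
    rw [ha, Real.sqrt_eq_rpow, ← Real.rpow_natCast (m ^ (1 / 2 : ℝ)) 3, ← Real.rpow_mul hm0.le,
      Real.rpow_neg hm0.le, one_div]
    norm_num
  rw [h1, ← ha, ← hb]
  have h2 : (b - a) * (b + a) = 1 := by nlinarith
  have h3 : 0 < b + a := by linarith
  have h4 : b - a = 1 / (b + a) := by rw [eq_div_iff h3.ne', h2]
  have h5 : 1 / a - 1 / b = 1 / (b + a) / (a * b) := by
    rw [← h4]
    field_simp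
  rw [h5, div_div, mul_one_div, div_le_div_iff₀ (by positivity) (by positivity)]
  have h6 : b ^ 2 ≤ 2 * a ^ 2 := by rw [ha2, hb2]; linarith
  have h7 : (b + a) * (a * b) ≤ 2 * b * (a * b) :=
    mul_le_mul_of_nonneg_right (by linarith) (by positivity)
  calc 1 * ((b + a) * (a * b)) ≤ 2 * b * (a * b) := by linarith
    _ = 2 * a * b ^ 2 := by ring
    _ ≤ 2 * a * (2 * a ^ 2) := mul_le_mul_of_nonneg_left h6 (by positivity)
    _ = 4 * a ^ 3 := by ring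

lemma Y_le (θ : ℕ → ℝ) {t : ℝ} (ht : 1 ≤ t) (n : ℕ) : ‖Y θ (pp t) n‖ ≤ 2 * t * ((n : ℝ) + 1) ^ (-(3 / 2) : ℝ) := by
  have hn : (0 : ℝ) < (n : ℝ) + 1 := by positivity
  have hy : yy θ n ∈ Set.Icc ((n : ℝ) + 1) (n + 2) := by
    unfold yy clip
    have h1 : 0 ≤ max 0 (min 1 (θ (n + 1))) := le_max_left _ _
    have h2 : max 0 (min 1 (θ (n + 1))) ≤ 1 := max_le (by norm_num) (min_le_left _ _)
    constructor <;> linarith
  have hcont : ContinuousOn (fun v : ℝ => (v : ℂ) ^ (-(pp t))) (Set.uIcc ((n : ℝ) + 1) ((n : ℝ) + 2)) := by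
    intro x hx
    rw [Set.uIcc_of_le (by linarith)] at hx
    exact (hasDeriv t (lt_of_lt_of_le hn hx.1)).continuousAt.continuousWithinAt
  have hint : IntervalIntegrable (fun v : ℝ => (v : ℂ) ^ (-(pp t))) volume ((n : ℝ) + 1) ((n : ℝ) + 2) :=
    hcont.intervalIntegrable
  have hconst : ∫ _v in ((n : ℝ) + 1)..((n : ℝ) + 2), (yy θ n : ℂ) ^ (-(pp t)) = (yy θ n : ℂ) ^ (-(pp t)) := by
    rw [intervalIntegral.integral_const]
    have : (n : ℝ) + 2 - (n + 1) = 1 := by ring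
    rw [this, one_smul]
  have hY : Y θ (pp t) n = ∫ v in ((n : ℝ) + 1)..((n : ℝ) + 2), ((yy θ n : ℂ) ^ (-(pp t)) - (v : ℂ) ^ (-(pp t))) := by
    rw [intervalIntegral.integral_sub intervalIntegrable_const hint, hconst]
    rfl
  rw [hY]
  refine (intervalIntegral.norm_integral_le_of_norm_le_const (C := 2 * t * ((n : ℝ) + 1) ^ (-(3 / 2) : ℝ)) ?_).trans
    (le_of_eq ?_)
  · intro v hv
    rw [Set.uIoc_of_le (by linarith)] at hv
    exact mvt ht n hy ⟨hv.1.le, hv.2⟩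
  · have : (n : ℝ) + 2 - (n + 1) = 1 := by ring
    rw [this, abs_one, mul_one]

lemma tail (θ : ℕ → ℝ) {t : ℝ} (ht : 1 ≤ t) {N : ℕ} (hN : t ^ 2 ≤ N) : ‖∑' n : ℕ, Y θ (pp t) (n + N)‖ ≤ 8 := by
  let f : ℕ → ℝ := fun n => 8 * t * (1 / Real.sqrt ((n : ℝ) + (N + 1)))
  have hf : ∀ n, f n - f (n + 1) = 8 * t * (1 / Real.sqrt ((n : ℝ) + (N + 1)) - 1 / Real.sqrt ((n : ℝ) + (N + 1) + 1)) := by
    intro n
    have h1 : (((n + 1 : ℕ) : ℝ)) + ((N : ℝ) + 1) = (n : ℝ) + (N + 1) + 1 := by push_cast; ring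
    show 8 * t * (1 / Real.sqrt ((n : ℝ) + (N + 1))) - 8 * t * (1 / Real.sqrt ((((n + 1 : ℕ) : ℝ)) + ((N : ℝ) + 1))) = _
    rw [h1]
    ring
  have hbd : ∀ n, ‖Y θ (pp t) (n + N)‖ ≤ f n - f (n + 1) := by
    intro n
    refine (Y_le θ ht (n + N)).trans ?_
    have h1 : (((n + N : ℕ) : ℝ)) + 1 = (n : ℝ) + (N + 1) := by push_cast; ring
    rw [h1, hf n]
    have h2 : (1 : ℝ) ≤ (n : ℝ) + (N + 1) := by
      have : (0 : ℝ) ≤ n := Nat.cast_nonneg n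
      have : (0 : ℝ) ≤ N := Nat.cast_nonneg N
      linarith
    have h3 := root_step h2
    have h4 : 0 ≤ 2 * t := by linarith
    calc 2 * t * ((n : ℝ) + (N + 1)) ^ (-(3 / 2) : ℝ) ≤ 2 * t * (4 * (1 / Real.sqrt ((n : ℝ) + (N + 1)) - 1 / Real.sqrt ((n : ℝ) + (N + 1) + 1))) :=
          mul_le_mul_of_nonneg_left h3 h4
      _ = _ := by ring
  have hnn : ∀ n, 0 ≤ f n - f (n + 1) := fun n => (norm_nonneg _).trans (hbd n)
  have hlim : Filter.Tendsto f Filter.atTop (nhds 0) := by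
    have h1 : Filter.Tendsto (fun n : ℕ => (n : ℝ) + (N + 1)) Filter.atTop Filter.atTop :=
      Filter.tendsto_atTop_add_const_right _ _ tendsto_natCast_atTop_atTop
    have h2 : Filter.Tendsto (fun n : ℕ => 1 / Real.sqrt ((n : ℝ) + (N + 1))) Filter.atTop (nhds 0) := by
      have h3 := (Real.tendsto_sqrt_atTop.comp h1).inv_tendsto_atTop
      refine h3.congr fun n => ?_
      simp [one_div]
    have h4 := h2.const_mul (8 * t)
    rw [mul_zero] at h4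
    exact h4
  have hsum : HasSum (fun n => f n - f (n + 1)) (f 0) := by
    rw [hasSum_iff_tendsto_nat_of_nonneg hnn]
    have h1 : ∀ n, ∑ i ∈ range n, (f i - f (i + 1)) = f 0 - f n := fun n => sum_range_sub' f n
    simp only [h1]
    have h2 := hlim.const_sub (f 0)
    rw [sub_zero] at h2
    exact h2
  refine (tsum_of_norm_bounded hsum hbd).trans ?_
  show 8 * t * (1 / Real.sqrt (((0 : ℕ) : ℝ) + (N + 1))) ≤ 8
  have h5 : t ≤ Real.sqrt (((0 : ℕ) : ℝ) + (N + 1)) := by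
    apply Real.le_sqrt_of_sq_le
    push_cast
    linarith
  have h6 : 0 < Real.sqrt (((0 : ℕ) : ℝ) + (N + 1)) := lt_of_lt_of_le (by linarith) h5
  rw [mul_one_div, div_le_iff₀ h6]
  linarith

end ZC

theorem t_ZC : S_ZC := by
  refine ⟨44, by norm_num, fun t ht => ⟨ZC.cc t, fun n => ZC.cc_nonneg (by linarith) n, fun n a b ha hb => ?_,
    fun N => ZC.sum_cc ht N⟩, fun θ t N ht hN => (ZC.tail θ ht hN).trans (by norm_num)⟩
  exact le_min (ZC.triv t n ha hb) (ZC.mvt (by linarith) n ha hb)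

end Pool.Agent.U160.LZ
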