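import Pool.Agent.U160.LZ.Stm

set_option autoImplicit false

/-!
# Project LZ, package ZL: the Lipschitz bound on the critical line
-/

namespace Pool.Agent.U160.LZ.ZLaux

open MeasureTheory Finset Pool.Agent.U160.GC Pool.Agent.U160.LZ

/-- the deviation of a function from its mean over an interval of length one -/
theorem mean_dev {F F' : ℝ → ℂ} {A B M y : ℝ} (hAB : B - A = 1)
    (hF : ∀ w ∈ Set.Icc A B, HasDerivAt F (F' w) w) (hM : ∀ w ∈ Set.Icc A B, ‖F' w‖ ≤ M)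
    (hy : y ∈ Set.Icc A B) : ‖F y - ∫ v in A..B, F v‖ ≤ M := by
  have hle : A ≤ B := by linarith
  have hc : ContinuousOn F (Set.uIcc A B) := by
    rw [Set.uIcc_of_le hle]
    exact fun w hw => (hF w hw).continuousAt.continuousWithinAt
  have hi : IntervalIntegrable F volume A B := hc.intervalIntegrable
  have h1 : F y - ∫ v in A..B, F v = ∫ v in A..B, (F y - F v) := by
    rw [intervalIntegral.integral_sub intervalIntegrable_const hi, intervalIntegral.integral_const, hAB,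
      one_smul]
  have hM0 : 0 ≤ M := (norm_nonneg _).trans (hM y hy)
  rw [h1]
  have h2 : ‖∫ v in A..B, (F y - F v)‖ ≤ M * |B - A| := by
    apply intervalIntegral.norm_integral_le_of_norm_le_const
    intro v hv
    rw [Set.uIoc_of_le hle] at hv
    have hv' : v ∈ Set.Icc A B := ⟨hv.1.le, hv.2⟩
    have h3 := (convex_Icc A B).norm_image_sub_le_of_norm_hasDerivWithin_le
      (fun w hw => (hF w hw).hasDerivWithinAt) hM hv' hy
    refine h3.trans ?_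
    have h4 : ‖y - v‖ ≤ 1 := by
      rw [Real.norm_eq_abs, abs_le]
      constructor <;> linarith [hy.1, hy.2, hv'.1, hv'.2]
    nlinarith
  rw [hAB, abs_one, mul_one] at h2
  exact h2

theorem deriv_cpow {w : ℝ} (hw : 0 < w) (s : ℂ) (hs : s ≠ 0) :
    HasDerivAt (fun v : ℝ => (v : ℂ) ^ (-s)) (-s * (w : ℂ) ^ (-s - 1)) w :=
  hasDerivAt_ofReal_cpow_const hw.ne' (neg_ne_zero.2 hs)

theorem norm_cpow {w : ℝ} (hw : 0 < w) (s : ℂ) : ‖(w : ℂ) ^ s‖ = w ^ s.re :=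
  Complex.norm_cpow_eq_rpow_re_of_pos hw s

theorem pp_re (t : ℝ) : (pp t).re = 1 / 2 := rfl

theorem pp_im (t : ℝ) : (pp t).im = t := rfl

theorem pp_ne (t : ℝ) : pp t ≠ 0 := by
  intro h
  have := congrArg Complex.re h
  rw [pp_re] at this
  norm_num at this

theorem norm_pp {t : ℝ} (ht : 0 ≤ t) : ‖pp t‖ ≤ 1 / 2 + t := by
  have h := Complex.norm_le_abs_re_add_abs_im (pp t)
  rw [pp_re, pp_im, abs_of_nonneg ht] at h
  norm_num at h
  linarith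

/-- difference of powers -/
theorem pow_diff {w : ℝ} (hw : 1 ≤ w) (t t' : ℝ) (ht : t ≤ t') :
    ‖(w : ℂ) ^ (-(pp t') - 1) - (w : ℂ) ^ (-(pp t) - 1)‖ ≤ w ^ (-(3 / 2) : ℝ) * ((t' - t) * Real.log w) := by
  have hw0 : 0 < w := by linarith
  have hwc : (w : ℂ) ≠ 0 := by exact_mod_cast hw0.ne'
  have h1 : (-(pp t') - 1 : ℂ) = (-(pp t) - 1) + Complex.I * ((-(t' - t) : ℝ) : ℂ) := by
    apply Complex.ext
    · simp [pp]
    · simp [pp]
      ring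
  have h2 : (w : ℂ) ^ (-(pp t') - 1) = (w : ℂ) ^ (-(pp t) - 1) *
      Complex.exp (Complex.I * ((-(t' - t) * Real.log w : ℝ) : ℂ)) := by
    rw [h1, Complex.cpow_add _ _ hwc]
    congr 1
    rw [Complex.cpow_def_of_ne_zero hwc, ← Complex.ofReal_log hw0.le]
    congr 1
    push_cast
    ring
  have h3 : (w : ℂ) ^ (-(pp t') - 1) - (w : ℂ) ^ (-(pp t) - 1) = (w : ℂ) ^ (-(pp t) - 1) *
      (Complex.exp (Complex.I * ((-(t' - t) * Real.log w : ℝ) : ℂ)) - 1) := by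
    rw [h2]; ring
  rw [h3, norm_mul, norm_cpow hw0]
  have h4 : (-(pp t) - 1 : ℂ).re = -(3 / 2) := by
    rw [Complex.sub_re, Complex.neg_re, pp_re, Complex.one_re]
    norm_num
  rw [h4]
  refine mul_le_mul_of_nonneg_left ?_ (by positivity)
  refine Real.norm_exp_I_mul_ofReal_sub_one_le.trans ?_
  rw [Real.norm_eq_abs, abs_mul, abs_neg, abs_of_nonneg (by linarith), abs_of_nonneg (Real.log_nonneg hw)]

theorem yy_mem (θ : ℕ → ℝ) (n : ℕ) : yy θ n ∈ Set.Icc ((n : ℝ) + 1) ((n : ℝ) + 2) := by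
  unfold yy clip
  constructor
  · have := le_max_left (0 : ℝ) (min 1 (θ (n + 1)))
    linarith
  · have : max (0 : ℝ) (min 1 (θ (n + 1))) ≤ 1 := max_le zero_le_one (min_le_left _ _)
    linarith

theorem rpow_anti {w : ℝ} {n : ℕ} (hw : (n : ℝ) + 1 ≤ w) :
    w ^ (-(3 / 2) : ℝ) ≤ ((n : ℝ) + 1) ^ (-(3 / 2) : ℝ) :=
  Real.rpow_le_rpow_of_nonpos (by positivity) hw (by norm_num)

/-- one summand -/
theorem Y_bound (θ : ℕ → ℝ) (t : ℝ) (n : ℕ) :
    ‖Y θ (pp t) n‖ ≤ ‖pp t‖ * ((n : ℝ) + 1) ^ (-(3 / 2) : ℝ) := by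
  unfold Y
  refine mean_dev (F := fun v : ℝ => (v : ℂ) ^ (-(pp t))) (F' := fun w : ℝ => -(pp t) * (w : ℂ) ^ (-(pp t) - 1))
    (by ring) (fun w hw => deriv_cpow ?_ _ (pp_ne t)) (fun w hw => ?_) (yy_mem θ n)
  · have : (0 : ℝ) ≤ n := n.cast_nonneg
    linarith [hw.1]
  · have h0 : (0 : ℝ) ≤ n := n.cast_nonneg
    have hw0 : 0 < w := by linarith [hw.1]
    rw [norm_mul, norm_neg, norm_cpow hw0]
    have h4 : (-(pp t) - 1 : ℂ).re = -(3 / 2) := by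
      rw [Complex.sub_re, Complex.neg_re, pp_re, Complex.one_re]
      norm_num
    rw [h4]
    exact mul_le_mul_of_nonneg_left (rpow_anti hw.1) (norm_nonneg _)

/-- difference of two summands -/
theorem Y_diff (θ : ℕ → ℝ) (t t' : ℝ) (n : ℕ) (ht : t ≤ t') :
    ‖Y θ (pp t') n - Y θ (pp t) n‖ ≤
      (t' - t) * (((n : ℝ) + 1) ^ (-(3 / 2) : ℝ) * (1 + ‖pp t'‖ * Real.log ((n : ℝ) + 2))) := by
  have h0 : (0 : ℝ) ≤ n := n.cast_nonneg
  set F : ℝ → ℂ := fun v : ℝ => (v : ℂ) ^ (-(pp t')) - (v : ℂ) ^ (-(pp t)) with hF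
  have hd : ∀ w : ℝ, 0 < w → HasDerivAt F (-(pp t') * (w : ℂ) ^ (-(pp t') - 1) - -(pp t) * (w : ℂ) ^ (-(pp t) - 1)) w :=
    fun w hw => (deriv_cpow hw _ (pp_ne t')).sub (deriv_cpow hw _ (pp_ne t))
  have hint : ∀ s : ℂ, s ≠ 0 → IntervalIntegrable (fun v : ℝ => (v : ℂ) ^ (-s)) volume ((n : ℝ) + 1) ((n : ℝ) + 2) := by
    intro s hs
    apply ContinuousOn.intervalIntegrable
    rw [Set.uIcc_of_le (by linarith)]
    intro w hw
    exact (deriv_cpow (by linarith [hw.1]) s hs).continuousAt.continuousWithinAt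
  have h1 : Y θ (pp t') n - Y θ (pp t) n = F (yy θ n) - ∫ v in ((n : ℝ) + 1)..((n : ℝ) + 2), F v := by
    unfold Y
    rw [hF, intervalIntegral.integral_sub (hint _ (pp_ne t')) (hint _ (pp_ne t))]
    ring
  rw [h1]
  refine mean_dev (F := F) (F' := fun w : ℝ => -(pp t') * (w : ℂ) ^ (-(pp t') - 1) - -(pp t) * (w : ℂ) ^ (-(pp t) - 1))
    (by ring) (fun w hw => hd w (by linarith [hw.1])) (fun w hw => ?_) (yy_mem θ n)
  have hw1 : 1 ≤ w := by linarith [hw.1]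
  have hw0 : 0 < w := by linarith
  have h2 : -(pp t') * (w : ℂ) ^ (-(pp t') - 1) - -(pp t) * (w : ℂ) ^ (-(pp t) - 1) =
      -(pp t') * ((w : ℂ) ^ (-(pp t') - 1) - (w : ℂ) ^ (-(pp t) - 1)) -
        (pp t' - pp t) * (w : ℂ) ^ (-(pp t) - 1) := by ring
  rw [h2]
  refine (norm_sub_le _ _).trans ?_
  rw [norm_mul, norm_mul, norm_neg, norm_cpow hw0]
  have h4 : (-(pp t) - 1 : ℂ).re = -(3 / 2) := by
    rw [Complex.sub_re, Complex.neg_re, pp_re, Complex.one_re]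
    norm_num
  rw [h4]
  have h5 : ‖pp t' - pp t‖ = t' - t := by
    have h6 : pp t' - pp t = ((t' - t : ℝ) : ℂ) * Complex.I := by
      apply Complex.ext
      · simp [pp]
      · simp [pp]
    rw [h6, norm_mul, Complex.norm_I, mul_one, Complex.norm_real, Real.norm_of_nonneg (by linarith)]
  rw [h5]
  have h7 := pow_diff hw1 t t' ht
  have h8 : Real.log w ≤ Real.log ((n : ℝ) + 2) := Real.log_le_log hw0 hw.2
  have h9 := rpow_anti (n := n) hw.1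
  have h10 : 0 ≤ Real.log w := Real.log_nonneg hw1
  have h11 : (0 : ℝ) ≤ w ^ (-(3 / 2) : ℝ) := by positivity
  have h12 : 0 ≤ t' - t := by linarith
  have h13 : w ^ (-(3 / 2) : ℝ) * ((t' - t) * Real.log w) ≤
      ((n : ℝ) + 1) ^ (-(3 / 2) : ℝ) * ((t' - t) * Real.log ((n : ℝ) + 2)) :=
    mul_le_mul h9 (mul_le_mul_of_nonneg_left h8 h12) (mul_nonneg h12 h10) (by positivity)
  have h14 : ‖pp t'‖ * ‖(w : ℂ) ^ (-(pp t') - 1) - (w : ℂ) ^ (-(pp t) - 1)‖ ≤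
      ‖pp t'‖ * (((n : ℝ) + 1) ^ (-(3 / 2) : ℝ) * ((t' - t) * Real.log ((n : ℝ) + 2))) :=
    mul_le_mul_of_nonneg_left (h7.trans h13) (norm_nonneg _)
  have h15 : (t' - t) * w ^ (-(3 / 2) : ℝ) ≤ (t' - t) * ((n : ℝ) + 1) ^ (-(3 / 2) : ℝ) :=
    mul_le_mul_of_nonneg_left h9 h12
  refine (add_le_add h14 h15).trans (le_of_eq ?_)
  ring

theorem log_bound (n : ℕ) : Real.log ((n : ℝ) + 2) ≤ 8 * ((n : ℝ) + 1) ^ (1 / 4 : ℝ) := by
  have h0 : (0 : ℝ) ≤ n := n.cast_nonneg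
  have h1 : Real.log ((n : ℝ) + 2) ≤ ((n : ℝ) + 2) ^ (1 / 4 : ℝ) / (1 / 4) :=
    Real.log_le_rpow_div (by linarith) (by norm_num)
  have h2 : ((n : ℝ) + 2) ^ (1 / 4 : ℝ) ≤ (2 * ((n : ℝ) + 1)) ^ (1 / 4 : ℝ) :=
    Real.rpow_le_rpow (by linarith) (by linarith) (by norm_num)
  have h3 : (2 * ((n : ℝ) + 1)) ^ (1 / 4 : ℝ) = 2 ^ (1 / 4 : ℝ) * ((n : ℝ) + 1) ^ (1 / 4 : ℝ) :=
    Real.mul_rpow (by norm_num) (by linarith)
  have h4 : (2 : ℝ) ^ (1 / 4 : ℝ) ≤ 2 := by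
    calc (2 : ℝ) ^ (1 / 4 : ℝ) ≤ (2 : ℝ) ^ (1 : ℝ) := Real.rpow_le_rpow_of_exponent_le (by norm_num) (by norm_num)
      _ = 2 := Real.rpow_one 2
  have h5 : (0 : ℝ) ≤ ((n : ℝ) + 1) ^ (1 / 4 : ℝ) := by positivity
  have h6 : ((n : ℝ) + 2) ^ (1 / 4 : ℝ) ≤ 2 * ((n : ℝ) + 1) ^ (1 / 4 : ℝ) := by
    rw [h3] at h2
    exact h2.trans (mul_le_mul_of_nonneg_right h4 h5)
  have h7 : ((n : ℝ) + 2) ^ (1 / 4 : ℝ) / (1 / 4) = 4 * ((n : ℝ) + 2) ^ (1 / 4 : ℝ) := by ring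
  rw [h7] at h1
  linarith

theorem sum_pow {p : ℝ} (hp : p < -1) : Summable fun n : ℕ => ((n : ℝ) + 1) ^ p := by
  have h := (Real.summable_nat_rpow.2 hp)
  have h1 := (summable_nat_add_iff 1).2 h
  refine h1.congr fun n => ?_
  push_cast
  rfl

theorem zl_main : S_ZL := by
  set T : ℝ := ∑' n : ℕ, ((n : ℝ) + 1) ^ (-(5 / 4) : ℝ) with hT
  have hTs : Summable fun n : ℕ => ((n : ℝ) + 1) ^ (-(5 / 4) : ℝ) := sum_pow (by norm_num)
  have hT0 : 0 ≤ T := tsum_nonneg fun n => by positivity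
  refine ⟨1 + 21 * T, by linarith, fun θ t t' ht htt ht1 => ?_⟩
  have hS : ∀ s : ℝ, Summable (Y θ (pp s)) := fun s => by
    refine Summable.of_norm_bounded ((sum_pow (p := -(3 / 2)) (by norm_num)).mul_left ‖pp s‖) fun n => ?_
    exact Y_bound θ s n
  have hd0 : 0 ≤ t' - t := by linarith
  -- the first part
  have h1 : ‖1 / (pp t' - 1) - 1 / (pp t - 1)‖ ≤ t' - t := by
    have hn : ∀ s : ℝ, 1 ≤ s → 1 ≤ ‖pp s - 1‖ := fun s hs => by
      have h2 := Complex.abs_im_le_norm (pp s - 1)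
      rw [Complex.sub_im, pp_im, Complex.one_im, sub_zero, abs_of_nonneg (by linarith)] at h2
      linarith
    have hn1 := hn t ht
    have hn2 := hn t' (by linarith)
    have hz1 : pp t - 1 ≠ 0 := norm_pos_iff.1 (by linarith)
    have hz2 : pp t' - 1 ≠ 0 := norm_pos_iff.1 (by linarith)
    have h2 : 1 / (pp t' - 1) - 1 / (pp t - 1) = (pp t - pp t') / ((pp t' - 1) * (pp t - 1)) := by
      field_simp
      ring
    have h6 : pp t - pp t' = ((-(t' - t) : ℝ) : ℂ) * Complex.I := by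
      apply Complex.ext
      · simp [pp]
      · simp [pp]
    rw [h2, norm_div, norm_mul, h6, norm_mul, Complex.norm_I, mul_one, Complex.norm_real, norm_neg,
      Real.norm_of_nonneg hd0]
    exact div_le_self hd0 (by nlinarith)
  -- the sum
  have h2 : ‖∑' n : ℕ, Y θ (pp t') n - ∑' n : ℕ, Y θ (pp t) n‖ ≤ (t' - t) * (21 * t * T) := by
    rw [← (hS t').tsum_sub (hS t)]
    have h3 : ∀ n : ℕ, ‖Y θ (pp t') n - Y θ (pp t) n‖ ≤ (t' - t) * (21 * t * ((n : ℝ) + 1) ^ (-(5 / 4) : ℝ)) := by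
      intro n
      refine (Y_diff θ t t' n htt).trans (mul_le_mul_of_nonneg_left ?_ hd0)
      have h0 : (0 : ℝ) ≤ n := n.cast_nonneg
      have hp : (0 : ℝ) < (n : ℝ) + 1 := by linarith
      have h4 : ((n : ℝ) + 1) ^ (-(5 / 4) : ℝ) = ((n : ℝ) + 1) ^ (-(3 / 2) : ℝ) * ((n : ℝ) + 1) ^ (1 / 4 : ℝ) := by
        rw [← Real.rpow_add hp]
        norm_num
      have h5 : 1 ≤ ((n : ℝ) + 1) ^ (1 / 4 : ℝ) := Real.one_le_rpow (by linarith) (by norm_num)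
      have h6 : ‖pp t'‖ ≤ 5 / 2 * t := (norm_pp (by linarith)).trans (by linarith)
      have h7 := log_bound n
      have h8 : 0 ≤ Real.log ((n : ℝ) + 2) := Real.log_nonneg (by linarith)
      have h9 : ‖pp t'‖ * Real.log ((n : ℝ) + 2) ≤ (5 / 2 * t) * (8 * ((n : ℝ) + 1) ^ (1 / 4 : ℝ)) :=
        mul_le_mul h6 h7 h8 (by linarith)
      have h10 : 1 + ‖pp t'‖ * Real.log ((n : ℝ) + 2) ≤ 21 * t * ((n : ℝ) + 1) ^ (1 / 4 : ℝ) := by
        nlinarith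
      have h11 : (0 : ℝ) ≤ ((n : ℝ) + 1) ^ (-(3 / 2) : ℝ) := by positivity
      calc ((n : ℝ) + 1) ^ (-(3 / 2) : ℝ) * (1 + ‖pp t'‖ * Real.log ((n : ℝ) + 2))
          ≤ ((n : ℝ) + 1) ^ (-(3 / 2) : ℝ) * (21 * t * ((n : ℝ) + 1) ^ (1 / 4 : ℝ)) :=
            mul_le_mul_of_nonneg_left h10 h11
        _ = 21 * t * ((n : ℝ) + 1) ^ (-(5 / 4) : ℝ) := by rw [h4]; ring
    have h4 : Summable fun n : ℕ => (t' - t) * (21 * t * ((n : ℝ) + 1) ^ (-(5 / 4) : ℝ)) :=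
      (hTs.mul_left (21 * t)).mul_left (t' - t)
    refine (tsum_of_norm_bounded h4.hasSum h3).trans (le_of_eq ?_)
    rw [tsum_mul_left, tsum_mul_left]
  have h3 : Z θ (pp t') - Z θ (pp t) = (1 / (pp t' - 1) - 1 / (pp t - 1)) +
      (∑' n : ℕ, Y θ (pp t') n - ∑' n : ℕ, Y θ (pp t) n) := by
    unfold Z
    ring
  rw [h3]
  refine (norm_add_le _ _).trans ((add_le_add h1 h2).trans ?_)
  have h4 : 1 ≤ t ^ 2 := by nlinarith
  have h5 : t ≤ t ^ 2 := by nlinarith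
  have h6 : 21 * t * T ≤ 21 * T * t ^ 2 := by nlinarith
  calc (t' - t) + (t' - t) * (21 * t * T) = (t' - t) * (1 + 21 * t * T) := by ring
    _ ≤ (t' - t) * ((1 + 21 * T) * t ^ 2) := by
        refine mul_le_mul_of_nonneg_left ?_ hd0
        linarith
    _ = (1 + 21 * T) * t ^ 2 * (t' - t) := by ring

end Pool.Agent.U160.LZ.ZLaux

namespace Pool.Agent.U160.LZ

/-- package ZL -/
theorem t_ZL : S_ZL := ZLaux.zl_main

end Pool.Agent.U160.LZ
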