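import Pool.Agent.U160.GC.Main
import Pool.Agent.U160.LZ.PkgZA
import Pool.Agent.U160.LZ.PkgZL
import Pool.Agent.U160.LZ.PkgZC
import Pool.Agent.U160.LZ.PkgVD
import Pool.Agent.U160.LZ.PkgMB

set_option autoImplicit false

namespace Pool.Agent.U160.LZ

open MeasureTheory ProbabilityTheory Finset Filter Topology Pool.Agent.U160.GC
open Pool.Agent.U160.VP (KInd kind_of_iInd)

theorem a_MB : S_MB := t_MB t_VD

theorem clip_mem (u : ℝ) : 0 ≤ clip u ∧ clip u ≤ 1 := by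
  unfold clip
  exact ⟨le_max_left _ _, max_le (by norm_num) (min_le_left _ _)⟩

theorem clip_id {u : ℝ} (h0 : 0 ≤ u) (h1 : u ≤ 1) : clip u = u := by
  unfold clip
  rw [min_eq_right h1, max_eq_right h0]

/-- the scaled perturbation -/
noncomputable def sc (δ : ℝ) (θ : ℕ → ℝ) (n : ℕ) : ℝ := δ * clip (θ n)

theorem yy_sc {δ : ℝ} (h0 : 0 ≤ δ) (h1 : δ ≤ 1) (θ : ℕ → ℝ) (n : ℕ) :
    yy (sc δ θ) n = (n : ℝ) + 1 + δ * clip (θ (n + 1)) := by
  unfold yy sc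
  rw [clip_id (mul_nonneg h0 (clip_mem _).1) (mul_le_one₀ h1 (clip_mem _).1 (clip_mem _).2)]

/-- the number of terms -/
noncomputable def NN (t : ℝ) : ℕ := ⌈t ^ 2⌉₊

theorem NN_ge (t : ℝ) : t ^ 2 ≤ NN t := Nat.le_ceil _

theorem NN_le (t : ℝ) : (NN t : ℝ) ≤ t ^ 2 + 1 := (Nat.ceil_lt_add_one (by positivity)).le

/-- one term -/
noncomputable def tm (δ t : ℝ) (n : ℕ) (θ : ℕ → ℝ) : ℂ := (((n : ℝ) + 1 + δ * clip (θ (n + 1)) : ℝ) : ℂ) ^ (-(pp t))

/-- the mean of one term -/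
noncomputable def mt (δ t : ℝ) (n : ℕ) : ℂ := ∫ u in (0 : ℝ)..1, (((n : ℝ) + 1 + δ * u : ℝ) : ℂ) ^ (-(pp t))

theorem tm_norm {δ : ℝ} (h0 : 0 ≤ δ) (t : ℝ) (n : ℕ) (θ : ℕ → ℝ) : ‖tm δ t n θ‖ ≤ 1 := by
  unfold tm
  have h1 := (clip_mem (θ (n + 1))).1
  have h2 : (1 : ℝ) ≤ (n : ℝ) + 1 + δ * clip (θ (n + 1)) := by
    have : 0 ≤ δ * clip (θ (n + 1)) := mul_nonneg h0 h1
    linarith [Nat.cast_nonneg (α := ℝ) n]
  rw [Complex.norm_cpow_eq_rpow_re_of_pos (by linarith)]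
  apply Real.rpow_le_one_of_one_le_of_nonpos h2
  simp [pp]

theorem tm_meas (δ t : ℝ) (n : ℕ) : Measurable (tm δ t n) := by
  unfold tm
  have h1 : Measurable (fun θ : ℕ → ℝ => (((n : ℝ) + 1 + δ * clip (θ (n + 1)) : ℝ) : ℂ)) := by
    unfold clip; fun_prop
  exact h1.pow_const _

theorem pp_ne (t : ℝ) (ht : 2 ≤ t) : ‖1 / (pp t - 1)‖ ≤ 1 := by
  rw [norm_div, norm_one]
  have h1 : |(pp t - 1).im| ≤ ‖pp t - 1‖ := Complex.abs_im_le_norm _
  have h2 : (pp t - 1).im = t := by simp [pp]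
  rw [h2, abs_of_pos (by linarith)] at h1
  rw [div_le_one (by linarith)]
  linarith

/-- decomposition -/
theorem Z_decomp {δ : ℝ} (h0 : 0 < δ) (h1 : δ ≤ 1) : ∃ C : ℝ, 0 < C ∧ ∀ (θ : ℕ → ℝ) (t : ℝ), 2 ≤ t →
    ‖Z (sc δ θ) (pp t)‖ ≤ ‖∑ n ∈ range (NN t), (tm δ t n θ - mt δ t n)‖ + C := by
  obtain ⟨C1, hC1, -, hZC⟩ := t_ZC
  obtain ⟨C2, hC2, hMB⟩ := a_MB δ h0 h1
  refine ⟨1 + C1 + C2, by positivity, ?_⟩
  intro θ t ht
  have hs : Summable (Y (sc δ θ) (pp t)) := (t_ZA (sc δ θ)).1 (pp t) (by norm_num [pp])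
  have h2 : Z (sc δ θ) (pp t) = 1 / (pp t - 1) + (∑ n ∈ range (NN t), Y (sc δ θ) (pp t) n +
      ∑' n : ℕ, Y (sc δ θ) (pp t) (n + NN t)) := by
    unfold Z
    rw [hs.sum_add_tsum_nat_add]
  have h3 : ∑ n ∈ range (NN t), Y (sc δ θ) (pp t) n = ∑ n ∈ range (NN t), (tm δ t n θ - mt δ t n) +
      ∑ n ∈ range (NN t), (mt δ t n - ∫ v in ((n : ℝ) + 1)..((n : ℝ) + 2), (v : ℂ) ^ (-(pp t))) := by
    rw [← sum_add_distrib]
    refine sum_congr rfl fun n _ => ?_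
    unfold Y tm
    rw [yy_sc h0.le h1]
    ring
  rw [h2, h3]
  have e1 := pp_ne t ht
  have e2 := hMB t (NN t) ht (NN_ge t) (NN_le t)
  have e3 := hZC (sc δ θ) t (NN t) (by linarith) (NN_ge t)
  calc _ ≤ ‖1 / (pp t - 1)‖ + ‖(∑ n ∈ range (NN t), (tm δ t n θ - mt δ t n) +
      ∑ n ∈ range (NN t), (mt δ t n - ∫ v in ((n : ℝ) + 1)..((n : ℝ) + 2), (v : ℂ) ^ (-(pp t)))) +
      ∑' n : ℕ, Y (sc δ θ) (pp t) (n + NN t)‖ := norm_add_le _ _
    _ ≤ ‖1 / (pp t - 1)‖ + (‖(∑ n ∈ range (NN t), (tm δ t n θ - mt δ t n) +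
      ∑ n ∈ range (NN t), (mt δ t n - ∫ v in ((n : ℝ) + 1)..((n : ℝ) + 2), (v : ℂ) ^ (-(pp t))))‖ +
      ‖∑' n : ℕ, Y (sc δ θ) (pp t) (n + NN t)‖) := by gcongr; exact norm_add_le _ _
    _ ≤ ‖1 / (pp t - 1)‖ + ((‖∑ n ∈ range (NN t), (tm δ t n θ - mt δ t n)‖ +
      ‖∑ n ∈ range (NN t), (mt δ t n - ∫ v in ((n : ℝ) + 1)..((n : ℝ) + 2), (v : ℂ) ^ (-(pp t)))‖) +
      ‖∑' n : ℕ, Y (sc δ θ) (pp t) (n + NN t)‖) := by gcongr; exact norm_add_le _ _
    _ ≤ _ := by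
      have : ‖∑ n ∈ range (NN t), (mt δ t n - ∫ v in ((n : ℝ) + 1)..((n : ℝ) + 2), (v : ℂ) ^ (-(pp t)))‖ ≤ C2 := e2
      linarith

/-- the mean under the product law -/
theorem mean_tm {δ : ℝ} (h0 : 0 ≤ δ) (t : ℝ) (n : ℕ) : ∫ θ, tm δ t n θ ∂(prodLaw unif) = mt δ t n := by
  have h1 : (prodLaw unif).map (fun θ : ℕ → ℝ => θ (n + 1)) = unif := Measure.infinitePi_map_eval (fun _ => unif) (n + 1)
  have h3 : Measurable (fun u : ℝ => (((n : ℝ) + 1 + δ * clip u : ℝ) : ℂ)) := by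
    unfold clip; fun_prop
  have h4 := integral_map (μ := prodLaw unif) (φ := fun θ : ℕ → ℝ => θ (n + 1))
    (f := fun u : ℝ => (((n : ℝ) + 1 + δ * clip u : ℝ) : ℂ) ^ (-(pp t)))
    (measurable_pi_apply _).aemeasurable (h3.pow_const _).aestronglyMeasurable
  rw [h1] at h4
  have h2 : ∫ θ, tm δ t n θ ∂(prodLaw unif) =
      ∫ u, (((n : ℝ) + 1 + δ * clip u : ℝ) : ℂ) ^ (-(pp t)) ∂unif := h4.symm
  rw [h2]
  unfold mt unif
  rw [intervalIntegral.integral_of_le zero_le_one, ← integral_Icc_eq_integral_Ioc]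
  refine setIntegral_congr_fun measurableSet_Icc fun u hu => ?_
  simp only [clip_id hu.1 hu.2]

/-- a real part of the sum: `w = 1` gives the real part, `w = -i` the imaginary part -/
noncomputable def ff (δ t : ℝ) (w : ℂ) (θ : ℕ → ℝ) : ℝ := ∑ n ∈ range (NN t), (w * tm δ t n θ).re

theorem ff_meas (δ t : ℝ) (w : ℂ) : Measurable (ff δ t w) := by
  unfold ff
  exact Finset.measurable_sum _ fun n _ => Complex.measurable_re.comp ((tm_meas δ t n).const_mul w)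

theorem ff_mean {δ : ℝ} (h0 : 0 ≤ δ) (t : ℝ) (w : ℂ) :
    ∫ θ, ff δ t w θ ∂(prodLaw unif) = ∑ n ∈ range (NN t), (w * mt δ t n).re := by
  have hP : IsProbabilityMeasure (prodLaw unif) := by unfold prodLaw; infer_instance
  have hint : ∀ n, Integrable (fun θ => w * tm δ t n θ) (prodLaw unif) := fun n =>
    Integrable.of_bound ((tm_meas δ t n).const_mul w).aestronglyMeasurable (‖w‖ * 1)
      (Filter.Eventually.of_forall fun θ => by rw [norm_mul]; gcongr; exact tm_norm h0 t n θ)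
  have hre : ∀ n, Integrable (fun θ => (w * tm δ t n θ).re) (prodLaw unif) := fun n => (hint n).re
  unfold ff
  rw [integral_finsetSum _ fun n _ => hre n]
  refine sum_congr rfl fun n _ => ?_
  have h1 := integral_re (hint n)
  have h2 : ∫ θ, (w * tm δ t n θ).re ∂(prodLaw unif) = (∫ θ, w * tm δ t n θ ∂(prodLaw unif)).re := h1
  rw [h2, integral_const_mul, mean_tm h0]

theorem tm_dep (δ t : ℝ) (n : ℕ) (x y : ℕ → ℝ) (h : x (n + 1) = y (n + 1)) : tm δ t n x = tm δ t n y := by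
  unfold tm; rw [h]

/-- bounded differences -/
theorem ff_diff {δ : ℝ} (h0 : 0 < δ) (h1 : δ ≤ 1) : ∃ C : ℝ, 0 < C ∧ ∀ t : ℝ, 2 ≤ t → ∃ c : ℕ → ℝ,
    (∀ j, 0 ≤ c j) ∧ ∑ j ∈ Icc 1 (NN t), c j ^ 2 ≤ C * Real.log t ∧
    ∀ w : ℂ, ‖w‖ = 1 → ∀ (j : ℕ) (x y : ℕ → ℝ), (∀ n, n ≠ j → x n = y n) → |ff δ t w x - ff δ t w y| ≤ c j := by
  obtain ⟨C, hC, hZC, -⟩ := t_ZC
  refine ⟨C, hC, fun t ht => ?_⟩
  obtain ⟨c, hc, hosc, hsum⟩ := hZC t ht
  refine ⟨fun j => if 1 ≤ j then c (j - 1) else 0, fun j => by dsimp only; split_ifs <;> simp [hc], ?_, ?_⟩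
  · have h2 : ∑ j ∈ Icc 1 (NN t), (if 1 ≤ j then c (j - 1) else 0) ^ 2 = ∑ n ∈ range (NN t), c n ^ 2 := by
      have h3 : Finset.Icc 1 (NN t) = (range (NN t)).image (· + 1) := by
        ext n; simp only [mem_Icc, mem_image, mem_range]
        constructor
        · intro h; exact ⟨n - 1, by omega, by omega⟩
        · rintro ⟨k, hk, rfl⟩; omega
      rw [h3, sum_image (fun x _ y _ h => by simpa using h)]
      refine sum_congr rfl fun n _ => ?_
      simp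
    rw [h2]
    exact hsum _
  · intro w hw j x y hxy
    show _ ≤ (if 1 ≤ j then c (j - 1) else 0)
    unfold ff
    rw [← sum_sub_distrib]
    by_cases hj : 1 ≤ j ∧ j - 1 ∈ range (NN t)
    · have h2 : ∑ n ∈ range (NN t), ((w * tm δ t n x).re - (w * tm δ t n y).re) =
          (w * tm δ t (j - 1) x).re - (w * tm δ t (j - 1) y).re := by
        apply sum_eq_single_of_mem _ hj.2
        intro n _ hn
        rw [tm_dep δ t n x y (hxy _ (by omega))]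
        ring
      rw [h2, if_pos hj.1, ← Complex.sub_re, ← mul_sub]
      calc |(w * (tm δ t (j - 1) x - tm δ t (j - 1) y)).re| ≤ ‖w * (tm δ t (j - 1) x - tm δ t (j - 1) y)‖ :=
            Complex.abs_re_le_norm _
        _ = ‖tm δ t (j - 1) x - tm δ t (j - 1) y‖ := by rw [norm_mul, hw, one_mul]
        _ ≤ c (j - 1) := by
          unfold tm
          have hmem : ∀ z : ℕ → ℝ, ((j - 1 : ℕ) : ℝ) + 1 + δ * clip (z (j - 1 + 1)) ∈
              Set.Icc (((j - 1 : ℕ) : ℝ) + 1) (((j - 1 : ℕ) : ℝ) + 2) := by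
            intro z
            have a1 := (clip_mem (z (j - 1 + 1))).1
            have a2 := (clip_mem (z (j - 1 + 1))).2
            constructor
            · have := mul_nonneg h0.le a1; linarith
            · have := mul_le_one₀ h1 a1 a2; linarith
          exact hosc (j - 1) _ _ (hmem x) (hmem y)
    · have h2 : ∑ n ∈ range (NN t), ((w * tm δ t n x).re - (w * tm δ t n y).re) = 0 := by
        apply sum_eq_zero
        intro n hn
        rw [tm_dep δ t n x y (hxy _ ?_)]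
        · ring
        · intro h
          apply hj
          constructor
          · omega
          · rw [← h]; simpa using hn
      rw [h2, abs_zero]
      split_ifs
      · exact hc _
      · exact le_refl _

theorem ff_dep (δ t : ℝ) (w : ℂ) (x y : ℕ → ℝ) (h : ∀ n ∈ Icc 1 (NN t), x n = y n) : ff δ t w x = ff δ t w y := by
  unfold ff
  refine sum_congr rfl fun n hn => ?_
  rw [tm_dep δ t n x y (h _ (by rw [mem_Icc]; have := mem_range.1 hn; omega))]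

/-- from the two real parts to the norm -/
theorem norm_le_ff (δ t : ℝ) (θ : ℕ → ℝ) : ‖∑ n ∈ range (NN t), (tm δ t n θ - mt δ t n)‖ ≤
    |ff δ t 1 θ - ∑ n ∈ range (NN t), ((1 : ℂ) * mt δ t n).re| +
    |ff δ t (-Complex.I) θ - ∑ n ∈ range (NN t), (-Complex.I * mt δ t n).re| := by
  refine (Complex.norm_le_abs_re_add_abs_im _).trans (le_of_eq ?_)
  unfold ff
  rw [← sum_sub_distrib, ← sum_sub_distrib]
  congr 2
  · rw [Complex.re_sum]
    refine sum_congr rfl fun n _ => ?_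
    simp
  · rw [Complex.im_sum]
    refine sum_congr rfl fun n _ => ?_
    simp

end Pool.Agent.U160.LZ
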