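import Pool.Agent.U160.LZ.Main

set_option autoImplicit false

namespace Pool.Agent.U160.LZ.Seq

open MeasureTheory ProbabilityTheory Finset Filter Topology Pool.Agent.U160.GC Pool.Agent.U160.LZ
open Pool.Agent.U160.VP (KInd kind_of_iInd)

/-- the scaled perturbation -/
noncomputable def sc (D : ℕ → ℝ) (θ : ℕ → ℝ) (n : ℕ) : ℝ := D n * clip (θ n)

theorem yy_sc {D : ℕ → ℝ} (h0 : ∀ n, 0 ≤ D n) (h1 : ∀ n, D n ≤ 1) (θ : ℕ → ℝ) (n : ℕ) :
    yy (sc D θ) n = (n : ℝ) + 1 + D (n + 1) * clip (θ (n + 1)) := by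
  unfold yy sc
  rw [clip_id (mul_nonneg (h0 _) (clip_mem _).1) (mul_le_one₀ (h1 _) (clip_mem _).1 (clip_mem _).2)]

/-- one term -/
noncomputable def tm (D : ℕ → ℝ) (t : ℝ) (n : ℕ) (θ : ℕ → ℝ) : ℂ := (((n : ℝ) + 1 + D (n + 1) * clip (θ (n + 1)) : ℝ) : ℂ) ^ (-(pp t))

/-- the mean of one term -/
noncomputable def mt (D : ℕ → ℝ) (t : ℝ) (n : ℕ) : ℂ := ∫ u in (0 : ℝ)..1, (((n : ℝ) + 1 + D (n + 1) * u : ℝ) : ℂ) ^ (-(pp t))

theorem tm_norm {D : ℕ → ℝ} (h0 : ∀ n, 0 ≤ D n) (t : ℝ) (n : ℕ) (θ : ℕ → ℝ) : ‖tm D t n θ‖ ≤ 1 := by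
  unfold tm
  have h1 := (clip_mem (θ (n + 1))).1
  have h2 : (1 : ℝ) ≤ (n : ℝ) + 1 + D (n + 1) * clip (θ (n + 1)) := by
    have : 0 ≤ D (n + 1) * clip (θ (n + 1)) := mul_nonneg (h0 _) h1
    linarith [Nat.cast_nonneg (α := ℝ) n]
  rw [Complex.norm_cpow_eq_rpow_re_of_pos (by linarith)]
  apply Real.rpow_le_one_of_one_le_of_nonpos h2
  simp [pp]

theorem tm_meas (D : ℕ → ℝ) (t : ℝ) (n : ℕ) : Measurable (tm D t n) := by
  unfold tm
  have h1 : Measurable (fun θ : ℕ → ℝ => (((n : ℝ) + 1 + D (n + 1) * clip (θ (n + 1)) : ℝ) : ℂ)) := by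
    unfold clip; fun_prop
  exact h1.pow_const _

/-- decomposition -/
theorem Z_decomp {D : ℕ → ℝ} (h0 : ∀ n, 0 ≤ D n) (h1 : ∀ n, D n ≤ 1) : ∃ C : ℝ, 0 < C ∧ ∀ (M : ℝ → ℝ),
    (∀ t, 2 ≤ t → ‖∑ n ∈ range (NN t), (mt D t n - ∫ v in ((n : ℝ) + 1)..((n : ℝ) + 2), (v : ℂ) ^ (-(pp t)))‖ ≤ M t) →
    ∀ (θ : ℕ → ℝ) (t : ℝ), 2 ≤ t →
    ‖Z (sc D θ) (pp t)‖ ≤ ‖∑ n ∈ range (NN t), (tm D t n θ - mt D t n)‖ + C + M t := by
  obtain ⟨C1, hC1, -, hZC⟩ := t_ZC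
  refine ⟨1 + C1, by positivity, ?_⟩
  intro M hM θ t ht
  have hs : Summable (Y (sc D θ) (pp t)) := (t_ZA (sc D θ)).1 (pp t) (by norm_num [pp])
  have h2 : Z (sc D θ) (pp t) = 1 / (pp t - 1) + (∑ n ∈ range (NN t), Y (sc D θ) (pp t) n +
      ∑' n : ℕ, Y (sc D θ) (pp t) (n + NN t)) := by
    unfold Z
    rw [hs.sum_add_tsum_nat_add]
  have h3 : ∑ n ∈ range (NN t), Y (sc D θ) (pp t) n = ∑ n ∈ range (NN t), (tm D t n θ - mt D t n) +
      ∑ n ∈ range (NN t), (mt D t n - ∫ v in ((n : ℝ) + 1)..((n : ℝ) + 2), (v : ℂ) ^ (-(pp t))) := by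
    rw [← sum_add_distrib]
    refine sum_congr rfl fun n _ => ?_
    unfold Y tm
    rw [yy_sc h0 h1]
    ring
  rw [h2, h3]
  have e1 := pp_ne t ht
  have e2 := hM t ht
  have e3 := hZC (sc D θ) t (NN t) (by linarith) (NN_ge t)
  calc _ ≤ ‖1 / (pp t - 1)‖ + ‖(∑ n ∈ range (NN t), (tm D t n θ - mt D t n) +
      ∑ n ∈ range (NN t), (mt D t n - ∫ v in ((n : ℝ) + 1)..((n : ℝ) + 2), (v : ℂ) ^ (-(pp t)))) +
      ∑' n : ℕ, Y (sc D θ) (pp t) (n + NN t)‖ := norm_add_le _ _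
    _ ≤ ‖1 / (pp t - 1)‖ + (‖(∑ n ∈ range (NN t), (tm D t n θ - mt D t n) +
      ∑ n ∈ range (NN t), (mt D t n - ∫ v in ((n : ℝ) + 1)..((n : ℝ) + 2), (v : ℂ) ^ (-(pp t))))‖ +
      ‖∑' n : ℕ, Y (sc D θ) (pp t) (n + NN t)‖) := by gcongr; exact norm_add_le _ _
    _ ≤ ‖1 / (pp t - 1)‖ + ((‖∑ n ∈ range (NN t), (tm D t n θ - mt D t n)‖ +
      ‖∑ n ∈ range (NN t), (mt D t n - ∫ v in ((n : ℝ) + 1)..((n : ℝ) + 2), (v : ℂ) ^ (-(pp t)))‖) +
      ‖∑' n : ℕ, Y (sc D θ) (pp t) (n + NN t)‖) := by gcongr; exact norm_add_le _ _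
    _ ≤ _ := by
      have : ‖∑ n ∈ range (NN t), (mt D t n - ∫ v in ((n : ℝ) + 1)..((n : ℝ) + 2), (v : ℂ) ^ (-(pp t)))‖ ≤ M t := e2
      linarith

/-- the mean under the product law -/
theorem mean_tm {D : ℕ → ℝ} (h0 : ∀ n, 0 ≤ D n) (t : ℝ) (n : ℕ) : ∫ θ, tm D t n θ ∂(prodLaw unif) = mt D t n := by
  have h1 : (prodLaw unif).map (fun θ : ℕ → ℝ => θ (n + 1)) = unif := Measure.infinitePi_map_eval (fun _ => unif) (n + 1)
  have h3 : Measurable (fun u : ℝ => (((n : ℝ) + 1 + D (n + 1) * clip u : ℝ) : ℂ)) := by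
    unfold clip; fun_prop
  have h4 := integral_map (μ := prodLaw unif) (φ := fun θ : ℕ → ℝ => θ (n + 1))
    (f := fun u : ℝ => (((n : ℝ) + 1 + D (n + 1) * clip u : ℝ) : ℂ) ^ (-(pp t)))
    (measurable_pi_apply _).aemeasurable (h3.pow_const _).aestronglyMeasurable
  rw [h1] at h4
  have h2 : ∫ θ, tm D t n θ ∂(prodLaw unif) =
      ∫ u, (((n : ℝ) + 1 + D (n + 1) * clip u : ℝ) : ℂ) ^ (-(pp t)) ∂unif := h4.symm
  rw [h2]
  unfold mt unif
  rw [intervalIntegral.integral_of_le zero_le_one, ← integral_Icc_eq_integral_Ioc]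
  refine setIntegral_congr_fun measurableSet_Icc fun u hu => ?_
  simp only [clip_id hu.1 hu.2]

/-- a real part of the sum: `w = 1` gives the real part, `w = -i` the imaginary part -/
noncomputable def ff (D : ℕ → ℝ) (t : ℝ) (w : ℂ) (θ : ℕ → ℝ) : ℝ := ∑ n ∈ range (NN t), (w * tm D t n θ).re

theorem ff_meas (D : ℕ → ℝ) (t : ℝ) (w : ℂ) : Measurable (ff D t w) := by
  unfold ff
  exact Finset.measurable_sum _ fun n _ => Complex.measurable_re.comp ((tm_meas D t n).const_mul w)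

theorem ff_mean {D : ℕ → ℝ} (h0 : ∀ n, 0 ≤ D n) (t : ℝ) (w : ℂ) :
    ∫ θ, ff D t w θ ∂(prodLaw unif) = ∑ n ∈ range (NN t), (w * mt D t n).re := by
  have hP : IsProbabilityMeasure (prodLaw unif) := by unfold prodLaw; infer_instance
  have hint : ∀ n, Integrable (fun θ => w * tm D t n θ) (prodLaw unif) := fun n =>
    Integrable.of_bound ((tm_meas D t n).const_mul w).aestronglyMeasurable (‖w‖ * 1)
      (Filter.Eventually.of_forall fun θ => by rw [norm_mul]; gcongr; exact tm_norm h0 t n θ)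
  have hre : ∀ n, Integrable (fun θ => (w * tm D t n θ).re) (prodLaw unif) := fun n => (hint n).re
  unfold ff
  rw [integral_finsetSum _ fun n _ => hre n]
  refine sum_congr rfl fun n _ => ?_
  have h1 := integral_re (hint n)
  have h2 : ∫ θ, (w * tm D t n θ).re ∂(prodLaw unif) = (∫ θ, w * tm D t n θ ∂(prodLaw unif)).re := h1
  rw [h2, integral_const_mul, mean_tm h0]

theorem tm_dep (D : ℕ → ℝ) (t : ℝ) (n : ℕ) (x y : ℕ → ℝ) (h : x (n + 1) = y (n + 1)) : tm D t n x = tm D t n y := by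
  unfold tm; rw [h]

/-- bounded differences -/
theorem ff_diff {D : ℕ → ℝ} (h0 : ∀ n, 0 ≤ D n) (h1 : ∀ n, D n ≤ 1) : ∃ C : ℝ, 0 < C ∧ ∀ t : ℝ, 2 ≤ t → ∃ c : ℕ → ℝ,
    (∀ j, 0 ≤ c j) ∧ ∑ j ∈ Icc 1 (NN t), c j ^ 2 ≤ C * Real.log t ∧
    ∀ w : ℂ, ‖w‖ = 1 → ∀ (j : ℕ) (x y : ℕ → ℝ), (∀ n, n ≠ j → x n = y n) → |ff D t w x - ff D t w y| ≤ c j := by
  obtain ⟨C, hC, hZC, -⟩ := t_ZC
  refine ⟨C, hC, fun t ht => ?_⟩
  obtain ⟨c, hc, hosc, hsum⟩ := hZC t ht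
  refine ⟨fun j => if 1 ≤ j then c (j - 1) else 0, fun j => by dsimp only; split_ifs <;> simp [hc], ?_, ?_⟩
  · have h2 : ∑ j ∈ Icc 1 (NN t), (if 1 ≤ j then c (j - 1) else 0) ^ 2 = ∑ n ∈ range (NN t), c n ^ 2 := by
      have h3 : Finset.Icc 1 (NN t) = (range (NN t)).image (· + 1) := by
        ext n; simp only [mem_Icc, mem_image, mem_range]
        constructor
        · intro h; exact ⟨n - 1, by omega, by omega⟩
        · rintro ⟨k, hk, rfl⟩; omega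
      rw [h3, sum_image (fun x _ y _ h => by simpa using h)]
      refine sum_congr rfl fun n _ => ?_
      simp
    rw [h2]
    exact hsum _
  · intro w hw j x y hxy
    show _ ≤ (if 1 ≤ j then c (j - 1) else 0)
    unfold ff
    rw [← sum_sub_distrib]
    by_cases hj : 1 ≤ j ∧ j - 1 ∈ range (NN t)
    · have h2 : ∑ n ∈ range (NN t), ((w * tm D t n x).re - (w * tm D t n y).re) =
          (w * tm D t (j - 1) x).re - (w * tm D t (j - 1) y).re := by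
        apply sum_eq_single_of_mem _ hj.2
        intro n _ hn
        rw [tm_dep D t n x y (hxy _ (by omega))]
        ring
      rw [h2, if_pos hj.1, ← Complex.sub_re, ← mul_sub]
      calc |(w * (tm D t (j - 1) x - tm D t (j - 1) y)).re| ≤ ‖w * (tm D t (j - 1) x - tm D t (j - 1) y)‖ :=
            Complex.abs_re_le_norm _
        _ = ‖tm D t (j - 1) x - tm D t (j - 1) y‖ := by rw [norm_mul, hw, one_mul]
        _ ≤ c (j - 1) := by
          unfold tm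
          have hmem : ∀ z : ℕ → ℝ, ((j - 1 : ℕ) : ℝ) + 1 + D (j - 1 + 1) * clip (z (j - 1 + 1)) ∈
              Set.Icc (((j - 1 : ℕ) : ℝ) + 1) (((j - 1 : ℕ) : ℝ) + 2) := by
            intro z
            have a1 := (clip_mem (z (j - 1 + 1))).1
            have a2 := (clip_mem (z (j - 1 + 1))).2
            constructor
            · have := mul_nonneg (h0 (j - 1 + 1)) a1; linarith
            · have := mul_le_one₀ (h1 (j - 1 + 1)) a1 a2; linarith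
          exact hosc (j - 1) _ _ (hmem x) (hmem y)
    · have h2 : ∑ n ∈ range (NN t), ((w * tm D t n x).re - (w * tm D t n y).re) = 0 := by
        apply sum_eq_zero
        intro n hn
        rw [tm_dep D t n x y (hxy _ ?_)]
        · ring
        · intro h
          apply hj
          constructor
          · omega
          · rw [← h]; simpa using hn
      rw [h2, abs_zero]
      split_ifs
      · exact hc _
      · exact le_refl _

theorem ff_dep (D : ℕ → ℝ) (t : ℝ) (w : ℂ) (x y : ℕ → ℝ) (h : ∀ n ∈ Icc 1 (NN t), x n = y n) : ff D t w x = ff D t w y := by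
  unfold ff
  refine sum_congr rfl fun n hn => ?_
  rw [tm_dep D t n x y (h _ (by rw [mem_Icc]; have := mem_range.1 hn; omega))]

/-- from the two real parts to the norm -/
theorem norm_le_ff (D : ℕ → ℝ) (t : ℝ) (θ : ℕ → ℝ) : ‖∑ n ∈ range (NN t), (tm D t n θ - mt D t n)‖ ≤
    |ff D t 1 θ - ∑ n ∈ range (NN t), ((1 : ℂ) * mt D t n).re| +
    |ff D t (-Complex.I) θ - ∑ n ∈ range (NN t), (-Complex.I * mt D t n).re| := by
  refine (Complex.norm_le_abs_re_add_abs_im _).trans (le_of_eq ?_)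
  unfold ff
  rw [← sum_sub_distrib, ← sum_sub_distrib]
  congr 2
  · rw [Complex.re_sum]
    refine sum_congr rfl fun n _ => ?_
    simp
  · rw [Complex.im_sum]
    refine sum_congr rfl fun n _ => ?_
    simp

end Pool.Agent.U160.LZ.Seq
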